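import Pool.Agent.Lib.MP_2fb4be_al.FD.RelMain

/-!
Colourings of low multiplicity that are boundedly finite-to-one on the cosets of a cyclic subgroup
bound the distortion of that subgroup in a combable group. No equivariance is needed.
-/

set_option autoImplicit false

noncomputable section

namespace Pool.Agent.Lib.MP_2fb4be_al.Sol.K

open Finsupp hiding cons
open Filter Pool.Agent.Lib.MP_f0c981_al

variable {S : Type}

/-- Bounded sequences. -/
def Bs : Submodule ℝ (ℕ → ℝ) where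
  carrier := {u | ∃ C, ∀ n, |u n| ≤ C}
  add_mem' := by
    rintro u v ⟨C, h⟩ ⟨C', h'⟩
    exact ⟨C + C', fun n => (abs_add_le _ _).trans (add_le_add (h n) (h' n))⟩
  zero_mem' := ⟨0, by simp⟩
  smul_mem' := by
    rintro c u ⟨C, h⟩
    exact ⟨|c| * C, fun n => by
      rw [Pi.smul_apply, smul_eq_mul, abs_mul]
      exact mul_le_mul_of_nonneg_left (h n) (abs_nonneg c)⟩

/-- Sequences with bounded sums. -/
def Ng : Submodule ℝ (ℕ → ℝ) :=
  Bs.comap (LinearMap.pi fun M => ∑ n ∈ Finset.range M, LinearMap.proj n)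

lemma mem_Ng {u : ℕ → ℝ} : u ∈ Ng ↔ ∃ C, ∀ M, |∑ n ∈ Finset.range M, u n| ≤ C := by
  simp [Ng, Bs]

lemma ng_diff {u : ℕ → ℝ} (h : u ∈ Bs) (w : ℕ) : (fun n => u (n + w) - u n) ∈ Ng := by
  obtain ⟨C, h⟩ := h
  induction w with
  | zero => exact mem_Ng.2 ⟨0, by simp⟩
  | succ w ih =>
    have h1 : (fun n => u (n + 1 + w) - u (n + w)) ∈ Ng := mem_Ng.2 ⟨C + C, fun M => by
      rw [Finset.sum_range_sub fun n => u (n + w)]
      exact (abs_sub _ _).trans (add_le_add (h _) (h _))⟩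
    convert add_mem h1 ih using 2 with n
    rw [Pi.add_apply, add_right_comm n 1, ← add_assoc]
    ring

lemma one_notMem : (fun _ => 1) ∉ Ng := fun h => by
  obtain ⟨C, h⟩ := mem_Ng.1 h
  obtain ⟨M, hM⟩ := exists_nat_gt C
  have := h M
  rw [Finset.sum_const, Finset.card_range, nsmul_eq_mul, mul_one, abs_le] at this
  exact absurd hM (not_lt.2 this.2)

/-- Bounded families of chains. -/
def BF (S : Type) (m : ℕ) : Submodule ℝ (ℕ → B ℝ S) :=
  Submodule.span ℝ {y | ∃ (l : ℕ → List S) (r : ℕ → ℝ), (∀ n, (l n).length = m) ∧ r ∈ Bs ∧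
    y = fun n => single (l n) (r n)}

lemma BF_gen {m : ℕ} (l : ℕ → List S) {r : ℕ → ℝ} (h : ∀ n, (l n).length = m) (hr : r ∈ Bs) :
    (fun n => single (l n) (r n)) ∈ BF S m :=
  Submodule.subset_span ⟨l, r, h, hr, rfl⟩

lemma BF_map {M : Type} [AddCommGroup M] [Module ℝ M] {m : ℕ} (F : ℕ → B ℝ S →ₗ[ℝ] M)
    (W : Submodule ℝ (ℕ → M)) (h : ∀ (l : ℕ → List S) (r : ℕ → ℝ), (∀ n, (l n).length = m) →
      r ∈ Bs → (fun n => F n (single (l n) (r n))) ∈ W) {y : ℕ → B ℝ S} (hy : y ∈ BF S m) :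
    (fun n => F n (y n)) ∈ W := by
  have : BF S m ≤ W.comap (LinearMap.pi fun n => F n ∘ₗ LinearMap.proj n) :=
    Submodule.span_le.2 (by rintro _ ⟨l, r, h1, h2, rfl⟩; exact h l r h1 h2)
  exact this hy

lemma BF_cons {m : ℕ} (a : ℕ → S) {y : ℕ → B ℝ S} (hy : y ∈ BF S m) :
    (fun n => cons (a n) (y n)) ∈ BF S (m + 1) :=
  BF_map (fun n => cons (a n)) _ (fun l r h1 h2 => by
    simpa using BF_gen (fun n => a n :: l n) (fun n => by simp [h1]) h2) hy

lemma BF_ncons {m : ℕ} (a : ℕ → S) {y : ℕ → B ℝ S} (hy : y ∈ BF S m) :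
    (fun n => ncons (a n) (y n)) ∈ BF S (m + 1) := by
  classical
  refine BF_map (fun n => ncons (a n)) _ (fun l r h1 h2 => ?_) hy
  obtain ⟨C, h2⟩ := h2
  convert BF_gen (m := m + 1) (fun n => a n :: l n)
    (r := fun n => if (l n).head? = some (a n) then 0 else r n)
    (fun n => by simp [h1]) ⟨C, fun n => by
      have := h2 n
      beta_reduce
      split_ifs
      · exact abs_zero.le.trans ((abs_nonneg _).trans this)
      · exact this⟩ using 2 with n
  by_cases e : (l n).head? = some (a n) <;> simp [ncons, e]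

lemma BF_bd {m : ℕ} {y : ℕ → B ℝ S} (hy : y ∈ BF S (m + 1)) :
    (fun n => MP_f0c981_al.bd (y n)) ∈ BF S m := by
  induction m generalizing y with
  | zero =>
    refine BF_map (fun _ => MP_f0c981_al.bd) _ (fun l r h1 h2 => ?_) hy
    choose a ha using fun n => List.length_eq_one_iff.1 (h1 n)
    simpa [ha, bd_single_cons] using BF_gen (S := S) (fun _ => []) (fun _ => rfl) h2
  | succ m ih =>
    refine BF_map (fun _ => MP_f0c981_al.bd) _ (fun l r h1 h2 => ?_) hy
    choose a l' ha using fun n => List.exists_cons_of_length_eq_add_one (h1 n)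
    have h3 := BF_gen l' (m := m + 1) (fun n => by simpa [ha] using h1 n) h2
    simp only [ha, bd_single_cons]
    exact sub_mem h3 (BF_cons a (ih h3))

lemma BF_Mh {m : ℕ} (a : ℕ → S → ℝ) (C : ℝ) (ha : ∀ n z, |a n z| ≤ C) {y : ℕ → B ℝ S}
    (hy : y ∈ BF S (m + 1)) : (fun n => Mh (a n) (y n)) ∈ BF S (m + 1) := by
  refine BF_map (fun n => Mh (a n)) _ (fun l r h1 h2 => ?_) hy
  obtain ⟨C', h2⟩ := h2
  choose b l' hb using fun n => List.exists_cons_of_length_eq_add_one (h1 n)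
  convert BF_gen l (r := fun n => a n (b n) * r n) h1 ⟨C * C', fun n => by
    rw [abs_mul]
    exact mul_le_mul (ha _ _) (h2 n) (abs_nonneg _) ((abs_nonneg _).trans (ha n (b n)))⟩
    using 2 with n
  rw [hb n, ← cons_single, Mh_cons]
  simp

lemma BF_fI [LinearOrder S] (μ : List S → S) {m : ℕ} {y : ℕ → B ℝ S} (hy : y ∈ BF S m) :
    (fun n => fI μ m (y n)) ∈ BF S m := by
  induction m generalizing y with
  | zero => exact hy
  | succ m ih =>
    refine BF_map (fun _ => fI μ (m + 1)) _ (fun l r h1 h2 => ?_) hy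
    convert BF_ncons (fun n => μ (l n)) (ih (BF_bd (BF_gen l h1 h2))) using 2 with n
    rw [← smul_single_one, map_smul, fI_single, map_smul, map_smul, map_smul]

lemma BF_Ph {ι : Type} (a : ℕ → ι → S → ℝ) (C : ℝ) (ha : ∀ n i z, |a n i z| ≤ C) (J : List ι)
    {y : ℕ → B ℝ S} (hy : y ∈ BF S (J.length + 1)) : (fun n => Ph (a n) J (y n)) ∈ Bs := by
  induction J generalizing y with
  | nil =>
    refine BF_map (fun _ => lapply []) Bs (fun l r h1 h2 => ?_) (BF_bd hy)
    simpa [fun n => List.length_eq_zero_iff.1 (h1 n)] using h2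
  | cons i J ih => exact ih (BF_Mh (fun n => a n i) C (fun n => ha n i) (BF_bd hy))

lemma BF_lmap {S' : Type} (κ : ℕ → S' → S) {m : ℕ} {y : B ℝ S'} (hy : y ∈ gr ℝ S' m) :
    (fun n => lmap (κ n) y) ∈ BF S m :=
  gr_map (LinearMap.pi fun n => lmap (κ n)) _ (fun l hl => by
    have := BF_gen (m := m) (fun n => l.map (κ n)) (r := fun _ => 1) (fun n => by simp [hl])
      ⟨1, by simp⟩
    convert this using 2
    simp) hy

variable {G : Type} [Group G]

theorem coreS (L : Len G) (p : ℕ → G → G) (C : ℕ) (h0 : ∀ g, p 0 g = 1)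
    (h1 : ∀ t g, L.len ((p t g)⁻¹ * p (t + 1) g) ≤ C)
    (h2 : ∀ R, ∃ R', ∀ t g h, L.len (g⁻¹ * h) ≤ R → L.len ((p t g)⁻¹ * p t h) ≤ R')
    (h3 : ∀ g t, C * (L.len g + 1) ≤ t → p t g = g) (N : ℕ) :
    ∃ R K : ℕ, ∀ (x : G) (ι : Type) (π : G → ι) (F : ℕ),
      (∀ g (T : Finset G), (∀ h ∈ T, L.len (g⁻¹ * h) ≤ R) → Set.InjOn π T → T.card ≤ N + 1) →
      (∀ g i (T : Finset ℕ), (∀ n ∈ T, π (x ^ n * g) = i) → T.card ≤ F) →
      ∀ W D : ℕ, 1 ≤ D → (∀ j ≤ N, L.len (x ^ W ^ j) ≤ D) → W ≤ F * K * D ^ (N + 1) := by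
  classical
  obtain ⟨R, K, hc⟩ := exists_c (k := ℝ) (ι := Fin (N + 1)) L p C h0 h1 h2 h3 (N + 1)
  refine ⟨R, (N + 1) * K, fun x ι π F hd hF W D hD hl => ?_⟩
  by_contra hW
  obtain ⟨c, V, v1, -, c0, c1, c2⟩ := hc (fun i => x ^ W ^ (i : ℕ)) D hD
    (fun i j => (Commute.pow_pow_self x _ _).eq) fun i => hl i (Nat.le_of_lt_succ i.2)
  have hT : ∀ g i, ∃ T : Finset ℕ, T.card ≤ F ∧ ∀ n, π (x ^ n * g) = i → n ∈ T := fun g i => by
    have : {n | π (x ^ n * g) = i}.Finite := by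
      by_contra e
      obtain ⟨T, t1, t2⟩ := Set.Infinite.exists_subset_card_eq e (F + 1)
      have := hF g i T t1
      omega
    exact ⟨this.toFinset, hF g i _ fun n hn => this.mem_toFinset.1 hn,
      fun n hn => this.mem_toFinset.2 hn⟩
  choose T t1 t2 using hT
  have hs : ∀ i, ∃ s : ℤ, ∀ (n : ℕ) (j : Fin (N + 1)), ∀ v ∈ V, π (x ^ (n + W ^ (j : ℕ)) * v) = i →
      (n + s) / (W : ℤ) ^ (j : ℕ) % W ≠ W - 1 := fun i => by
    obtain ⟨s, hs⟩ := dig_shift W (((Finset.univ ×ˢ V).biUnion fun z : Fin (N + 1) × G =>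
      T (x ^ W ^ (z.1 : ℕ) * z.2) i).image (↑)) (by
        refine lt_of_le_of_lt (Finset.card_image_le.trans (Finset.card_biUnion_le_card_mul _ _ F
          fun z _ => t1 _ _)) (lt_of_le_of_lt ?_ (not_le.1 hW))
        rw [Finset.card_product, Finset.card_univ, Fintype.card_fin]
        calc (N + 1) * V.card * F ≤ (N + 1) * (K * D ^ (N + 1)) * F := by gcongr
          _ = _ := by ring) (N + 1)
    exact ⟨s, fun n j v hv e => hs n (Finset.mem_image_of_mem _ (Finset.mem_biUnion.2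
      ⟨(j, v), Finset.mem_product.2 ⟨Finset.mem_univ _, hv⟩, t2 _ _ _
        (by rw [← e, pow_add, mul_assoc])⟩)) j j.2⟩
  choose s hs using hs
  have hW0 : (0 : ℤ) < W := by omega
  let a : ℕ → Fin (N + 1) → ι → ℝ := fun n i z =>
    -(((n + s z) / (W : ℤ) ^ (i : ℕ) % W : ℤ) : ℝ)
  have a0 : ∀ n i z, |a n i z| ≤ W := fun n i z => by
    rw [abs_neg, ← Int.cast_abs, abs_of_nonneg (Int.emod_nonneg _ hW0.ne')]
    exact_mod_cast (Int.emod_lt_of_pos _ hW0).le
  have ha : ∀ n (i j : Fin (N + 1)), ∀ z ∈ (fun g => π (x ^ (n + W ^ (j : ℕ)) * g)) '' V,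
      a n i z = a (n + W ^ (j : ℕ)) i z + if i = j then 1 else 0 := by
    rintro n i j _ ⟨v, hv, rfl⟩
    have e := dig_add W _ hW0 i j (hs _ n j v hv rfl)
    simp only [a, Nat.cast_add, Nat.cast_pow, Fin.ext_iff]
    rw [add_comm (n : ℤ) ((W : ℤ) ^ (j : ℕ)), add_assoc, e]
    simp
  let _ : LinearOrder ι := linearOrderOfSTO WellOrderingRel
  have : ∀ l : List ι, ∃ m : ι, (l ≠ [] → ∃ a ∈ l, m = id a) ∧ ∀ a ∈ l, m ≤ id a := fun l => by
    by_cases e : l = []
    · exact ⟨π 1, fun h => absurd e h, by simp [e]⟩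
    · obtain ⟨a, ha, h⟩ := l.toFinset.exists_min_image id
        (by simpa [Finset.nonempty_iff_ne_empty] using e)
      exact ⟨a, fun _ => ⟨a, List.mem_toFinset.1 ha, rfl⟩,
        fun b hb => h b (List.mem_toFinset.2 hb)⟩
  choose μ m1 m2 using this
  let Z : ℕ → ℕ → B ℝ G →ₗ[ℝ] B ℝ ι := fun m n => fI μ m ∘ₗ lmap fun g => π (x ^ n * g)
  have z1 : ∀ m n j y, Z m n (act ℝ G G (x ^ j) y) = Z m (n + j) y := fun m n j y => by
    refine congrArg (fI μ m) ?_
    induction y using Finsupp.induction_linear with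
    | zero => simp
    | add x y h1 h2 => simp only [map_add, h1, h2]
    | single l r =>
      rw [act_single]
      simp [Function.comp_def, pow_add, mul_assoc]
  have z2 : ∀ m n (l : List G), l.length = m →
      Z m n (single l 1) ∈ Inc ℝ m ((fun g => π (x ^ n * g)) '' {g | g ∈ l}) := fun m n l hl => by
    have := fI_inc (k := ℝ) id μ m1 m2 m ((fun g => π (x ^ n * g)) '' {g | g ∈ l})
      (single (l.map fun g => π (x ^ n * g)) 1) (single_mem_supported ℝ _
        ⟨by simp [hl], fun z hz => by simpa using hz⟩)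
    simpa [Z] using this
  have z3 : ∀ m n, ∀ y ∈ WS ℝ L m R V, Z m n y ∈ Sp ℝ ((fun g => π (x ^ n * g)) '' V) :=
    fun m n y hy => by
      refine sup_map (Z m n) _ (fun l hl => ?_) hy
      intro w hw z hz
      exact Set.image_mono hl.2.2 ((z2 m n l hl.1 hw).2.2 z hz)
  have z4 : ∀ m n, ∀ y ∈ gr ℝ G (m + 1), MP_f0c981_al.bd (Z (m + 1) n y) =
      Z m n (MP_f0c981_al.bd y) := fun m n y hy => by
    simp only [Z, LinearMap.comp_apply]
    rw [bd_fI id μ m1 m2 m _ (lmap_gr _ hy), bd_lmap]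
  have z5 : ∀ m, ∀ y ∈ gr ℝ G m, (fun n => Z m n y) ∈ BF ι m := fun m y hy =>
    BF_fI μ (BF_lmap _ hy)
  have key : ∀ J : List (Fin (N + 1)), J.length ≤ N + 1 → J.Nodup →
      (fun n => Ph (a n) J (Z (J.length + 1) n (c J)) - 1) ∈ Ng := by
    intro J hJ hn
    induction J with
    | nil =>
      convert Ng.zero_mem using 2 with n
      rw [Ph_nil, z4 _ _ _ (WS_gr L (c1 [] hJ)), c0]
      simp [Z, fI]
    | cons i J ih =>
      rw [List.length_cons] at hJ
      rw [List.nodup_cons] at hn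
      let Ψ : B ℝ G →ₗ[ℝ] ℕ → ℝ :=
        LinearMap.pi fun n => Ph (a n) J ∘ₗ Mh (a n i) ∘ₗ Z (J.length + 1) n
      have e0 : ∀ y n, Ψ y n = Ph (a n) J (Mh (a n i) (Z (J.length + 1) n y)) := fun _ _ => rfl
      have e1 : ∀ j : Fin (N + 1), ∀ y ∈ WS ℝ L (J.length + 1) R V, ∀ n,
          Ψ (act ℝ G G (x ^ W ^ (j : ℕ)) y - y) n = Ψ y (n + W ^ (j : ℕ)) - Ψ y n +
            (if i = j then 1 else 0) * Ph (a (n + W ^ (j : ℕ))) J
              (Z (J.length + 1) (n + W ^ (j : ℕ)) y) := fun j y hy n => by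
        have b1 := z3 _ (n + W ^ (j : ℕ)) y hy
        rw [map_sub, Pi.sub_apply, e0, e0 y (n + _), z1,
          Ph_shift _ _ (fun i' => ⟨_, ha n i' j⟩) J (Sp_Mh _ b1), Mh_shift _ _ _ (ha n i j) b1,
          map_add, map_smul, map_sub, Ph_single]
        simp only [smul_eq_mul]
        ring
      have e2 : ∀ y ∈ WS ℝ L (J.length + 1) R V, Ψ y ∈ Bs := fun y hy =>
        BF_Ph a W a0 J (BF_Mh (fun n => a n i) W (fun n => a0 n i) (z5 _ y (WS_gr L hy)))
      have e3 : Ψ (Dk (fun i : Fin (N + 1) => x ^ W ^ (i : ℕ)) J fun M => c (i :: M)) ∈ Ng :=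
        Dk_mem _ (Ng.comap Ψ) J _ fun j hj M hM => by
          have b1 := c1 (i :: M) (by simp only [List.length_cons]; omega)
          rw [List.length_cons, hM] at b1
          have b2 := ng_diff (e2 _ b1) (W ^ (j : ℕ))
          rw [Submodule.mem_comap]
          convert b2 using 2 with n
          rw [e1 j _ b1, if_neg fun e : i = j => hn.1 (e ▸ hj)]
          ring
      have b1 := c1 J (by omega)
      have e4 := add_mem (add_mem (ng_diff (e2 _ b1) (W ^ (i : ℕ)))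
        (ng_diff (BF_Ph a W a0 J (z5 _ _ (WS_gr L b1))) (W ^ (i : ℕ)))) (ih (by omega) hn.2)
      convert sub_mem e4 e3 using 2 with n
      have e5 := e1 i _ b1 n
      rw [Ph_cons, List.length_cons, z4 (J.length + 1) _ _ (WS_gr L (c1 (i :: J) hJ)),
        c2 _ (List.cons_ne_nil _ _) hJ, ← e0, Dk, map_sub, Pi.sub_apply, e5]
      simp only [Pi.add_apply, Pi.sub_apply, if_true]
      ring
  have hJ : (List.finRange (N + 1)).length = N + 1 := List.length_finRange
  have e1 := key _ hJ.le (List.nodup_finRange _)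
  have e2 : ∀ n, Z _ n (c (List.finRange (N + 1))) = 0 := fun n =>
    sup_map (Z _ n) ⊥ (fun l hl => by
      refine Finsupp.support_eq_empty.1 (Finset.eq_empty_of_forall_notMem fun w hw => ?_)
      obtain ⟨l1, l2, l3⟩ := z2 _ n l hl.1 hw
      obtain ⟨g, l', e⟩ := List.exists_cons_of_length_eq_add_one hl.1
      choose! f f1 f2 using l3
      have b1 : ∀ z ∈ w.toFinset, π (x ^ n * f z) = z := fun z hz => f2 z (List.mem_toFinset.1 hz)
      have := hd (x ^ n * g) (w.toFinset.image fun z => x ^ n * f z) (fun h hh => by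
        obtain ⟨z, hz, rfl⟩ := Finset.mem_image.1 hh
        simpa [mul_assoc] using hl.2.1 g (by simp [e]) _ (f1 z (List.mem_toFinset.1 hz)))
        (fun h hh h' hh' e' => by
          obtain ⟨z, hz, rfl⟩ := Finset.mem_image.1 hh
          obtain ⟨z', hz', rfl⟩ := Finset.mem_image.1 hh'
          rw [b1 z hz, b1 z' hz'] at e'
          rw [e'])
      rw [Finset.card_image_of_injOn fun z hz z' hz' e' => by
        rw [← b1 z hz, ← b1 z' hz']
        exact congrArg π e', List.toFinset_card_of_nodup (l2.imp ne_of_lt), l1, hJ] at this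
      omega) (c1 _ hJ.le)
  simp only [e2, map_zero, zero_sub] at e1
  exact one_notMem (by
    convert neg_mem e1 using 2
    simp)

end Pool.Agent.Lib.MP_2fb4be_al.Sol.K

namespace Pool.Agent.Lib.MP_2fb4be_al.Sol

open Filter

variable {G : Type} [Group G]

/-- passage to the limit of colourings -/
lemma lim_colour (x : G) (S : Finset G) (d F : ℕ)
    (h : ∀ M : ℕ, ∃ (ι : Type) (π : G → ι), (∀ g, ((fun s => π (g * s)) '' S).encard ≤ d) ∧
      ∀ g i, {n | n < M ∧ π (x ^ n * g) = i}.encard ≤ F) :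
    ∃ π : G → Set G, (∀ g (T : Finset G), (∀ h ∈ T, g⁻¹ * h ∈ S) → Set.InjOn π T → T.card ≤ d) ∧
      ∀ g i (T : Finset ℕ), (∀ n ∈ T, π (x ^ n * g) = i) → T.card ≤ F := by
  choose ι π h1 h2 using h
  let ρ : G → Set G := fun g => {h | ∀ᶠ M in hyperfilter ℕ, π M g = π M h}
  have hρ : ∀ g h, ρ g = ρ h ↔ ∀ᶠ M in hyperfilter ℕ, π M g = π M h := fun g h =>
    ⟨fun e => (e ▸ Eventually.of_forall fun _ => rfl : h ∈ ρ g), fun e => Set.ext fun z =>
      ⟨fun e' => (e.and e').mono fun _ a => a.1.symm.trans a.2,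
        fun e' => (e.and e').mono fun _ a => a.1.trans a.2⟩⟩
  refine ⟨ρ, fun g T a1 a2 => ?_, fun g i T a1 => ?_⟩
  · obtain ⟨M, hM⟩ := ((eventually_all_finset T).2 fun a ha => (eventually_all_finset T).2
      fun b hb => show ∀ᶠ M in hyperfilter ℕ, π M a = π M b → a = b by
        by_cases e : a = b
        · exact Eventually.of_forall fun _ _ => e
        · exact (Ultrafilter.eventually_not.2 fun e' => e (a2 ha hb ((hρ a b).2 e'))).mono
            fun _ e' e'' => absurd e'' e').exists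
    have b1 : π M '' T ⊆ (fun s => π M (g * s)) '' S := by
      rintro _ ⟨a, ha, rfl⟩
      exact ⟨_, a1 a ha, by simp⟩
    have b2 := (Set.encard_le_encard b1).trans (h1 M g)
    rw [Set.InjOn.encard_image fun a ha b hb => hM a ha b hb,
      Set.encard_coe_eq_coe_finsetCard] at b2
    exact_mod_cast b2
  · rcases T.eq_empty_or_nonempty with rfl | ⟨n0, hn0⟩
    · exact Nat.zero_le _
    obtain ⟨M, hM⟩ := ((eventually_all_finset T).2 fun n hn =>
      ((eventually_gt_atTop n).filter_mono Nat.hyperfilter_le_atTop).and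
        ((hρ _ _).1 ((a1 n hn).trans (a1 n0 hn0).symm))).exists
    have b2 := (Set.encard_le_encard (s := T) fun n hn => hM n hn).trans (h2 M g _)
    rw [Set.encard_coe_eq_coe_finsetCard] at b2
    exact_mod_cast b2

theorem shadow_dist (hG : Combable G) (x : G) (S : Finset G)
    (h : ∀ e : ℕ, ∀ᶠ n in atTop, ∃ w : List G, (∀ s ∈ w, s ∈ S) ∧ w.prod = x ^ n ∧
      w.length ^ e ≤ n) (d : ℕ) :
    ¬ ∀ S : Finset G, ∃ F : ℕ, ∀ M : ℕ, ∃ (ι : Type) (π : G → ι),
      (∀ g, ((fun s => π (g * s)) '' S).encard ≤ d) ∧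
      ∀ g i, {n | n < M ∧ π (x ^ n * g) = i}.encard ≤ F := by
  intro H
  obtain ⟨L, p, C, h0, h1, h2, h3⟩ := hG
  obtain ⟨R, K1, hK⟩ := K.coreS L p C h0 h1 h2 h3 d
  obtain ⟨F, hF⟩ := H (L.fin R).toFinset
  obtain ⟨π, p1, p2⟩ := lim_colour x _ d F hF
  replace hK := hK x _ π F (fun g T a1 a2 => (p1 g T
    (fun h hh => (L.fin R).mem_toFinset.2 (a1 h hh)) a2).trans d.le_succ) p2
  generalize F * K1 = K0 at hK
  obtain ⟨c, hw⟩ := len_word' L S
  obtain ⟨n0, hn⟩ := eventually_atTop.1 (h ((d + 2) * d + 1))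
  obtain ⟨b, hb⟩ : ∃ b, b = c + L.len x + 1 := ⟨_, rfl⟩
  obtain ⟨M, hM⟩ : ∃ M, M = K0 * b ^ (d + 1) + n0 + 1 := ⟨_, rfl⟩
  have hM1 : 1 ≤ M := by omega
  have := hK (M ^ (d + 2)) (b * M) (Nat.mul_pos (by omega) hM1) fun j hj => by
    rcases Nat.eq_zero_or_pos j with rfl | hj0
    · simp only [pow_zero, pow_one]
      exact le_trans (by omega) (Nat.le_mul_of_pos_right b hM1)
    · have e1 : M ≤ (M ^ (d + 2)) ^ j := by
        rw [← pow_mul]
        exact Nat.le_self_pow (by positivity) M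
      obtain ⟨w, w1, w2, w3⟩ := hn ((M ^ (d + 2)) ^ j) (le_trans (by omega) e1)
      have e2 : w.length ≤ M := by
        refine (Nat.pow_le_pow_iff_left (Nat.succ_ne_zero _)).1 (w3.trans ?_)
        rw [← pow_mul]
        exact Nat.pow_le_pow_right hM1 ((Nat.mul_le_mul_left _ hj).trans (Nat.le_succ _))
      rw [← w2]
      exact (hw w w1).trans (Nat.mul_le_mul (by omega) e2)
  rw [mul_pow, ← mul_assoc, pow_succ' M (d + 1)] at this
  have := Nat.le_of_mul_le_mul_right this (pow_pos hM1 _)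
  omega

theorem shadow_bs (hG : Combable G) (x y : G) (p q : ℤ) (hpq : |p| ≠ |q|)
    (h : y * x ^ p * y⁻¹ = x ^ q) (d : ℕ) :
    ¬ ∀ S : Finset G, ∃ F : ℕ, ∀ M : ℕ, ∃ (ι : Type) (π : G → ι),
      (∀ g, ((fun s => π (g * s)) '' S).encard ≤ d) ∧
      ∀ g i, {n | n < M ∧ π (x ^ n * g) = i}.encard ≤ F := by
  have : p.natAbs ≠ q.natAbs := fun e => hpq (by rw [Int.abs_eq_natAbs, e, Int.abs_eq_natAbs])
  rcases lt_or_gt_of_ne this with e | e
  · obtain ⟨S, hS⟩ := bs_short x y p q e h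
    exact shadow_dist hG x S hS d
  · obtain ⟨S, hS⟩ := bs_short x y⁻¹ q p e (by rw [← h]; group)
    exact shadow_dist hG x S hS d

/-- actions with Schreier graphs of finite asymptotic dimension -/
theorem shadow_action (hG : Combable G) (x y : G) (p q : ℤ) (hpq : |p| ≠ |q|)
    (h : y * x ^ p * y⁻¹ = x ^ q) (Γ : Type) [Group Γ] (ξ : Γ) (c : G → Γ)
    (h1 : ∀ g, c (x * g) = ξ * c g)
    (h2 : ∀ s, (Set.range fun g => (c g)⁻¹ * c (g * s)).Finite) (X : Type) [MulAction Γ X] (d : ℕ)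
    (hX : ∀ S : Finset Γ, ∃ (F : ℕ) (ι : Type) (π : X → ι), (∀ i, (π ⁻¹' {i}).encard ≤ F) ∧
      ∀ z, ((fun s : Γ => π (s • z)) '' S).encard ≤ d) :
    ∃ n, 0 < n ∧ ∀ z : X, ξ ^ n • z = z := by
  classical
  by_contra H
  refine shadow_bs hG x y p q hpq h d fun S => ?_
  obtain ⟨F, ι, π, p1, p2⟩ := hX ((S.biUnion fun s => (h2 s).toFinset).image (·⁻¹))
  refine ⟨F, fun M => ?_⟩
  push Not at H
  obtain ⟨z, hz⟩ := H M.factorial M.factorial_pos
  refine ⟨ι, fun g => π ((c g)⁻¹ • z),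
    fun g => le_trans (Set.encard_le_encard ?_) (p2 ((c g)⁻¹ • z)),
    fun g i => le_trans (Set.encard_le_encard_of_injOn (f := fun n => (c (x ^ n * g))⁻¹ • z)
      (fun n hn => hn.2) ?_) (p1 i)⟩
  · rintro _ ⟨s, hs, rfl⟩
    exact ⟨_, Finset.mem_image_of_mem _ (Finset.mem_biUnion.2
      ⟨s, hs, (h2 s).mem_toFinset.2 ⟨g, rfl⟩⟩), by simp [smul_smul]⟩
  · have key : ∀ n m, n < m → m < M → (c (x ^ n * g))⁻¹ • z ≠ (c (x ^ m * g))⁻¹ • z := by
      intro n m a1 a2 e
      obtain ⟨k, rfl⟩ := Nat.exists_eq_add_of_lt a1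
      obtain ⟨r, hr⟩ := Nat.dvd_factorial k.succ_pos (show k + 1 ≤ M by omega)
      have e1 : ξ ^ (k + 1) ∈ MulAction.stabilizer Γ z := by
        have hc : ∀ n g, c (x ^ n * g) = ξ ^ n * c g := K.c_pow ⟨x, ξ, c, h1, h2⟩
        rw [hc, hc, eq_inv_smul_iff, smul_smul] at e
        rwa [show ξ ^ (k + 1) = ξ ^ (n + k + 1) * c g * (ξ ^ n * c g)⁻¹ by group]
      exact hz (by rw [hr, pow_mul]; exact pow_mem e1 r)
    intro n hn m hm e
    rcases lt_trichotomy n m with a | a | a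
    · exact absurd e (key n m a hm.1)
    · exact a
    · exact absurd e.symm (key m n a hn.1)

end Pool.Agent.Lib.MP_2fb4be_al.Sol
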