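import Mathlib

/-!
A hierarchy of pairs (group, subset) in the style of Kropholler, with coefficients in a
commutative ring.
-/

set_option autoImplicit false

namespace Pool.Agent.Lib.MP_2fb4be_al

open CategoryTheory

/-- Finite asymptotic dimension: there is `d` such that for every finite set `S` the group has a
uniformly bounded cover with every translate `g S` meeting at most `d + 1` of its members. -/
def FinAsdim (K : Type) [Group K] : Prop :=
  ∃ d : ℕ, ∀ S : Finset K, ∃ 𝒰 : Set (Set K), (∀ g, ∃ U ∈ 𝒰, g ∈ U) ∧
    (∃ T : Finset K, ∀ U ∈ 𝒰, ∀ a ∈ U, ∀ b ∈ U, a⁻¹ * b ∈ T) ∧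
    ∀ g, {U ∈ 𝒰 | ∃ s ∈ S, g * s ∈ U}.encard ≤ d + 1

/-- `RH k` is the smallest class of pairs `(K, S)`, with `K` a group and `S` a subset of `K`, that
contains `(K, ∅)` for every group `K`, contains `(K, S)` whenever `K` has finite cohomological
dimension over `k`, or `k` has characteristic zero and `K` has finite asymptotic dimension,
contains `(K, S)` whenever the trivial module `k` has a resolution of finite length by
permutation modules of `K` such that `(P, S ∩ P)` lies in the class for every point stabiliser `P`,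
and contains `(K, S)` whenever `(H, S ∩ H)` lies in the class for all finitely generated subgroups
`H` of `K`. -/
inductive RH (k : Type) [CommRing k] : (K : Type) → [Group K] → Set K → Prop
  | base (K : Type) [Group K] : RH k K ∅
  | fd (K : Type) [Group K] (S : Set K) (P : ProjectiveResolution (Rep.trivial k K k)) (N : ℕ)
      (h : ∀ n, N < n → Limits.IsZero (P.complex.X n)) : RH k K S
  | asd (K : Type) [Group K] (S : Set K) (h0 : CharZero k) (h : FinAsdim K) : RH k K S
  | act (K : Type) [Group K] (S : Set K) (X : ℕ → Type) [∀ n, MulAction K (X n)]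
      (d : ∀ n, (X (n + 1) →₀ k) →ₗ[k] (X n →₀ k)) (ε : (X 0 →₀ k) →ₗ[k] k)
      (hd : ∀ n (g : K) c, d n (c.mapDomain (g • ·)) = (d n c).mapDomain (g • ·))
      (hε : ∀ (g : K) c, ε (c.mapDomain (g • ·)) = ε c)
      (h0 : Function.Surjective ε) (h1 : Function.Exact (d 0) ε)
      (h2 : ∀ n, Function.Exact (d (n + 1)) (d n))
      (N : ℕ) (hN : ∀ n, N < n → IsEmpty (X n))
      (hs : ∀ n (x : X n), RH k (MulAction.stabilizer K x) (Subtype.val ⁻¹' S)) : RH k K S
  | loc (K : Type) [Group K] (S : Set K)
      (h : ∀ H : Subgroup K, H.FG → RH k H (Subtype.val ⁻¹' S)) : RH k K S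

end Pool.Agent.Lib.MP_2fb4be_al
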