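import Pool.Agent.Lib.MP_2fb4be_al.FD.Hier
import Pool.Agent.Lib.MP_2fb4be_al.FD.RDefs

/-!
Complete cohomology relative to a family of subgroups, pulled back along a Lipschitz map that is
equivariant for one element.
-/

set_option autoImplicit false
set_option linter.unusedSectionVars false

noncomputable section

namespace Pool.Agent.Lib.MP_2fb4be_al.Sol.K

open Finsupp hiding cons
open Filter Pool.Agent.Lib.MP_f0c981_al

variable {k : Type} [CommRing k] {G Γ : Type} [Group G] [Group Γ]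
variable {D D' D1 D2 : Type} [AddCommGroup D] [Module k D] [AddCommGroup D'] [Module k D']
  [AddCommGroup D1] [Module k D1] [AddCommGroup D2] [Module k D2]

/-- A Lipschitz map that intertwines left multiplication by `x` and by `ξ`. -/
structure Dat (G Γ : Type) [Group G] [Group Γ] where
  x : G
  ξ : Γ
  c : G → Γ
  eqv : ∀ g, c (x * g) = ξ * c g
  lip : ∀ s, (Set.range fun g => (c g)⁻¹ * c (g * s)).Finite

lemma rho_rho (ρ : Representation k Γ D) (a b : Γ) (y : D) : ρ a (ρ b y) = ρ (a * b) y := by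
  rw [map_mul]; rfl

lemma rho_inv (ρ : Representation k Γ D) (a : Γ) (y : D) : ρ a (ρ a⁻¹ y) = y := by
  rw [rho_rho, mul_inv_cancel, map_one]; rfl

variable (P : Dat G Γ)

/-- Bounded equivariant functions. -/
def TS (ρ : Representation k Γ D) : Submodule k (G → D) where
  carrier := {F | (∀ h, F (P.x * h) = ρ P.ξ (F h)) ∧
    (Set.range fun h => ρ (P.c h)⁻¹ (F h)).Finite}
  zero_mem' := ⟨fun h => by simp, (Set.finite_singleton 0).subset (by rintro _ ⟨h, rfl⟩; simp)⟩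
  add_mem' := fun {F F'} a b => ⟨fun h => by simp [a.1, b.1],
    (a.2.image2 (· + ·) b.2).subset (by
      rintro _ ⟨h, rfl⟩
      exact ⟨_, ⟨h, rfl⟩, _, ⟨h, rfl⟩, by simp⟩)⟩
  smul_mem' := fun r F a => ⟨fun h => by simp [a.1], (a.2.image (r • ·)).subset (by
      rintro _ ⟨h, rfl⟩
      exact ⟨_, ⟨h, rfl⟩, by simp⟩)⟩

/-- Composition with an equivariant map. -/
def TM (ρ : Representation k Γ D) (ρ' : Representation k Γ D') (π : D →ₗ[k] D')
    (hπ : ∀ γ y, π (ρ γ y) = ρ' γ (π y)) : TS P ρ →ₗ[k] TS P ρ' where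
  toFun F := ⟨fun h => π (F.1 h), fun h => (congrArg π (F.2.1 h)).trans (hπ _ _), (F.2.2.image π).subset (by
    rintro _ ⟨h, rfl⟩
    exact ⟨_, ⟨h, rfl⟩, hπ _ _⟩)⟩
  map_add' F F' := Subtype.ext (funext fun h => map_add π _ _)
  map_smul' r F := Subtype.ext (funext fun h => map_smul π _ _)

@[simp] lemma TM_apply (ρ : Representation k Γ D) (ρ' : Representation k Γ D') (π : D →ₗ[k] D')
    (hπ : ∀ γ y, π (ρ γ y) = ρ' γ (π y)) (F : TS P ρ) (h : G) :
    (TM P ρ ρ' π hπ F).1 h = π (F.1 h) := rfl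

/-- Maps that are equivariant up to finitely many errors. -/
def Bdd (ρ : Representation k Γ D) (ρ' : Representation k Γ D') (π : D →ₗ[k] D') : Prop :=
  ∀ y, (Set.range fun γ => ρ' γ⁻¹ (π (ρ γ y))).Finite

lemma bdd_of_eqv {ρ : Representation k Γ D} {ρ' : Representation k Γ D'} {π : D →ₗ[k] D'}
    (hπ : ∀ γ y, π (ρ γ y) = ρ' γ (π y)) : Bdd ρ ρ' π := fun y =>
  (Set.finite_singleton (π y)).subset (by
    rintro _ ⟨γ, rfl⟩
    simp only [hπ, rho_rho, inv_mul_cancel, map_one, Module.End.one_apply, Set.mem_singleton_iff])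

lemma bdd_of_single {Y : Type} {ρ : Representation k Γ (Y →₀ D)} {ρ' : Representation k Γ D'}
    {π : (Y →₀ D) →ₗ[k] D'}
    (h : ∀ z b, (Set.range fun γ => ρ' γ⁻¹ (π (ρ γ (single z b)))).Finite) : Bdd ρ ρ' π := by
  intro y
  induction y using Finsupp.induction_linear with
  | zero => exact (Set.finite_singleton 0).subset (by rintro _ ⟨γ, rfl⟩; simp)
  | add x y a b =>
    exact (a.image2 (· + ·) b).subset (by
      rintro _ ⟨γ, rfl⟩
      exact ⟨_, ⟨γ, rfl⟩, _, ⟨γ, rfl⟩, by simp⟩)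
  | single z b => exact h z b

lemma Bdd.sub {ρ : Representation k Γ D} {ρ' : Representation k Γ D'} {π π' : D →ₗ[k] D'}
    (h : Bdd ρ ρ' π) (h' : Bdd ρ ρ' π') : Bdd ρ ρ' (π - π') := fun y =>
  ((h y).image2 (· - ·) (h' y)).subset (by
    rintro _ ⟨γ, rfl⟩
    exact ⟨_, ⟨γ, rfl⟩, _, ⟨γ, rfl⟩, by simp⟩)

lemma Bdd.comp {ρ : Representation k Γ D} {ρ' : Representation k Γ D'}
    {ρ1 : Representation k Γ D1} {π : D →ₗ[k] D'} {π' : D' →ₗ[k] D1}
    (h' : Bdd ρ' ρ1 π') (h : Bdd ρ ρ' π) : Bdd ρ ρ1 (π' ∘ₗ π) := fun y =>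
  ((h y).biUnion fun z _ => h' z).subset (by
    rintro _ ⟨γ, rfl⟩
    exact Set.mem_iUnion₂.2 ⟨_, ⟨γ, rfl⟩, γ, by simp only [rho_inv, LinearMap.comp_apply]⟩)

/-- Composition with a bounded map. -/
def TB (ρ : Representation k Γ D) (ρ' : Representation k Γ D') (π : D →ₗ[k] D')
    (h1 : ∀ y, π (ρ P.ξ y) = ρ' P.ξ (π y)) (h2 : Bdd ρ ρ' π) : TS P ρ →ₗ[k] TS P ρ' where
  toFun F := ⟨fun h => π (F.1 h), fun h => (congrArg π (F.2.1 h)).trans (h1 _),
    (F.2.2.biUnion fun z _ => h2 z).subset (by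
      rintro _ ⟨h, rfl⟩
      exact Set.mem_iUnion₂.2 ⟨_, ⟨h, rfl⟩, P.c h, by simp only [rho_inv]⟩)⟩
  map_add' F F' := Subtype.ext (funext fun h => map_add π _ _)
  map_smul' r F := Subtype.ext (funext fun h => map_smul π _ _)

/-- Right translation. -/
def TR (ρ : Representation k Γ D) : Representation k G (TS P ρ) where
  toFun γ :=
    { toFun := fun F => ⟨fun h => F.1 (h * γ), fun h => (congrArg F.1 (mul_assoc _ _ _)).trans (F.2.1 _),
        (((P.lip γ).image2 (fun a y => ρ a y) F.2.2).subset (by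
          rintro _ ⟨h, rfl⟩
          refine ⟨_, ⟨h, rfl⟩, _, ⟨h * γ, rfl⟩, ?_⟩
          simp only [rho_rho, mul_inv_cancel_right]))⟩
      map_add' := fun _ _ => rfl
      map_smul' := fun _ _ => rfl }
  map_one' := LinearMap.ext fun F => Subtype.ext (funext fun h => congrArg F.1 (mul_one h))
  map_mul' a b := LinearMap.ext fun F => Subtype.ext
    (funext fun h => congrArg F.1 (mul_assoc h a b).symm)

@[simp] lemma TR_apply (ρ : Representation k Γ D) (γ : G) (F : TS P ρ) (h : G) :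
    (TR P ρ γ F).1 h = F.1 (h * γ) := rfl

/-- The pulled back differential module. -/
def TD (E : DM k Γ D) : DM k G (TS P E.ρ) where
  ρ := TR P E.ρ
  d := TM P E.ρ E.ρ E.d E.ρ_d
  ρ_d := fun _ _ => rfl
  dd := fun F => Subtype.ext (funext fun h => E.dd (F.1 h))

lemma T_lift (ρ : Representation k Γ D) (ρ' : Representation k Γ D') (π : D →ₗ[k] D')
    (hπ : ∀ γ y, π (ρ γ y) = ρ' γ (π y)) (F' : TS P ρ') (h : ∀ g, ∃ y, π y = F'.1 g) :
    ∃ F, TM P ρ ρ' π hπ F = F' := by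
  have : ∀ y : D', ∃ z, (∃ w, π w = y) → π z = y := fun y => by
    by_cases e : ∃ w, π w = y
    · exact ⟨e.choose, fun _ => e.choose_spec⟩
    · exact ⟨0, fun e' => absurd e' e⟩
  choose σ hσ using this
  refine ⟨⟨fun g => ρ (P.c g) (σ (ρ' (P.c g)⁻¹ (F'.1 g))), fun g => ?_,
    (F'.2.2.image σ).subset ?_⟩, Subtype.ext (funext fun g => ?_)⟩
  · beta_reduce
    rw [F'.2.1, P.eqv, rho_rho, rho_rho, mul_inv_rev, inv_mul_cancel_right]
  · rintro _ ⟨g, rfl⟩
    refine ⟨_, ⟨g, rfl⟩, ?_⟩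
    simp only [rho_rho, inv_mul_cancel, map_one, Module.End.one_apply]
  · obtain ⟨y, hy⟩ := h g
    rw [TM_apply, hπ, hσ _ ⟨ρ (P.c g)⁻¹ y, by rw [hπ, hy]⟩, rho_inv]

lemma T_mor {E : DM k Γ D} {E' : DM k Γ D'} {π : D →ₗ[k] D'} (h : Mor E E' π) :
    Mor (TD P E) (TD P E') (TM P E.ρ E'.ρ π h.ρ) :=
  ⟨fun _ _ => rfl, fun F => Subtype.ext (funext fun g => h.d (F.1 g))⟩

lemma T_ex {E : DM k Γ D} (h : E.Ex) : (TD P E).Ex := fun F hF =>
  T_lift P E.ρ E.ρ E.d E.ρ_d F fun g => h _ (congrFun (congrArg Subtype.val hF) g)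

/-- Vanishing after pulling back. -/
def NT (E : DM k Γ D) : Prop := Null (TD P E)

variable [IsDomain k] {P}

lemma nt_free (E : DM k Γ D) (s : D →ₗ[k] D) (h1 : ∀ γ x, s (E.ρ γ x) = E.ρ γ (s x))
    (h2 : ∀ x, x = E.d (s x) + s (E.d x)) : NT P E :=
  null_free _ (TM P E.ρ E.ρ s h1) (fun _ _ => rfl)
    fun F => Subtype.ext (funext fun g => h2 (F.1 g))

lemma nt_two (E : DM k Γ D) (E1 : DM k Γ D1) (E2 : DM k Γ D2) (p1 : D →ₗ[k] D1)
    (p2 : D →ₗ[k] D2) (i1 : D1 →ₗ[k] D) (i2 : D2 →ₗ[k] D) (hp1 : Mor E E1 p1) (hp2 : Mor E E2 p2)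
    (hi1 : Mor E1 E i1) (hi2 : Mor E2 E i2)
    (h : ∀ x, i1 (p1 x) + i2 (p2 x) = x) (n1 : NT P E1) (n2 : NT P E2) : NT P E :=
  null_two _ _ _ _ _ _ _ (T_mor P hp1) (T_mor P hp2) (T_mor P hi1) (T_mor P hi2) 1 one_ne_zero
    (fun F => by
      rw [one_smul]
      exact Subtype.ext (funext fun g => h (F.1 g))) n1 n2

lemma nt_retract (E : DM k Γ D) (E1 : DM k Γ D1) (p : D →ₗ[k] D1) (i : D1 →ₗ[k] D)
    (hp : Mor E E1 p) (hi : Mor E1 E i) (h : ∀ x, i (p x) = x) (n1 : NT P E1) : NT P E :=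
  nt_two E E1 E1 p p i 0 hp hp hi ⟨by simp, by simp⟩ (by simp [h]) n1 n1

lemma nt_coker (E1 : DM k Γ D1) (E : DM k Γ D) (E' : DM k Γ D') (π : D →ₗ[k] D')
    (ι : D1 →ₗ[k] D) (hπ : Mor E E' π) (hι : Mor E1 E ι) (hs : Function.Surjective π)
    (hi : Function.Injective ι) (h1 : ∀ x, π (ι x) = 0)
    (h2 : ∀ x, π x = 0 → x ∈ LinearMap.range ι) (hE1 : NT P E1) (hE : NT P E) : NT P E' :=
  null_coker _ _ _ _ _ (T_mor P hπ) (T_mor P hι) (fun F => T_lift P _ _ _ _ F fun _ => hs _)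
    (fun _ _ e => Subtype.ext (funext fun g => hi (congrFun (congrArg Subtype.val e) g)))
    (fun F => Subtype.ext (funext fun g => h1 (F.1 g)))
    (fun F e => T_lift P _ _ _ _ F fun g => h2 _ (congrFun (congrArg Subtype.val e) g)) hE1 hE

lemma nt_colim (hG : FinType k G) (E0 : DM k Γ D) (E : DM k Γ D') (π : D →ₗ[k] D')
    (hπ : Mor E0 E π) (hs : Function.Surjective π) (hE : E.Ex) {I : Type} (M : I → Type)
    [∀ i, AddCommGroup (M i)] [∀ i, Module k (M i)] (F : ∀ i, DM k Γ (M i))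
    (p : ∀ i, D →ₗ[k] M i) (q : ∀ i, M i →ₗ[k] D') (hp : ∀ i, Mor E0 (F i) (p i))
    (hq : ∀ i, Mor (F i) E (q i)) (hpq : ∀ i x, q i (p i x) = π x) (hF : ∀ i, (F i).Ex)
    (hN : ∀ i, NT P (F i))
    (hX : ∀ X : Set D, X.Finite → (∀ x ∈ X, π x = 0) → ∃ i, ∀ x ∈ X, p i x = 0) : NT P E := by
  refine null_colim hG (TD P E0) _ _ (T_mor P hπ) (fun F => T_lift P _ _ _ _ F fun _ => hs _)
    (T_ex P hE) (fun i => TS P (F i).ρ) (fun i => TD P (F i)) _ _ (fun i => T_mor P (hp i))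
    (fun i => T_mor P (hq i)) (fun i x => Subtype.ext (funext fun g => hpq i (x.1 g)))
    (fun i => T_ex P (hF i)) hN fun X h1 h2 => ?_
  obtain ⟨i, hi⟩ := hX (⋃ f ∈ X, Set.range fun h => E0.ρ (P.c h)⁻¹ (f.1 h))
    (h1.biUnion fun f _ => f.2.2) (by
      intro y hy
      simp only [Set.mem_iUnion] at hy
      obtain ⟨f, hf, g, rfl⟩ := hy
      have : π (f.1 g) = 0 := congrFun (congrArg Subtype.val (h2 f hf)) g
      rw [hπ.ρ, this, map_zero])
  refine ⟨i, fun f hf => Subtype.ext (funext fun g => ?_)⟩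
  have := hi _ (Set.mem_iUnion₂.2 ⟨f, hf, g, rfl⟩)
  change p i (f.1 g) = 0
  rw [← rho_inv E0.ρ (P.c g) (f.1 g), (hp i).ρ, this, map_zero]

lemma nt_res (N : ℕ) : ∀ (M : ℕ → Type) [∀ n, AddCommGroup (M n)] [∀ n, Module k (M n)]
    (E : ∀ n, DM k Γ (M n)) (d : ∀ n, M (n + 1) →ₗ[k] M n) (D' : Type) [AddCommGroup D']
    [Module k D'] (E' : DM k Γ D') (π : M 0 →ₗ[k] D') (h1 : ∀ n, Mor (E (n + 1)) (E n) (d n)),
    Mor (E 0) E' π → Function.Surjective π → Function.Exact (d 0) π →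
    (∀ n, Function.Exact (d (n + 1)) (d n)) → (∀ n, NT P (E n)) →
    NT P ((E N).quot (E (N + 1)) (d N) (h1 N)) → NT P E' := by
  induction N with
  | zero =>
    intro M _ _ E d D' _ _ E' π h1 h2 h3 h4 _ _ h7
    obtain ⟨p, hp⟩ : ∃ p : D' →ₗ[k] M 0 ⧸ LinearMap.range (d 0),
        ∀ y, p (π y) = Submodule.Quotient.mk y :=
      ⟨(LinearMap.ker π).liftQ (Submodule.mkQ _) (by
          rw [Submodule.ker_mkQ, h4.linearMap_ker_eq]) ∘ₗ
        (π.quotKerEquivOfSurjective h3).symm.toLinearMap, fun y => by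
        have : (π.quotKerEquivOfSurjective h3).symm (π y) = Submodule.Quotient.mk y :=
          (LinearEquiv.symm_apply_eq _).2 rfl
        simp [this]⟩
    refine nt_retract E' _ p (Submodule.liftQ _ π h4.linearMap_ker_eq.ge)
      ⟨fun γ x => ?_, fun x => ?_⟩ ⟨fun γ x => ?_, fun x => ?_⟩ (fun x => ?_) h7
    · obtain ⟨y, rfl⟩ := h3 x
      rw [← h2.ρ, hp, hp]
      rfl
    · obtain ⟨y, rfl⟩ := h3 x
      rw [← h2.d, hp, hp]
      rfl
    · induction x using Submodule.Quotient.induction_on with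
      | H x => exact h2.ρ γ x
    · induction x using Submodule.Quotient.induction_on with
      | H x => exact h2.d x
    · obtain ⟨y, rfl⟩ := h3 x
      rw [hp]
      rfl
  | succ N ih =>
    intro M _ _ E d D' _ _ E' π h1 h2 h3 h4 h5 h6 h7
    have hz := ih (fun n => M (n + 1)) (fun n => E (n + 1)) (fun n => d (n + 1)) _
      ((E 1).quot (E 2) (d 1) (h1 1)) (Submodule.mkQ _) (fun n => h1 (n + 1))
      ⟨fun _ _ => rfl, fun _ => rfl⟩ (Submodule.mkQ_surjective _)
      (LinearMap.exact_map_mkQ_range _) (fun n => h5 (n + 1)) (fun n => h6 (n + 1)) h7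
    have hk := (h5 0).linearMap_ker_eq
    refine nt_coker _ (E 0) E' π (Submodule.liftQ _ (d 0) hk.ge) h2 ⟨fun γ x => ?_, fun x => ?_⟩
      h3 (LinearMap.ker_eq_bot.1 (Submodule.ker_liftQ_eq_bot _ _ _ hk.le)) (fun x => ?_)
      (fun x hx => ?_) hz (h6 0)
    · induction x using Submodule.Quotient.induction_on with
      | H x => exact (h1 0).ρ γ x
    · induction x using Submodule.Quotient.induction_on with
      | H x => exact (h1 0).d x
    · induction x using Submodule.Quotient.induction_on with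
      | H x => exact h4.apply_apply_eq_zero x
    · obtain ⟨y, rfl⟩ := (h4 x).1 hx
      exact ⟨Submodule.Quotient.mk y, rfl⟩

lemma nt_quot (hG : FinType k G) (E : DM k Γ D) (E1 : DM k Γ D1) (f : D1 →ₗ[k] D)
    (hf : Mor E1 E f) (e0 : E.Ex) (e1 : (E.quot E1 f hf).Ex) (hE : NT P E)
    (h : ∀ X : Set D1, X.Finite → ∃ σ : D →ₗ[k] D1, (∀ y, σ (E.ρ P.ξ y) = E1.ρ P.ξ (σ y)) ∧
      Bdd E.ρ E1.ρ σ ∧ (∀ y, σ (E.d y) = E1.d (σ y)) ∧
      ∀ γ, ∀ w ∈ X, f (σ (f (E1.ρ γ w))) = f (E1.ρ γ w)) : NT P (E.quot E1 f hf) := by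
  choose σ s1 s2 s3 s4 using fun X : {X : Set D1 // X.Finite} => h X.1 X.2
  have hπ : Mor E (E.quot E1 f hf) (Submodule.mkQ _) := ⟨fun _ _ => rfl, fun _ => rfl⟩
  refine null_colim hG (TD P E) _ _ (T_mor P hπ)
    (fun F => T_lift P _ _ _ _ F fun _ => Submodule.mkQ_surjective _ _) (T_ex P e1)
    (fun _ => TS P E.ρ) (fun _ => TD P E)
    (fun X => TB P E.ρ E.ρ (LinearMap.id - f ∘ₗ σ X) (fun y => by simp [s1, hf.ρ])
      ((bdd_of_eqv fun _ _ => rfl).sub ((bdd_of_eqv hf.ρ).comp (s2 X))))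
    (fun _ => TM P _ _ _ hπ.ρ) (fun X => ⟨fun _ _ => rfl, fun F => Subtype.ext (funext fun g => ?_)⟩)
    (fun _ => T_mor P hπ) (fun X F => Subtype.ext (funext fun g => ?_))
    (fun _ => T_ex P e0) (fun _ => hE) fun X h1 h2 => ?_
  · change E.d (F.1 g) - f (σ X (E.d (F.1 g))) = E.d (F.1 g - f (σ X (F.1 g)))
    rw [map_sub, s3, hf.d]
  · exact (Submodule.Quotient.eq _).2 ⟨-σ X (F.1 g), by
      change _ = F.1 g - f (σ X (F.1 g)) - F.1 g
      simp⟩
  · have h3 : ∀ y : D, ∃ w, y ∈ LinearMap.range f → f w = y := fun y => by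
      by_cases e : y ∈ LinearMap.range f
      · exact ⟨e.choose, fun _ => e.choose_spec⟩
      · exact ⟨0, fun e' => absurd e' e⟩
    choose τ hτ using h3
    refine ⟨⟨τ '' ⋃ F ∈ X, Set.range fun h => E.ρ (P.c h)⁻¹ (F.1 h),
      (h1.biUnion fun F _ => F.2.2).image τ⟩, fun F hF => Subtype.ext (funext fun g => ?_)⟩
    obtain ⟨w, hw⟩ := (Submodule.Quotient.mk_eq_zero _).1
      (congrFun (congrArg Subtype.val (h2 F hF)) g)
    have e := s4 ⟨_, (h1.biUnion fun F _ => F.2.2).image τ⟩ (P.c g) _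
      ⟨_, Set.mem_iUnion₂.2 ⟨F, hF, g, rfl⟩, rfl⟩
    rw [hf.ρ, hτ _ ⟨E1.ρ (P.c g)⁻¹ w, by rw [hf.ρ, hw]⟩, rho_inv] at e
    exact sub_eq_zero.2 e.symm

lemma nt_sum (E : DM k Γ D) (Y Y' : Type) [MulAction Γ Y] [MulAction Γ Y']
    (h : NT P (DY E Y)) (h' : NT P (DY E Y')) : NT P (DY E (Y ⊕ Y')) := by
  refine nt_two _ _ _ (lsum k (Sum.elim lsingle 0)) (lsum k (Sum.elim 0 lsingle))
    (lmapDomain _ k Sum.inl) (lmapDomain _ k Sum.inr)
    (mor_of_single E _ (fun γ y b => ?_) fun y b => ?_)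
    (mor_of_single E _ (fun γ y b => ?_) fun y b => ?_)
    (mor_map E _ fun _ _ => rfl) (mor_map E _ fun _ _ => rfl) (fun x => ?_) h h'
  · cases y <;> simp
  · cases y <;> simp
  · cases y <;> simp
  · cases y <;> simp
  · induction x using Finsupp.induction_linear with
    | zero => simp
    | add x y a b => simp only [map_add]; rw [add_add_add_comm, a, b]
    | single y b => cases y <;> simp

lemma nt_sec (E : DM k Γ D) {Y Y' : Type} [MulAction Γ Y] [MulAction Γ Y'] (p : Y → Y')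
    (q : Y' → Y) (hp : ∀ (γ : Γ) y, p (γ • y) = γ • p y) (hq : ∀ (γ : Γ) y, q (γ • y) = γ • q y)
    (h : ∀ y, q (p y) = y) (hN : NT P (DY E Y')) : NT P (DY E Y) :=
  nt_retract _ _ (lmapDomain _ k p) (lmapDomain _ k q) (mor_map _ _ hp) (mor_map _ _ hq)
    (fun _ => mapDomain_comp.symm.trans
      ((congrArg (mapDomain · _) (funext h)).trans mapDomain_id)) hN

lemma nt_conj (E : DM k Γ D) (H H' : Subgroup Γ) (g : Γ) (h : ∀ a, a ∈ H' ↔ g⁻¹ * a * g ∈ H)
    (hN : NT P (DY E (Γ ⧸ H))) : NT P (DY E (Γ ⧸ H')) := by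
  refine nt_sec E (Y' := Γ ⧸ H) (Quotient.map' (· * g) fun a b hab => ?_)
    (Quotient.map' (· * g⁻¹) fun a b hab => ?_) (fun γ y => ?_) (fun γ y => ?_) (fun y => ?_) hN
  · rw [QuotientGroup.leftRel_apply] at hab ⊢
    simpa [mul_assoc] using (h _).1 hab
  · rw [QuotientGroup.leftRel_apply] at hab ⊢
    rw [h]
    simpa [mul_assoc] using hab
  · induction y using QuotientGroup.induction_on with
    | H a => exact congrArg (fun b : Γ => (b : Γ ⧸ H)) (mul_assoc γ a g)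
  · induction y using QuotientGroup.induction_on with
    | H a => exact congrArg (fun b : Γ => (b : Γ ⧸ H')) (mul_assoc γ a g⁻¹)
  · induction y using QuotientGroup.induction_on with
    | H a => exact congrArg (fun b : Γ => (b : Γ ⧸ H')) (mul_inv_cancel_right a g)

/-- The bar complex of a set with an action, as a differential module. -/
def barZ (k Γ Z : Type) [CommRing k] [Group Γ] [MulAction Γ Z] : DM k Γ (B k Z) where
  ρ := act k Γ Z
  d := bd
  ρ_d := fun _ x => bd_lmap _ x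
  dd := bd_bd

section asdim

omit [IsDomain k]

variable {K : Type}

open Classical in
/-- The normalised cone. -/
def ncons (a : K) : B k K →ₗ[k] B k K :=
  linearCombination k fun l => if l.head? = some a then 0 else single (a :: l) 1

lemma ncons_eq (a : K) {V : Set K} (ha : a ∉ V) {y : B k K} (hy : y ∈ Sp k V) :
    ncons a y = cons a y := by
  have := sup_map (ncons a - cons a) ⊥ (fun l hl => ?_) hy
  · exact sub_eq_zero.1 this
  · have : l.head? ≠ some a := fun e => ha (hl a (List.mem_of_head? e))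
    simp [ncons, this]

lemma ncons_cons (a : K) (y : B k K) : ncons a (cons a y) = 0 := by
  induction y using Finsupp.induction_linear with
  | zero => simp
  | add x y h1 h2 => simp only [map_add, h1, h2, add_zero]
  | single l r => simp [ncons]

variable [LinearOrder K]

/-- Chains on strictly increasing lists. -/
def Inc (k : Type) [CommRing k] (n : ℕ) (V : Set K) : Submodule k (B k K) :=
  supported k k {l | l.length = n ∧ l.Pairwise (· < ·) ∧ ∀ x ∈ l, x ∈ V}

lemma bd_ncons (a : K) {n : ℕ} {V : Set K} (ha : ∀ v ∈ V, a ≤ v) {y : B k K}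
    (hy : y ∈ Inc k n V) : bd (ncons a y) + ncons a (bd y) = y := by
  have := sup_map (bd ∘ₗ ncons a + ncons a ∘ₗ bd - LinearMap.id) ⊥ (fun l hl => ?_) hy
  · exact sub_eq_zero.1 this
  · rw [Submodule.mem_bot, LinearMap.sub_apply, sub_eq_zero]
    change bd (ncons a (single l (1 : k))) + ncons a (bd (single l (1 : k))) = single l 1
    have key : ∀ w : List K, a ∉ w → (single w 1 : B k K) ∈ Sp k {z | z ∈ w} := fun w _ =>
      single_mem_supported k _ fun _ h => h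
    by_cases e : a ∈ l
    · obtain ⟨b, w, rfl⟩ := List.exists_cons_of_ne_nil (List.ne_nil_of_mem e)
      have h1 := (List.pairwise_cons.1 hl.2.1).1
      have h2 : a ∉ w := fun h => absurd (h1 a h) (not_lt.2 (ha b (hl.2.2 b List.mem_cons_self)))
      obtain rfl : a = b := (List.mem_cons.1 e).resolve_right h2
      rw [← cons_single, ncons_cons, bd_cons, map_sub, ncons_cons, ncons_eq a h2 (key w h2)]
      simp
    · rw [ncons_eq a e (key l e), ncons_eq a e (Sp_bd (key l e)), bd_cons, sub_add_cancel]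

lemma ncons_inc (a : K) {n : ℕ} {V : Set K} (ha : ∀ v ∈ V, a ≤ v) (ha' : a ∈ V) {y : B k K}
    (hy : y ∈ Inc k n V) : ncons a y ∈ Inc k (n + 1) V := by
  refine sup_map (ncons a) _ (fun l hl => ?_) hy
  simp only [ncons, linearCombination_single, one_smul]
  split_ifs with e
  · exact zero_mem _
  · refine single_mem_supported k _ ⟨by simp [hl.1], List.pairwise_cons.2 ⟨fun b hb => ?_, hl.2.1⟩,
      fun x hx => (List.mem_cons.1 hx).elim (fun e => e ▸ ha') (hl.2.2 x)⟩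
    obtain ⟨c, w, rfl⟩ := List.exists_cons_of_ne_nil (List.ne_nil_of_mem hb)
    have h1 : a < c := lt_of_le_of_ne (ha c (hl.2.2 c List.mem_cons_self)) fun e' => e (by simp [e'])
    rcases List.mem_cons.1 hb with rfl | hb
    · exact h1
    · exact h1.trans ((List.pairwise_cons.1 hl.2.1).1 b hb)

/-- The chain map to increasing lists. -/
def fI (μ : List K → K) : ℕ → B k K →ₗ[k] B k K
  | 0 => LinearMap.id
  | n + 1 => linearCombination k fun l => ncons (μ l) (fI μ n (bd (single l 1)))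

lemma fI_single (μ : List K → K) (n : ℕ) (l : List K) :
    fI μ (n + 1) (single l (1 : k)) = ncons (μ l) (fI μ n (bd (single l 1))) := by
  simp [fI]

/-- Chains of given length with vertices in a set. -/
def GS (k : Type) [CommRing k] (n : ℕ) (V : Set K) : Submodule k (B k K) :=
  supported k k {l | l.length = n ∧ ∀ x ∈ l, x ∈ V}

omit [LinearOrder K] in
lemma GS_bd {n : ℕ} {l : List K} (hl : l.length = n + 1) :
    bd (single l (1 : k)) ∈ GS k n {x | x ∈ l} := by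
  have h1 : bd (single l (1 : k)) ∈ Sp k {x | x ∈ l} :=
    Sp_bd (single_mem_supported k _ fun _ h => h)
  have h2 : bd (single l (1 : k)) ∈ supported k k {w : List K | w.length = n} :=
    gr_map LinearMap.id (supported k k {w : List K | w.length = n})
      (fun w hw => single_mem_supported k (s := {w : List K | w.length = n}) _ hw)
      (bd_gr (single_mem_gr hl (1 : k)))
  exact fun w hw => ⟨h2 hw, h1 hw⟩

lemma fI_inc (π : K → K) (μ : List K → K) (h1 : ∀ l, l ≠ [] → ∃ a ∈ l, μ l = π a)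
    (h2 : ∀ l, ∀ a ∈ l, μ l ≤ π a) (n : ℕ) (V : Set K) :
    ∀ y ∈ GS k n V, fI μ n y ∈ Inc k n (π '' V) := by
  induction n generalizing V with
  | zero =>
    intro y hy w hw
    obtain rfl : w = [] := List.length_eq_zero_iff.1 (hy hw).1
    exact ⟨rfl, List.Pairwise.nil, by simp⟩
  | succ n ih =>
    intro y hy
    refine sup_map _ _ (fun l hl => ?_) hy
    rw [fI_single]
    obtain ⟨a, ha, e⟩ := h1 l (ne_nil_of_length hl.1)
    have := ncons_inc (μ l) (V := π '' {x | x ∈ l}) (by rintro _ ⟨b, hb, rfl⟩; exact h2 l b hb)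
      ⟨a, ha, e.symm⟩ (ih _ _ (GS_bd hl.1))
    exact fun w hw => ⟨(this hw).1, (this hw).2.1, fun x hx =>
      Set.image_mono hl.2 ((this hw).2.2 x hx)⟩

lemma bd_fI (π : K → K) (μ : List K → K) (h1 : ∀ l, l ≠ [] → ∃ a ∈ l, μ l = π a)
    (h2 : ∀ l, ∀ a ∈ l, μ l ≤ π a) (n : ℕ) :
    ∀ y ∈ gr k K (n + 1), bd (fI μ (n + 1) y) = fI μ n (bd y) := by
  have key : ∀ n (l : List K), l.length = n + 1 → bd (fI μ n (bd (single l (1 : k)))) = 0 →
      bd (fI μ (n + 1) (single l (1 : k))) = fI μ n (bd (single l 1)) := fun n l hl e => by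
    have := bd_ncons (μ l) (V := π '' {x | x ∈ l}) (by rintro _ ⟨b, hb, rfl⟩; exact h2 l b hb)
      (fI_inc π μ h1 h2 n _ _ (GS_bd (k := k) hl))
    rwa [e, map_zero, add_zero, ← fI_single] at this
  induction n with
  | zero => exact fun y hy => gr_ext (bd ∘ₗ fI μ 1) (fI μ 0 ∘ₗ bd) (fun l hl => key 0 l hl (bd_bd _)) hy
  | succ n ih =>
    exact fun y hy => gr_ext (bd ∘ₗ fI μ (n + 2)) (fI μ (n + 1) ∘ₗ bd) (fun l hl => key _ l hl
      (by rw [ih _ (bd_gr (single_mem_gr hl 1)), bd_bd, map_zero])) hy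

/-- The homotopy from the identity. -/
def hI (μ : List K → K) : ℕ → B k K →ₗ[k] B k K
  | 0 => 0
  | n + 1 => linearCombination k fun l =>
      cons (μ l) ((LinearMap.id - lsingle [] ∘ₗ lapply [] - fI μ (n + 1) - hI μ n ∘ₗ bd :
        B k K →ₗ[k] B k K) (single l 1))

lemma hI_single (μ : List K → K) (n : ℕ) (l : List K) (hl : l.length = n + 1) :
    hI μ (n + 1) (single l (1 : k)) =
    cons (μ l) (single l 1 - fI μ (n + 1) (single l 1) - hI μ n (bd (single l 1))) := by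
  simp [hI, ne_nil_of_length hl]

lemma bd_hI (π : K → K) (μ : List K → K) (h1 : ∀ l, l ≠ [] → ∃ a ∈ l, μ l = π a)
    (h2 : ∀ l, ∀ a ∈ l, μ l ≤ π a) (n : ℕ) :
    ∀ y ∈ gr k K (n + 1), bd (hI μ (n + 1) y) = y - fI μ (n + 1) y - hI μ n (bd y) := by
  have key : ∀ n (l : List K), l.length = n + 1 → bd (hI μ n (bd (single l (1 : k)))) =
      bd (single l 1) - fI μ n (bd (single l 1)) → bd (hI μ (n + 1) (single l (1 : k))) =
        single l 1 - fI μ (n + 1) (single l 1) - hI μ n (bd (single l 1)) := fun n l hl e => by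
    have e' : bd (single l 1 - fI μ (n + 1) (single l 1) - hI μ n (bd (single l (1 : k)))) = 0 := by
      rw [map_sub, map_sub, e, bd_fI π μ h1 h2 n _ (single_mem_gr hl 1), sub_self]
    rw [hI_single _ _ _ hl, bd_cons, e', map_zero, sub_zero]
  induction n with
  | zero =>
    exact fun y hy => gr_ext (bd ∘ₗ hI μ 1) (LinearMap.id - fI μ 1 - hI μ 0 ∘ₗ bd)
      (fun l hl => key 0 l hl (by simp [hI, fI])) hy
  | succ n ih =>
    exact fun y hy => gr_ext (bd ∘ₗ hI μ (n + 2))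
      (LinearMap.id - fI μ (n + 2) - hI μ (n + 1) ∘ₗ bd) (fun l hl => key _ l hl
        (by rw [ih _ (bd_gr (single_mem_gr hl 1)), bd_bd, map_zero, sub_zero])) hy

lemma hI_gr (π : K → K) (μ : List K → K) (h1 : ∀ l, l ≠ [] → ∃ a ∈ l, μ l = π a)
    (h2 : ∀ l, ∀ a ∈ l, μ l ≤ π a) (n : ℕ) : ∀ y ∈ gr k K n, hI μ n y ∈ gr k K (n + 1) := by
  induction n with
  | zero => exact fun _ _ => zero_mem _
  | succ n ih =>
    refine fun y hy => gr_map _ _ (fun l hl => ?_) hy
    rw [hI_single _ _ _ hl]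
    refine cons_gr _ (sub_mem (sub_mem (single_mem_gr hl 1) ?_)
      (ih _ (bd_gr (single_mem_gr hl 1))))
    exact sup_map LinearMap.id _ (fun w hw => single_mem_gr hw.1 1) (fI_inc π μ h1 h2 _ Set.univ _
      (single_mem_supported k _ ⟨hl, fun _ _ => trivial⟩))

variable [Group K]

omit [LinearOrder K] in
lemma bdd_cone (c : K → B k K →ₗ[k] B k K)
    (hc : ∀ g a y, act k K K g (c a y) = c (g * a) (act k K K g y)) (μ : List K → K)
    (hμ : ∀ l : List K, l ≠ [] → (Set.range fun g : K => g⁻¹ * μ (l.map (g • ·))).Finite)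
    (f : B k K →ₗ[k] B k K) (hf : Bdd (act k K K) (act k K K) f) (h0 : f (single [] 1) = 0) :
    Bdd (act k K K) (act k K K) (linearCombination k fun l => c (μ l) (f (single l 1))) := by
  refine bdd_of_single fun l r => ?_
  by_cases hl : l = []
  · exact (Set.finite_singleton 0).subset (by rintro _ ⟨g, rfl⟩; simp [hl, h0])
  refine ((hμ l hl).image2 (fun a y => r • c a y) (hf (single l 1))).subset ?_
  rintro _ ⟨g, rfl⟩
  refine ⟨_, ⟨g, rfl⟩, _, ⟨g, rfl⟩, ?_⟩
  simp only [act_single, linearCombination_single, map_smul, hc]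

omit [LinearOrder K] in
lemma act_ncons (g a : K) (y : B k K) :
    act k K K g (ncons a y) = ncons (g * a) (act k K K g y) := by
  induction y using Finsupp.induction_linear with
  | zero => simp
  | add x y h1 h2 => simp only [map_add, h1, h2]
  | single l r =>
    cases l with
    | nil => simp [ncons]
    | cons b l => by_cases e : b = a <;> simp [ncons, e]

lemma bdd_hI (μ : List K → K)
    (hμ : ∀ l : List K, l ≠ [] → (Set.range fun g : K => g⁻¹ * μ (l.map (g • ·))).Finite) (n : ℕ) :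
    Bdd (act k K K) (act k K K) (fI μ n) ∧ Bdd (act k K K) (act k K K) (hI μ n) := by
  have hb : Bdd (act k K K) (act k K K) bd := bdd_of_eqv bd_act
  induction n with
  | zero => exact ⟨bdd_of_eqv fun _ _ => rfl, bdd_of_eqv fun _ _ => by simp [hI]⟩
  | succ n ih =>
    have h1 : Bdd (act k K K) (act k K K) (fI μ (n + 1)) :=
      bdd_cone ncons act_ncons μ hμ (fI μ n ∘ₗ bd) (ih.1.comp hb) (by simp)
    have h2 : Bdd (act k K K) (act k K K)
        (LinearMap.id - lsingle [] ∘ₗ lapply [] - fI μ (n + 1) - hI μ n ∘ₗ bd) :=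
      ((bdd_of_eqv (π := LinearMap.id - lsingle [] ∘ₗ lapply [])
        fun _ _ => by simp [act_nil]).sub h1).sub (ih.2.comp hb)
    exact ⟨h1, bdd_cone cons (fun g a y => lmap_cons (g • ·) a y) μ hμ _ h2 (by simp [fI])⟩

omit [LinearOrder K] in
lemma htpy_of_asdim (hK : FinAsdim K) : ∃ N, ∀ W : Set (List K), W.Finite →
    ∃ A : B k K →ₗ[k] B k K, Bdd (act k K K) (act k K K) A ∧
      (∀ y ∈ gr k K (N + 1), A y ∈ gr k K (N + 2)) ∧ ∀ g, ∀ w ∈ W, w.length = N + 2 →
        bd (A (bd (act k K K g (single w 1)))) = bd (act k K K g (single w 1)) := by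
  classical
  obtain ⟨d, hd⟩ := hK
  refine ⟨d, fun W hW => ?_⟩
  obtain ⟨S, hS⟩ : ∃ S : Finset K, ∀ w ∈ W, ∀ a ∈ w, a ∈ S :=
    ⟨hW.toFinset.biUnion List.toFinset, fun w hw a ha =>
      Finset.mem_biUnion.2 ⟨w, hW.mem_toFinset.2 hw, List.mem_toFinset.2 ha⟩⟩
  obtain ⟨𝒰, u1, ⟨T, u2⟩, u3⟩ := hd S
  choose U hU hU' using u1
  have : ∀ V : Set K, ∃ p : K, V.Nonempty → p ∈ V := fun V => by
    by_cases e : V.Nonempty
    · exact ⟨e.some, fun _ => e.some_mem⟩
    · exact ⟨1, fun e' => absurd e' e⟩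
  choose pt hpt using this
  let π : K → K := fun g => pt (U g)
  have hπ : ∀ g, g⁻¹ * π g ∈ T := fun g => u2 _ (hU g) _ (hU' g) _ (hpt _ ⟨g, hU' g⟩)
  let _ : LinearOrder K := linearOrderOfSTO WellOrderingRel
  have : ∀ l : List K, ∃ m : K, (l ≠ [] → ∃ a ∈ l, m = π a) ∧
      ∀ a ∈ l, m ≤ π a := fun l => by
    by_cases e : l = []
    · exact ⟨1, fun h => absurd e h, by simp [e]⟩
    · obtain ⟨a, ha, h⟩ := l.toFinset.exists_min_image π
        (by simpa [Finset.nonempty_iff_ne_empty] using e)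
      exact ⟨π a, fun _ => ⟨a, List.mem_toFinset.1 ha, rfl⟩,
        fun b hb => h b (List.mem_toFinset.2 hb)⟩
  choose μ m1 m2 using this
  have hμ : ∀ l : List K, l ≠ [] →
      (Set.range fun g : K => g⁻¹ * μ (l.map (g • ·))).Finite := fun l hl => by
    refine ((List.finite_toSet l).image2 (· * ·) T.finite_toSet).subset ?_
    rintro _ ⟨g, rfl⟩
    obtain ⟨_, hb, e⟩ := m1 (l.map (g • ·)) (by simpa using hl)
    obtain ⟨a, ha, rfl⟩ := List.mem_map.1 hb
    refine ⟨a, ha, _, hπ (g * a), ?_⟩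
    beta_reduce
    rw [e, smul_eq_mul]
    group
  refine ⟨hI μ (d + 1), (bdd_hI μ hμ _).2, hI_gr π μ m1 m2 _, fun g w hw hl => ?_⟩
  have e1 : (w.map (g • ·)).length = d + 2 := by simp [hl]
  have e2 : fI μ (d + 2) (single (w.map (g • ·)) (1 : k)) = 0 := by
    have := fI_inc (k := k) π μ m1 m2 _ {x | x ∈ w.map (g • ·)} _
      (single_mem_supported k 1 ⟨e1, fun _ h => h⟩)
    refine Finsupp.support_eq_empty.1 (Finset.eq_empty_of_forall_notMem fun l hl' => ?_)
    obtain ⟨l1, l2, l3⟩ := this hl'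
    have a1 : {x | x ∈ l} ⊆ pt '' {V ∈ 𝒰 | ∃ s ∈ S, g * s ∈ V} := by
      intro x hx
      obtain ⟨_, hb, rfl⟩ := l3 x hx
      obtain ⟨a, ha, rfl⟩ := List.mem_map.1 hb
      exact ⟨_, ⟨hU _, a, hS w hw a ha, hU' _⟩, rfl⟩
    have a2 := ((Set.encard_le_encard a1).trans (Set.encard_image_le _ _)).trans (u3 g)
    rw [← List.coe_toFinset, Set.encard_coe_eq_coe_finsetCard,
      List.toFinset_card_of_nodup (l2.imp ne_of_lt), l1] at a2
    have a3 : d + 2 ≤ d + 1 := by exact_mod_cast a2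
    omega
  rw [act_single, bd_hI π μ m1 m2 d _ (bd_gr (single_mem_gr e1 1)),
    ← bd_fI π μ m1 m2 _ _ (single_mem_gr e1 1), e2, bd_bd]
  simp

end asdim

section hier

variable {Z : Type} [MulAction Γ Z]

lemma barZ_ex (z : Z) (Y : Type) [MulAction Γ Y] : (DY (barZ k Γ Z) Y).Ex :=
  DY_ex _ (cons z) (bd_cons z)

lemma nt_bar (Y : Type) [MulAction Γ Y] (φ : Y → Z) (h : ∀ (γ : Γ) y, φ (γ • y) = γ • φ y) :
    NT P (DY (barZ k Γ Z) Y) := by
  refine nt_free _ (lsum k fun y => lsingle y ∘ₗ cons (φ y)) (fun γ x => ?_) fun x => ?_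
  · induction x using Finsupp.induction_linear with
    | zero => simp
    | add x y h1 h2 => simp only [map_add, h1, h2]
    | single y b =>
      simp only [DY_ρ, lsum_single, LinearMap.comp_apply, lsingle_apply, h]
      exact congrArg _ (lmap_cons _ _ b).symm
  · induction x using Finsupp.induction_linear with
    | zero => simp
    | add x y h1 h2 =>
      simp only [map_add]
      rw [add_add_add_comm, ← h1, ← h2]
    | single y b =>
      simp only [DY_d, lsum_single, LinearMap.comp_apply, lsingle_apply]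
      rw [← single_add]
      exact congrArg _ (eq_add_of_sub_eq (bd_cons (φ y) b).symm)

lemma nt_fix (H : Subgroup Γ) (z : Z) (hz : ∀ a ∈ H, a • z = z) :
    NT P (DY (barZ k Γ Z) (Γ ⧸ H)) := by
  refine nt_bar _ (Quotient.lift (fun a : Γ => a • z) fun a b hab => ?_) fun γ y => ?_
  · have := hz _ (QuotientGroup.leftRel_apply.1 hab)
    rw [mul_smul, inv_smul_eq_iff] at this
    exact this.symm
  · induction y using QuotientGroup.induction_on with
    | H a => exact mul_smul γ a z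

lemma nt_of_stab (hG : FinType k G) (z0 : Z) (Y : Type) [MulAction Γ Y]
    (h : ∀ y : Y, NT P (DY (barZ k Γ Z) (Γ ⧸ MulAction.stabilizer Γ y))) :
    NT P (DY (barZ k Γ Z) Y) := by
  classical
  have key : ∀ S : Finset Y, ∃ (U : Type) (_ : MulAction Γ U) (p : Γ × Y → U) (q : U → Y),
      (∀ (γ : Γ) z, p (γ • z) = γ • p z) ∧ (∀ (γ : Γ) z, q (γ • z) = γ • q z) ∧
      (∀ z, q (p z) = z.2) ∧ NT P (DY (barZ k Γ Z) U) ∧ ∀ y ∈ S, ∀ g, p (g, y) = p (1, y) := by
    intro S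
    induction S using Finset.induction_on with
    | empty =>
      exact ⟨Γ × Y, inferInstance, id, Prod.snd, fun _ _ => rfl, fun _ _ => rfl, fun _ => rfl,
        nt_bar _ (fun z => z.1 • z0) fun γ z => mul_smul γ z.1 z0, by simp⟩
    | insert y S _ ih =>
      obtain ⟨U, _, p, q, p1, q1, pq, hU, hS⟩ := ih
      let o := MulAction.ofQuotientStabilizer Γ y
      have o1 : ∀ (γ : Γ) w, o (γ • w) = γ • o w := MulAction.ofQuotientStabilizer_smul Γ y
      have o2 : Function.Injective o := MulAction.injective_ofQuotientStabilizer Γ y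
      refine ⟨(Γ ⧸ MulAction.stabilizer Γ y) ⊕ U, inferInstance,
        fun z => if h : ∃ w, o w = z.2 then Sum.inl h.choose else Sum.inr (p z),
        Sum.elim o q, fun γ z => ?_, fun γ z => ?_, fun z => ?_, nt_sum _ _ _ (h y) hU,
        fun y' hy' g => ?_⟩
      · beta_reduce
        by_cases e : ∃ w, o w = z.2
        · have e' : ∃ w, o w = (γ • z).2 := ⟨γ • e.choose, by rw [o1, e.choose_spec]; rfl⟩
          rw [dif_pos e, dif_pos e', Sum.smul_inl]
          congr 1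
          apply o2
          rw [e'.choose_spec, o1, e.choose_spec]
          rfl
        · have e' : ¬ ∃ w, o w = (γ • z).2 := fun ⟨w, hw⟩ =>
            e ⟨γ⁻¹ • w, by rw [o1, hw, Prod.smul_snd, inv_smul_smul]⟩
          rw [dif_neg e, dif_neg e', Sum.smul_inr, p1]
      · cases z with
        | inl w => exact o1 γ w
        | inr w => exact q1 γ w
      · beta_reduce
        split_ifs with e
        · exact e.choose_spec
        · exact pq z
      · beta_reduce
        split_ifs with e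
        · rfl
        · rcases Finset.mem_insert.1 hy' with rfl | hy'
          · exact absurd ⟨((1 : Γ) : Γ ⧸ MulAction.stabilizer Γ y'), one_smul Γ y'⟩ e
          · rw [hS y' hy']
  choose U hU p q p1 q1 pq hN hS using key
  refine nt_colim hG (DY (barZ k Γ Z) (Γ × Y)) _ (lmapDomain _ k Prod.snd)
    (mor_map _ _ fun _ _ => rfl) (mapDomain_surjective Prod.snd_surjective)
    (barZ_ex z0 _) (fun S => U S →₀ B k Z) (fun S => DY (barZ k Γ Z) (U S))
    (fun S => lmapDomain _ k (p S)) (fun S => lmapDomain _ k (q S))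
    (fun S => mor_map _ _ (p1 S)) (fun S => mor_map _ _ (q1 S))
    (fun S x => mapDomain_comp.symm.trans (congrArg (mapDomain · x) (funext (pq S))))
    (fun _ => barZ_ex z0 _) hN fun X hX h0 => ?_
  refine ⟨(hX.toFinset.biUnion fun x => x.support).image Prod.snd, fun x hx => ?_⟩
  refine mapDomain_sec _ (fun y => p _ (1, y)) _ x (h0 x hx) fun z hz => hS _ _ ?_ z.1
  exact Finset.mem_image_of_mem _ (Finset.mem_biUnion.2 ⟨x, hX.mem_toFinset.2 hx, hz⟩)

lemma nt_loc (hG : FinType k G) (z0 : Z) (K : Subgroup Γ)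
    (h : ∀ S : Finset Γ, (S : Set Γ) ⊆ K → ∃ H ≤ K, (S : Set Γ) ⊆ H ∧
      NT P (DY (barZ k Γ Z) (Γ ⧸ H))) : NT P (DY (barZ k Γ Z) (Γ ⧸ K)) := by
  classical
  refine nt_colim hG (DY (barZ k Γ Z) Γ) _ (lmapDomain _ k fun g : Γ => (g : Γ ⧸ K))
    (mor_map _ _ fun _ _ => rfl) (mapDomain_surjective QuotientGroup.mk_surjective)
    (barZ_ex z0 _)
    (I := {H : Subgroup Γ // H ≤ K ∧ NT P (DY (barZ k Γ Z) (Γ ⧸ H))}) (fun H => Γ ⧸ H.1 →₀ B k Z)
    (fun H => DY (barZ k Γ Z) (Γ ⧸ H.1)) (fun H => lmapDomain _ k fun g : Γ => (g : Γ ⧸ H.1))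
    (fun H => lmapDomain _ k (Subgroup.quotientMapOfLE H.2.1)) (fun H => mor_map _ _ fun _ _ => rfl)
    (fun H => mor_map _ _ (qmap_smul H.2.1)) (fun H x => mapDomain_comp.symm)
    (fun _ => barZ_ex z0 _) (fun H => H.2.2) fun X hX h0 => ?_
  let S : Finset Γ := (hX.toFinset.biUnion fun x => x.support).image
    fun g : Γ => g⁻¹ * (g : Γ ⧸ K).out
  have hS : (S : Set Γ) ⊆ K := by
    intro a ha
    obtain ⟨g, -, rfl⟩ := Finset.mem_image.1 ha
    exact QuotientGroup.eq.1 (Quotient.out_eq _).symm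
  obtain ⟨H, h1, h2, h3⟩ := h S hS
  refine ⟨⟨H, h1, h3⟩, fun x hx => ?_⟩
  refine mapDomain_sec _ (fun z : Γ ⧸ K => (z.out : Γ ⧸ H)) _ x (h0 x hx) fun g hg => ?_
  refine QuotientGroup.eq.2 (h2 ?_)
  exact Finset.mem_image.2 ⟨g, Finset.mem_biUnion.2 ⟨x, hX.mem_toFinset.2 hx, hg⟩, rfl⟩

omit [IsDomain k] in
lemma tens_range {Q X X' : Type} (f : (X →₀ k) →ₗ[k] (X' →₀ k)) (c : D →ₗ[k] D) (y : Q × X →₀ D) :
    tens f (mapRange.linearMap c y) = mapRange.linearMap c (tens f y) := by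
  induction y using Finsupp.induction_linear with
  | zero => simp
  | add x y a b => simp only [map_add, a, b]
  | single z b =>
    obtain ⟨q, x⟩ := z
    rw [mapRange.linearMap_apply, mapRange_single, tens_single, tens_single]
    generalize f (single x 1) = y
    induction y using Finsupp.induction_linear with
    | zero => simp
    | add x y a1 a2 => simp only [map_add, LinearMap.add_apply, a1, a2]
    | single x r => simp

omit [IsDomain k] in
lemma tens_d {Q X X' : Type} [MulAction Γ (Q × X)] [MulAction Γ (Q × X')] {E : DM k Γ D}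
    (f : (X →₀ k) →ₗ[k] (X' →₀ k)) (y : Q × X →₀ D) :
    tens f ((DY E (Q × X)).d y) = (DY E (Q × X')).d (tens f y) := tens_range f E.d y

omit [IsDomain k] in
lemma quot_ex (z : Z) {Q X X' : Type} [MulAction Γ (Q × X)] [MulAction Γ (Q × X')]
    (f : (X →₀ k) →ₗ[k] (X' →₀ k))
    (hf : Mor (DY (barZ k Γ Z) (Q × X)) (DY (barZ k Γ Z) (Q × X')) (tens f)) :
    ((DY (barZ k Γ Z) (Q × X')).quot _ _ hf).Ex := by
  intro y hy
  induction y using Submodule.Quotient.induction_on with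
  | H y =>
    obtain ⟨w, hw⟩ := (Submodule.Quotient.mk_eq_zero _).1 hy
    refine ⟨Submodule.Quotient.mk (mapRange.linearMap (cons z) y),
      (Submodule.Quotient.eq _).2 ⟨-mapRange.linearMap (cons z) w, ?_⟩⟩
    rw [map_neg, tens_range, hw]
    ext a : 1
    simp [DY, barZ, bd_cons]

omit [IsDomain k] in
lemma rho_emb {Q X K : Type} [Group K] [MulAction Γ Q] [MulAction K X] (E : DM k Γ D)
    (κ : Γ → Q → K) [MulAction Γ (Q × X)]
    (h : ∀ (γ : Γ) (q : Q) (x : X), γ • (q, x) = (γ • q, κ γ q • x)) (γ : Γ) (q : Q) (y : X →₀ k)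
    (b : D) : (DY E (Q × X)).ρ γ (emb q y b) =
      emb (γ • q) (y.mapDomain (κ γ q • ·)) (E.ρ γ b) := by
  induction y using Finsupp.induction_linear with
  | zero => simp
  | add x y a1 a2 => simp only [mapDomain_add, map_add, LinearMap.add_apply, a1, a2]
  | single x c => simp [h]

lemma nt_act (hG : FinType k G) (z0 : Z) {K : Type} [Group K] (X : ℕ → Type)
    [∀ n, MulAction K (X n)]
    (d : ∀ n, (X (n + 1) →₀ k) →ₗ[k] (X n →₀ k)) (ε : (X 0 →₀ k) →ₗ[k] k)
    (hd : ∀ n (g : K) c, d n (c.mapDomain (g • ·)) = (d n c).mapDomain (g • ·))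
    (hε : ∀ (g : K) c, ε (c.mapDomain (g • ·)) = ε c)
    (h0 : Function.Surjective ε) (h1 : Function.Exact (d 0) ε)
    (h2 : ∀ n, Function.Exact (d (n + 1)) (d n)) (N : ℕ)
    (hs : ∀ W : Set (X (N + 1)), W.Finite → ∃ s : (X N →₀ k) →ₗ[k] (X (N + 1) →₀ k),
      (P.ξ = 1 ∨ ∀ (g : K) c, s (c.mapDomain (g • ·)) = (s c).mapDomain (g • ·)) ∧
      (∀ x, (Set.range fun g : K => (s (single (g • x) 1)).mapDomain (g⁻¹ • ·)).Finite) ∧
      ∀ g : K, ∀ w ∈ W, d N (s (d N (single (g • w) 1))) = d N (single (g • w) 1))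
    (φ : K →* Γ) (hφ : Function.Injective φ)
    (ih : ∀ n (x : X n),
      NT P (DY (barZ k Γ Z) (Γ ⧸ (φ.comp (MulAction.stabilizer K x).subtype).range))) :
    NT P (DY (barZ k Γ Z) (Γ ⧸ φ.range)) := by
  have hκ : ∀ (γ : Γ) (q : Γ ⧸ φ.range), ∃ a, φ a = (γ • q).out⁻¹ * (γ * q.out) :=
    fun γ q => (QuotientGroup.eq (s := φ.range)).1 (by
      rw [QuotientGroup.out_eq']
      conv_lhs => rw [← QuotientGroup.out_eq' q]
      rfl)
  choose κ hκ using hκ
  have k1 : ∀ q, κ 1 q = 1 := fun q => hφ (by simp [hκ])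
  have k2 : ∀ γ δ q, κ (γ * δ) q = κ γ (δ • q) * κ δ q := fun γ δ q =>
    hφ (by simp [hκ, mul_smul, mul_assoc])
  let := fun n => indAct κ k1 k2 (X n)
  let := indAct κ k1 k2 Unit
  obtain ⟨y0, hy0⟩ := h0 1
  let ε' : (X 0 →₀ k) →ₗ[k] (Unit →₀ k) := lsingle () ∘ₗ ε
  let σ : (Unit →₀ k) →ₗ[k] (X 0 →₀ k) := linearCombination k fun _ => y0
  have e0 : ∀ y, ε' (σ y) = y := fun y => by
    rw [Finsupp.unique_single y]
    simp [ε', σ, hy0]
  have e1 : Function.Exact (d 0) ε' := fun y => by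
    rw [← h1 y]
    simp [ε']
  obtain ⟨s0, hs0⟩ := split_step _ _ e1 σ fun y => e0 _
  have e2 : ∀ n, ∃ s : (X n →₀ k) →ₗ[k] (X (n + 1) →₀ k), ∀ y, d n (s (d n y)) = d n y := by
    intro n
    induction n with
    | zero =>
      refine ⟨s0, fun y => ?_⟩
      have := hs0 (d 0 y)
      rwa [e1.apply_apply_eq_zero, map_zero, add_zero] at this
    | succ n ih =>
      obtain ⟨s, hs⟩ := ih
      obtain ⟨s', hs'⟩ := split_step _ _ (h2 n) s hs
      refine ⟨s', fun y => ?_⟩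
      have := hs' (d (n + 1) y)
      rwa [(h2 n).apply_apply_eq_zero, map_zero, add_zero] at this
  have hM : ∀ n, NT P (DY (barZ k Γ Z) ((Γ ⧸ φ.range) × X n)) := fun n => by
    refine nt_of_stab hG z0 _ fun z => ?_
    obtain ⟨q, x⟩ := z
    refine nt_conj _ _ _ q.out (fun γ => ⟨fun h => ?_, ?_⟩) (ih n x)
    · have h' : (γ • q, κ γ q • x) = (q, x) := h
      refine ⟨⟨κ γ q, (Prod.ext_iff.1 h').2⟩, ?_⟩
      have e : γ • q = q := (Prod.ext_iff.1 h').1
      simp [hκ, e, mul_assoc]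
    · rintro ⟨a, ha⟩
      have ha' : φ a = q.out⁻¹ * γ * q.out := ha
      have e : γ • q = q := by
        conv_rhs => rw [← QuotientGroup.out_eq' q]
        have : γ • q = ((γ * q.out : Γ) : Γ ⧸ φ.range) := by
          conv_lhs => arg 2; rw [← QuotientGroup.out_eq' q]
          rfl
        rw [this, QuotientGroup.eq]
        exact ⟨a⁻¹, by rw [map_inv, ha']; group⟩
      have e' : κ γ q = a := hφ (by rw [hκ, e, ha', mul_assoc])
      change (γ • q, κ γ q • x) = (q, x)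
      rw [e, e', a.2]
  have main := nt_res (P := P) N (fun n => (Γ ⧸ φ.range) × X n →₀ B k Z)
    (fun n => DY (barZ k Γ Z) ((Γ ⧸ φ.range) × X n)) (fun n => tens (d n)) _
    (DY (barZ k Γ Z) ((Γ ⧸ φ.range) × Unit)) (tens ε')
    (fun n => tens_mor _ κ (fun _ _ _ => rfl) (fun _ _ _ => rfl) _ (hd n))
    (tens_mor _ κ (fun _ _ _ => rfl) (fun _ _ _ => rfl) _ fun g c => by simp [ε', hε])
    (fun z => ⟨tens σ z, by
      induction z using Finsupp.induction_linear with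
      | zero => simp
      | add x y a b => simp only [map_add, a, b]
      | single z b => rw [tens_single, tens_emb, e0]; simp⟩)
    (tens_exact _ _ s0 σ e1.apply_apply_eq_zero hs0)
    (fun n => by
      obtain ⟨s, hs⟩ := e2 n
      obtain ⟨s', hs'⟩ := split_step _ _ (h2 n) s hs
      exact tens_exact _ _ s' s (h2 n).apply_apply_eq_zero hs')
    hM (nt_quot hG _ _ _ _ (barZ_ex z0 _) (quot_ex z0 _ _) (hM N) fun W hW => ?_)
  · exact nt_sec _ (fun q => (q, ())) Prod.fst (fun _ _ => rfl) (fun _ _ => rfl) (fun _ => rfl) main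
  · classical
    obtain ⟨s, s1, s2, s3⟩ := hs _ ((hW.biUnion fun w _ => w.support.finite_toSet).image Prod.snd)
    refine ⟨tens s, fun y => ?_, bdd_of_single fun z b => ?_, tens_d s, fun γ w hw => ?_⟩
    · rcases s1 with e | s1
      · simp [e]
      · exact (tens_mor _ κ (fun _ _ _ => rfl) (fun _ _ _ => rfl) _ s1).ρ _ y
    · refine ((s2 z.2).image fun y => emb z.1 y b).subset ?_
      rintro _ ⟨γ, rfl⟩
      refine ⟨_, ⟨κ γ z.1, rfl⟩, ?_⟩
      have e : κ γ⁻¹ (γ • z.1) = (κ γ z.1)⁻¹ := by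
        rw [eq_inv_iff_mul_eq_one, ← k2, inv_mul_cancel, k1]
      beta_reduce
      rw [DY_ρ]
      change _ = (DY (barZ k Γ Z) _).ρ γ⁻¹ (tens s (single (γ • z.1, κ γ z.1 • z.2) _))
      rw [tens_single, rho_emb _ κ (fun _ _ _ => rfl), e, inv_smul_smul, rho_rho, inv_mul_cancel,
        map_one, Module.End.one_apply]
    · rw [← Finsupp.sum_single w, Finsupp.sum]
      simp only [map_sum]
      refine Finset.sum_congr rfl fun z hz => ?_
      rw [DY_ρ]
      change tens (d N) (tens s (tens (d N) (single (γ • z.1, κ γ z.1 • z.2) _))) =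
        tens (d N) (single (γ • z.1, κ γ z.1 • z.2) _)
      rw [tens_single, tens_emb, tens_emb, s3 _ _ ⟨z, Set.mem_iUnion₂.2 ⟨w, hw, hz⟩, rfl⟩]

lemma nt_split (hG : FinType k G) (z0 : Z) {K : Type} [Group K] {N : ℕ}
    (hK : ∀ W : Set (List K), W.Finite → ∃ A : B k K →ₗ[k] B k K,
      (P.ξ = 1 ∨ Eqv (act k K K) A) ∧ Bdd (act k K K) (act k K K) A ∧
      (∀ y ∈ gr k K (N + 1), A y ∈ gr k K (N + 2)) ∧ ∀ g, ∀ w ∈ W, w.length = N + 2 →
        bd (A (bd (act k K K g (single w 1)))) = bd (act k K K g (single w 1)))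
    (φ : K →* Γ) (hφ : Function.Injective φ) : NT P (DY (barZ k Γ Z) (Γ ⧸ φ.range)) := by
  let X : ℕ → Type := fun n => {l : List K // l.length = n + 1}
  let _ : ∀ n, MulAction K (X n) := fun n =>
    { smul := fun g l => ⟨l.1.map (g • ·), by rw [List.length_map, l.2]⟩
      one_smul := fun l => Subtype.ext (by change l.1.map _ = l.1; simp)
      mul_smul := fun a b l => Subtype.ext (by
        change l.1.map _ = (l.1.map _).map _
        simp [mul_assoc, Function.comp_def]) }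
  let i : ∀ n, (X n →₀ k) →ₗ[k] B k K := fun n => lmapDomain k k Subtype.val
  let r : ∀ n, B k K →ₗ[k] (X n →₀ k) := fun n => lcomapDomain _ Subtype.val_injective
  have i0 : ∀ n, Function.Injective (i n) := fun n => mapDomain_injective Subtype.val_injective
  have i1 : ∀ n y, i n y ∈ gr k K (n + 1) := fun n y => by
    induction y using Finsupp.induction_linear with
    | zero => simp
    | add x y a b => rw [map_add]; exact add_mem a b
    | single l c => simpa [i] using single_mem_gr l.2 c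
  have i2 : ∀ n (g : K) y, i n (y.mapDomain (g • ·)) = act k K K g (i n y) := fun n g y => by
    induction y using Finsupp.induction_linear with
    | zero => simp
    | add x y a b => simp only [mapDomain_add, map_add, a, b]
    | single l c =>
      simp only [i, mapDomain_single, lmapDomain_apply, act_single]
      rfl
  have i3 : ∀ n, ∀ y ∈ gr k K (n + 1), i n (r n y) = y := fun n y hy =>
    gr_ext (i n ∘ₗ r n) LinearMap.id (fun l hl => by
      have : r n (single l 1) = single ⟨l, hl⟩ 1 :=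
        comapDomain_single (Subtype.val : X n → List K) ⟨l, hl⟩ 1 _
      simp [this, i]) hy
  let d : ∀ n, (X (n + 1) →₀ k) →ₗ[k] (X n →₀ k) := fun n => r n ∘ₗ bd ∘ₗ i (n + 1)
  have d1 : ∀ n y, i n (d n y) = bd (i (n + 1) y) := fun n y => i3 n _ (bd_gr (i1 _ y))
  have ex : ∀ n y, bd (i n y) = 0 ↔ y ∈ Set.range (d n) := fun n y =>
    ⟨fun h => ⟨r _ (cons 1 (i n y)), i0 n (by
      rw [d1, i3 _ _ (cons_gr 1 (i1 n y)), bd_cons, h, map_zero, sub_zero])⟩, by
      rintro ⟨z, rfl⟩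
      rw [d1, bd_bd]⟩
  have i4 : ∀ n (g : K) (x : X n), i n (single (g • x) 1) = act k K K g (single x.1 1) :=
    fun n g x => by
      rw [← mapDomain_single (f := (g • ·)), i2]
      simp [i]
  refine nt_act hG z0 X d (lapply [] ∘ₗ bd ∘ₗ i 0) (fun n g c => i0 n ?_) (fun g c => ?_)
    (fun c => ⟨single ⟨[1], rfl⟩ c, by simp [i, bd_single_cons]⟩) (fun y => ?_) (fun n y => ?_)
    N (fun W hW => ?_) φ hφ fun n x => ?_
  · rw [d1, i2, i2, d1, bd_act]
  · simp only [LinearMap.comp_apply, i2, bd_act, lapply_apply, act_nil]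
  · rw [← ex]
    have := gr_ext (lsingle [] ∘ₗ lapply []) LinearMap.id
      (fun l hl => by rw [List.length_eq_zero_iff.1 hl]; simp) (bd_gr (i1 0 y))
    refine ⟨fun h => ?_, fun h => by simp [h]⟩
    have h' : bd (i 0 y) [] = 0 := h
    simpa [h'] using this.symm
  · rw [← ex, ← d1, map_eq_zero_iff _ (i0 n)]
  · obtain ⟨A, a1, a2, a3, a4⟩ := hK _ (hW.image Subtype.val)
    have s1 : ∀ y, i (N + 1) (r (N + 1) (A (i N y))) = A (i N y) := fun y =>
      i3 _ _ (a3 _ (i1 N y))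
    refine ⟨r (N + 1) ∘ₗ A ∘ₗ i N, a1.imp_right fun a1 g c => i0 _ ?_,
      fun x => ((a2 (single x.1 1)).preimage (i0 (N + 1)).injOn).subset ?_, fun g w hw => i0 _ ?_⟩
    · rw [i2]
      simp only [LinearMap.comp_apply, s1]
      rw [i2, a1]
    · rintro _ ⟨g, rfl⟩
      refine ⟨g, ?_⟩
      beta_reduce
      rw [i2]
      simp only [LinearMap.comp_apply, s1]
      rw [i4]
    · rw [d1]
      simp only [LinearMap.comp_apply, s1]
      rw [d1, i4]
      exact a4 g _ ⟨w, hw, rfl⟩ w.2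
  · refine nt_fix _ z0 ?_
    rintro _ ⟨a, rfl⟩
    obtain ⟨l, hl⟩ := x
    obtain ⟨g, l, rfl⟩ := List.exists_cons_of_length_eq_add_one hl
    have e1 : a.1 * g = g := (List.cons.inj (congrArg Subtype.val a.2)).1
    have e2 : a.1 = 1 := mul_eq_right.1 e1
    change φ a.1 • z0 = z0
    rw [e2, map_one, one_smul]

lemma nt_fd (hG : FinType k G) (z0 : Z) {K : Type} [Group K] {N : ℕ} (hK : FD k K K N)
    (φ : K →* Γ) (hφ : Function.Injective φ) : NT P (DY (barZ k Γ Z) (Γ ⧸ φ.range)) := by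
  obtain ⟨A, a1, a3, a2⟩ := htpy_of_FD hK
  refine nt_split (N := N) hG z0 (fun W _ => ⟨A, Or.inr a1, bdd_of_eqv a1, a3 _, fun g w _ e => ?_⟩)
    φ hφ
  have := congrArg bd (a2 _ (act_gr g (single_mem_gr e 1)))
  rw [map_add, bd_bd, zero_add] at this
  exact this.symm

lemma nt_asd (hG : FinType k G) (z0 : Z) (hP : P.ξ = 1) {K : Type} [Group K] (hK : FinAsdim K)
    (φ : K →* Γ) (hφ : Function.Injective φ) : NT P (DY (barZ k Γ Z) (Γ ⧸ φ.range)) := by
  obtain ⟨N, h⟩ := htpy_of_asdim (k := k) hK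
  refine nt_split (N := N) hG z0 (fun W hW => ?_) φ hφ
  obtain ⟨A, a⟩ := h W hW
  exact ⟨A, Or.inl hP, a⟩

lemma nt_RH (hG : FinType k G) (z0 : Z) (hP : CharZero k → P.ξ = 1) (S0 : Set Γ)
    (hZ : ∀ H : Subgroup Γ, (∀ a ∈ H, a ∉ S0) → ∃ z : Z, ∀ a ∈ H, a • z = z)
    {K : Type} [Group K] {S : Set K} (hK : RH k K S) : ∀ φ : K →* Γ, Function.Injective φ →
      (∀ a, φ a ∈ S0 → a ∈ S) → NT P (DY (barZ k Γ Z) (Γ ⧸ φ.range)) := by
  induction hK with
  | base K =>
    intro φ _ h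
    obtain ⟨z, hz⟩ := hZ φ.range (by rintro _ ⟨a, rfl⟩; exact h a)
    exact nt_fix _ z hz
  | loc K S _ ih =>
    intro φ hφ h
    refine nt_loc hG z0 _ fun T hT => ?_
    let K' := Subgroup.closure (φ ⁻¹' (T : Set Γ))
    refine ⟨(φ.comp K'.subtype).range, ?_, fun s hs => ?_, ih K' ((Subgroup.fg_iff _).2
      ⟨_, rfl, T.finite_toSet.preimage hφ.injOn⟩) _ (hφ.comp K'.subtype_injective)
      fun a => h a.1⟩
    · rintro _ ⟨x, rfl⟩
      exact ⟨x, rfl⟩
    · obtain ⟨x, rfl⟩ := hT hs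
      exact ⟨⟨x, Subgroup.subset_closure hs⟩, rfl⟩
  | fd K S R N h => exact fun φ hφ _ => nt_fd hG z0 (FD_of_resolution R N h) φ hφ
  | asd K S h0 h => exact fun φ hφ _ => nt_asd hG z0 (hP h0) h φ hφ
  | act K S X d ε hd hε h0 h1 h2 N hN _ ih =>
    intro φ hφ h
    exact nt_act hG z0 X d ε hd hε h0 h1 h2 N (fun W _ => ⟨0, Or.inr (by simp),
      fun x => (Set.finite_singleton 0).subset (by rintro _ ⟨g, rfl⟩; simp),
      fun _ w => (hN (N + 1) (Nat.lt_succ_self N)).elim w⟩) φ hφ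
      fun n x => ih n x _ (hφ.comp Subtype.val_injective) fun a => h a.1

lemma nt_point (y0 : Γ ⧸ (MonoidHom.id Γ).range) (E : DM k Γ D)
    (h : NT P (DY E (Γ ⧸ (MonoidHom.id Γ).range))) : NT P E := by
  have e : ∀ γ : Γ, γ • y0 = y0 := fun γ => by
    induction y0 using QuotientGroup.induction_on with
    | H a => exact QuotientGroup.eq.2 ⟨_, rfl⟩
  exact nt_retract _ _ (lsingle y0) (lsum k fun _ => LinearMap.id)
    ⟨fun γ x => by simp [e], fun x => by simp⟩
    (mor_of_single E _ (fun γ y b => by simp) fun y b => by simp) (fun x => by simp) h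

end hier

section core

omit [IsDomain k]

variable {S S' ι : Type}

lemma lmap_nil (φ : S → S') (y : B k S) : lmap φ y [] = y [] := by
  classical
  induction y using Finsupp.induction_linear with
  | zero => simp
  | add x y h1 h2 => simp [h1, h2]
  | single l r => simp [single_apply]

lemma Mh_lmap (a : S' → k) (φ : S → S') (y : B k S) :
    Mh a (lmap φ y) = lmap φ (Mh (fun g => a (φ g)) y) := by
  induction y using Finsupp.induction_linear with
  | zero => simp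
  | add x y h1 h2 => simp only [map_add, h1, h2]
  | single l r =>
    cases l with
    | nil => simp
    | cons g l => rw [← cons_single, lmap_cons, Mh_cons, Mh_cons, map_smul, lmap_cons]

lemma Ph_lmap (a : ι → S' → k) (φ : S → S') (J : List ι) (y : B k S) :
    Ph a J (lmap φ y) = Ph (fun i g => a i (φ g)) J y := by
  induction J generalizing y with
  | nil => rw [Ph_nil, Ph_nil, bd_lmap, lmap_nil]
  | cons i J ih => rw [Ph_cons, Ph_cons, bd_lmap, Mh_lmap, ih]

lemma Mh_shift (a a' : S → k) (c : k) {V : Set S} (h : ∀ g ∈ V, a' g = a g + c) {y : B k S}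
    (hy : y ∈ Sp k V) : Mh a' y = Mh a y + c • (y - single [] (y [])) := by
  have := sup_map (Mh a' - (Mh a + c • (LinearMap.id - lsingle [] ∘ₗ lapply []))) ⊥
    (fun l hl => ?_) hy
  · exact sub_eq_zero.1 this
  · rw [Submodule.mem_bot, LinearMap.sub_apply, sub_eq_zero]
    change Mh a' (single l 1) = Mh a (single l 1) +
      c • (single l 1 - single [] ((single l 1 : B k S) []))
    cases l with
    | nil => simp
    | cons g l =>
      have : (single (g :: l) 1 : B k S) [] = 0 := by simp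
      rw [this, ← cons_single, Mh_cons, Mh_cons, h g (hl g List.mem_cons_self), add_smul]
      simp

lemma Ph_shift (a a' : ι → S → k) {U : Set S} (h : ∀ i, ∃ c, ∀ g ∈ U, a' i g = a i g + c)
    (J : List ι) {y : B k S} (hy : y ∈ Sp k U) : Ph a' J y = Ph a J y := by
  induction J generalizing y with
  | nil => rfl
  | cons i J ih =>
    obtain ⟨c, hc⟩ := h i
    rw [Ph_cons, Ph_cons, Mh_shift _ _ c hc (Sp_bd hy), map_add, ih (Sp_Mh _ (Sp_bd hy)),
      map_smul, map_sub, Ph_bd, Ph_single]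
    simp

lemma sum_shift (u : ℕ → k) (n1 n2 w : ℕ) (h : n1 ≤ n2) (e : ∀ i < w, u (n1 + i) = u (n2 + i)) :
    ∑ n ∈ Finset.Ico n1 n2, u (n + w) = ∑ n ∈ Finset.Ico n1 n2, u n := by
  induction w with
  | zero => rfl
  | succ w ih =>
    rw [← ih fun i hi => e i (by omega)]
    have a1 := Finset.sum_Ico_sub (fun n => u (n + w)) h
    rw [← sub_eq_zero, ← Finset.sum_sub_distrib]
    simp only [← add_assoc, add_right_comm _ w 1]
    rw [a1, e w (by omega), sub_self]

theorem coreZ (L : Len G) (p : ℕ → G → G) (C : ℕ) (h0 : ∀ g, p 0 g = 1)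
    (h1 : ∀ t g, L.len ((p t g)⁻¹ * p (t + 1) g) ≤ C)
    (h2 : ∀ R, ∃ R', ∀ t g h, L.len (g⁻¹ * h) ≤ R → L.len ((p t g)⁻¹ * p t h) ≤ R')
    (h3 : ∀ g t, C * (L.len g + 1) ≤ t → p t g = g) (m : k) (hm : m ≠ 0) [NoZeroDivisors k] (x : G)
    (τ : ℕ → S → S) (r : S → ℤ) (hr : ∀ n z, r (τ n z) = n + r z) (φ : G → S)
    (hφ : ∀ n g, φ (x ^ n * g) = τ n (φ g)) (A : ℕ → B k G →ₗ[k] B k S)
    (a1 : ∀ n j y, A n (act k G G (x ^ j) y) = lmap (τ j) (A (n + j) y)) (N : ℕ)
    (a2 : ∀ n, ∀ y ∈ gr k G (N + 2), m • lmap φ y = bd (A n y) + A n (bd y))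
    (a3 : ∀ R, ∃ F : ℕ, ∀ V : Finset G, ∃ U : Finset S, U.card ≤ F * V.card ∧
      ∀ n, ∀ y ∈ WS k L (N + 1) R V, A n y ∈ Sp k U)
    (a4 : ∀ (Y : Set (B k G)) (w : ℕ), Y.Finite → ∃ n1 n2, n1 ≤ n2 ∧ ((n2 - n1 : ℕ) : k) ≠ 0 ∧
      ∀ y ∈ Y, ∀ i < w, A (n1 + i) y = A (n2 + i) y) :
    ∃ K : ℕ, ∀ W D : ℕ, 1 ≤ D → (∀ j ≤ N, L.len (x ^ W ^ j) ≤ D) → W ≤ K * D ^ (N + 1) := by
  classical
  obtain ⟨R, K, hc⟩ := exists_c (k := k) (ι := Fin (N + 1)) L p C h0 h1 h2 h3 (N + 1)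
  obtain ⟨F, hF⟩ := a3 R
  refine ⟨(1 + F) * K, fun W D hD hl => ?_⟩
  by_contra hW
  obtain ⟨c, V, v1, -, c0, c1, c2⟩ := hc (fun i => x ^ W ^ (i : ℕ)) D hD
    (fun i j => (Commute.pow_pow_self x _ _).eq) fun i => hl i (Nat.le_of_lt_succ i.2)
  obtain ⟨U0, u0, hU⟩ := hF V
  let U : Finset S := V.image φ ∪ U0
  have u1 : U.card < W := by
    have e1 := Finset.card_union_le (V.image φ) U0
    have e2 := Finset.card_image_le (s := V) (f := φ)
    have e3 : (1 + F) * V.card ≤ (1 + F) * (K * D ^ (N + 1)) := Nat.mul_le_mul_left _ v1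
    rw [mul_assoc] at hW
    rw [add_mul, one_mul] at e3
    change U.card ≤ _ at e1
    omega
  obtain ⟨s, hs⟩ := dig_shift W (U.image r) (lt_of_le_of_lt Finset.card_image_le u1) (N + 1)
  let a : Fin (N + 1) → S → k := fun i z => (((r z + s) / (W : ℤ) ^ (i : ℕ) % W : ℤ) : k)
  have ha : ∀ i j : Fin (N + 1), ∀ z ∈ (U : Set S),
      a i (τ (W ^ (j : ℕ)) z) = a i z + if i = j then 1 else 0 := fun i j z hz => by
    have e2 := dig_add W _ (by omega) i j (hs _ (Finset.mem_image_of_mem _ hz) j j.2)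
    simp only [a, hr, Nat.cast_pow, add_assoc, e2, Fin.ext_iff]
    simp
  have hJ : (List.finRange (N + 1)).length = N + 1 := List.length_finRange
  have e1 := Ph_c (fun i g => a i (φ g)) _ (U := V) (fun i j g hg => by
      rw [hφ]
      exact ha i j _ (Finset.mem_union_left _ (Finset.mem_image_of_mem _ hg))) c (N + 1) c0
    (fun J h => WS_Sp L (c1 J h)) c2 _ hJ.le (List.nodup_finRange _)
  have e2 := c1 _ hJ.le
  rw [hJ] at e2
  obtain ⟨n1, n2, b1, b2, b3⟩ := a4 (c '' {M | M.length = N}) (W ^ N)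
    ((List.finite_length_eq _ N).image c)
  have e4 := Dk_kill (fun i : Fin (N + 1) => x ^ W ^ (i : ℕ))
    (∑ n ∈ Finset.Ico n1 n2, Ph a (List.finRange (N + 1)) ∘ₗ A n) (List.finRange (N + 1)) c
    fun j _ M hM => by
      have hM' : M.length = N := by omega
      have := c1 M (by omega)
      rw [hM'] at this
      simp only [LinearMap.sum_apply, LinearMap.comp_apply]
      rw [← sum_shift (fun n => Ph a (List.finRange (N + 1)) (A n (c M))) n1 n2 (W ^ (j : ℕ)) b1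
        fun i hi => by rw [b3 _ ⟨M, hM', rfl⟩ i (hi.trans_le
          (Nat.pow_le_pow_right (by omega) (Nat.le_of_lt_succ j.2)))]]
      refine Finset.sum_congr rfl fun n _ => ?_
      rw [a1, Ph_lmap]
      exact Ph_shift a _ (fun i => ⟨_, ha i j⟩) _
        (Sp_mono (fun v hv => Finset.mem_union_right _ hv) (hU _ _ this))
  have e5 : ∀ n, Ph a (List.finRange (N + 1)) (A n (Dk (fun i : Fin (N + 1) => x ^ W ^ (i : ℕ))
      (List.finRange (N + 1)) c)) = m := fun n => by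
    have e3 := congrArg (Ph a (List.finRange (N + 1))) (a2 n _ (WS_gr L e2))
    rw [map_smul, Ph_lmap, e1, map_add, Ph_bd, c2 _ (List.length_pos_iff.1 (by omega)) hJ.le] at e3
    simpa using e3.symm
  simp only [LinearMap.sum_apply, LinearMap.comp_apply, e5, Finset.sum_const, Nat.card_Ico,
    nsmul_eq_mul] at e4
  exact mul_ne_zero b2 hm e4

end core

section fin

variable {Z : Type} [MulAction Γ Z]

omit [IsDomain k] in
lemma TS_pow {ρ : Representation k Γ D} (F : TS P ρ) (n : ℕ) (h : G) :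
    F.1 (P.x ^ n * h) = ρ (P.ξ ^ n) (F.1 h) := by
  induction n with
  | zero => simp
  | succ n ih => rw [pow_succ', mul_assoc, F.2.1, ih, rho_rho, pow_succ']

lemma c_pow (P : Dat G Γ) (n : ℕ) (h : G) : P.c (P.x ^ n * h) = P.ξ ^ n * P.c h := by
  induction n with
  | zero => simp
  | succ n ih => rw [pow_succ', mul_assoc, P.eqv, ih, pow_succ', mul_assoc]

omit [IsDomain k] in
lemma exists_f (P : Dat G Γ) (z0 : Z) : ∃ f : B k G →ₗ[k] TS P (act k Γ Z),
    ∀ y h, (f y).1 h = lmap (fun g => P.c (h * g) • z0) y := by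
  have mem : ∀ l : List G,
      (fun h => (single (l.map fun g => P.c (h * g) • z0) 1 : B k Z)) ∈ TS P (act k Γ Z) := by
    intro l
    refine ⟨fun h => by simp [mul_assoc, P.eqv, mul_smul, Function.comp_def], ?_⟩
    have hA : (⋃ g ∈ {g | g ∈ l}, (· • z0) '' Set.range fun h => (P.c h)⁻¹ * P.c (h * g)).Finite :=
      (List.finite_toSet l).biUnion fun g _ => (P.lip g).image _
    refine ((finite_lists hA l.length).image fun l' => (single l' 1 : B k Z)).subset ?_
    rintro _ ⟨h, rfl⟩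
    refine ⟨l.map fun g => ((P.c h)⁻¹ * P.c (h * g)) • z0, ⟨by simp, fun z hz => ?_⟩,
      by simp [mul_smul, Function.comp_def]⟩
    obtain ⟨g, hg, rfl⟩ := List.mem_map.1 hz
    exact Set.mem_iUnion₂.2 ⟨g, hg, _, ⟨h, rfl⟩, rfl⟩
  refine ⟨linearCombination k fun l => ⟨_, mem l⟩, fun y h => ?_⟩
  induction y using Finsupp.induction_linear with
  | zero => simp
  | add x y a b => rw [map_add, map_add, ← a, ← b]; rfl
  | single l r => simp

omit [IsDomain k] in
lemma loc_T (L : Len G) (a : B k G →ₗ[k] TS P (act k Γ Z))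
    (a1 : ∀ γ y, a (act k G G γ y) = TR P (act k Γ Z) γ (a y))
    (n R : ℕ) : ∃ F : ℕ, ∀ V : Finset G, ∃ U : Finset Z, U.card ≤ F * V.card ∧
      ∀ (γ : Γ) (h : G), (∀ g, P.c (h * g) = γ * P.c g) → ∀ y ∈ WS k L (n + 1) R V,
        act k Γ Z γ⁻¹ ((a y).1 h) ∈ Sp k (U : Set Z) := by
  classical
  have hf := (finite_lists (L.fin R) (n + 1)).biUnion fun l _ => (a (single l 1)).2.2
  let F : Finset Z := hf.toFinset.biUnion fun w => w.support.biUnion List.toFinset
  refine ⟨F.card, fun V => ⟨Finset.image₂ (fun z g => P.c g • z) F V, Finset.card_image₂_le _ _ _,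
    fun γ h hγ y hy => sup_map (act k Γ Z γ⁻¹ ∘ₗ LinearMap.proj h ∘ₗ
      (TS P (act k Γ Z)).subtype ∘ₗ a) _ (fun l hl => ?_) hy⟩⟩
  obtain ⟨g, l', e⟩ := List.exists_cons_of_length_eq_add_one hl.1
  have hg : g ∈ l := by simp [e]
  have e1 : (single l 1 : B k G) = act k G G g (single (l.map (g⁻¹ • ·)) 1) := by
    simp [Function.comp_def]
  change act k Γ Z γ⁻¹ ((a (single l 1)).1 h) ∈ _
  rw [e1, a1, TR_apply, ← rho_inv (act k Γ Z) (P.c (h * g)) ((a _).1 (h * g)), rho_rho,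
    show γ⁻¹ * P.c (h * g) = P.c g by rw [hγ, inv_mul_cancel_left]]
  have e2 : act k Γ Z (P.c (h * g))⁻¹ ((a (single (l.map (g⁻¹ • ·)) 1)).1 (h * g)) ∈
      Sp k (F : Set Z) := by
    intro l1 h1 z hz
    refine Finset.mem_biUnion.2 ⟨_, hf.mem_toFinset.2 (Set.mem_iUnion₂.2
      ⟨l.map (g⁻¹ • ·), ⟨by simp [hl.1], fun x hx => ?_⟩, h * g, rfl⟩),
      Finset.mem_biUnion.2 ⟨l1, h1, List.mem_toFinset.2 hz⟩⟩
    obtain ⟨y, hy, rfl⟩ := List.mem_map.1 hx
    exact hl.2.1 g hg y hy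
  refine sup_map (act k Γ Z (P.c g)) _ (fun l1 h1 => ?_) e2
  rw [act_single]
  refine single_mem_supported k _ fun z hz => ?_
  obtain ⟨w, hw, rfl⟩ := List.mem_map.1 hz
  exact Finset.mem_image₂_of_mem (h1 w hw) (hl.2.2 g hg)

theorem key_RH (P : Dat G Γ) (L : Len G) (p : ℕ → G → G) (C : ℕ) (h0 : ∀ g, p 0 g = 1)
    (h1 : ∀ t g, L.len ((p t g)⁻¹ * p (t + 1) g) ≤ C)
    (h2 : ∀ R, ∃ R', ∀ t g h, L.len (g⁻¹ * h) ≤ R → L.len ((p t g)⁻¹ * p t h) ≤ R')
    (h3 : ∀ g t, C * (L.len g + 1) ≤ t → p t g = g) (hξ : ¬ IsOfFinOrder P.ξ)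
    (hΓ : RH k Γ {z | ∃ n : ℤ, n ≠ 0 ∧ IsConj (P.ξ ^ n) z}) :
    ∃ N K : ℕ, ∀ W D : ℕ, 1 ≤ D → (∀ j ≤ N, L.len (P.x ^ W ^ j) ≤ D) → W ≤ K * D ^ (N + 1) := by
  set S0 : Set Γ := {z | ∃ n : ℤ, n ≠ 0 ∧ IsConj (P.ξ ^ n) z} with hS0
  let Z := Σ H : {H : Subgroup Γ // ∀ a ∈ H, a ∉ S0}, Γ ⧸ H.1
  have hb : ∀ a ∈ (⊥ : Subgroup Γ), a ∉ S0 := by
    rintro a ha ⟨n, hn, e⟩
    rw [Subgroup.mem_bot.1 ha, isConj_one_left] at e
    exact hn (injective_zpow_iff_not_isOfFinOrder.2 hξ (e.trans (zpow_zero _).symm))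
  let z0 : Z := ⟨⟨⊥, hb⟩, (1 : Γ)⟩
  obtain ⟨Q, q1, q2, q3⟩ : ∃ Q : Dat G Γ, Q.c = P.c ∧ (CharZero k → Q.ξ = 1) ∧
      (CharZero k ∨ Q = P) := by
    by_cases e : CharZero k
    · exact ⟨⟨1, 1, P.c, fun g => by simp, P.lip⟩, rfl, fun _ => rfl, Or.inl e⟩
    · exact ⟨P, rfl, fun e' => absurd e' e, Or.inr rfl⟩
  have hN : NT Q (barZ k Γ Z) := nt_point ((1 : Γ) : _) _ (nt_RH (finType ⟨L, p, C, h0, h1, h2, h3⟩)
    z0 q2 S0 (fun H hH => ⟨⟨⟨H, hH⟩, (1 : Γ)⟩, fun a ha => congrArg (Sigma.mk _)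
      (QuotientGroup.eq.2 (by simpa using ha))⟩) hΓ _ Function.injective_id fun _ h => h)
  obtain ⟨f, hf⟩ := exists_f (k := k) Q z0
  obtain ⟨m, hm, a, a1, a2⟩ := hN 1 one_ne_zero f
    (fun γ y => Subtype.ext (funext fun h => by
      change (f _).1 h = (f y).1 (h * γ)
      rw [hf, hf, act_apply]
      simp only [lmap, lmapDomain_apply, ← mapDomain_comp, List.map_map, Function.comp_def,
        smul_eq_mul, mul_assoc]))
    (Eventually.of_forall fun n y _ => Subtype.ext (funext fun h => by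
      rw [one_smul]
      change bd ((f y).1 h) = (f _).1 h
      rw [hf, hf, bd_lmap]))
  obtain ⟨N, a2⟩ := eventually_atTop.1 a2
  let := MulAction.compHom Z (zpowersHom Γ P.ξ)
  obtain ⟨r, hr⟩ := exists_triv (G := Multiplicative ℤ) (X := Z) ⊥ Set.univ (fun _ _ _ => trivial)
    fun z _ γ h => by
      obtain ⟨H, q⟩ := z
      induction q using QuotientGroup.induction_on with
      | H g =>
        have e : ((P.ξ ^ γ.toAdd * g : Γ) : Γ ⧸ H.1) = (g : Γ) :=
          eq_of_heq (Sigma.mk.inj_iff.1 h).2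
        by_contra hγ
        refine H.2 _ (QuotientGroup.eq.1 e.symm) ⟨γ.toAdd, fun e' => hγ ?_,
          isConj_iff.2 ⟨g⁻¹, by rw [inv_inv, mul_assoc]⟩⟩
        exact Subgroup.mem_bot.2 (toAdd_eq_zero.1 e')
  refine ⟨N, coreZ L p C h0 h1 h2 h3 m hm P.x (fun n z => P.ξ ^ n • z) (fun z => (r z).toAdd)
    (fun n z => ?_) (fun g => P.c g • z0) (fun n g => by rw [c_pow, mul_smul])
    (fun n => act k Γ Z (P.ξ ^ n)⁻¹ ∘ₗ LinearMap.proj (P.x ^ n) ∘ₗ (TS Q (act k Γ Z)).subtype ∘ₗ a)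
    (fun n j y => ?_) N (fun n y hy => ?_) (fun R => ?_) fun Y w hY => ?_⟩
  · have := hr (Multiplicative.ofAdd (n : ℤ)) z trivial
    rw [Subgroup.mem_bot, mul_assoc, inv_mul_eq_one] at this
    have e : (Multiplicative.ofAdd (n : ℤ)) • z = P.ξ ^ n • z := by
      change P.ξ ^ (n : ℤ) • z = _
      rw [zpow_natCast]
    rw [← e, this, toAdd_mul, toAdd_ofAdd]
  · change act k Γ Z (P.ξ ^ n)⁻¹ ((a _).1 (P.x ^ n)) =
      act k Γ Z (P.ξ ^ j) (act k Γ Z (P.ξ ^ (n + j))⁻¹ ((a y).1 (P.x ^ (n + j))))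
    rw [a1, rho_rho, pow_add, pow_add, mul_inv_rev, mul_inv_cancel_left]
    rfl
  · have := congrFun (congrArg Subtype.val (a2 (N + 2) (by omega) y hy)) (P.x ^ n)
    rw [one_smul] at this
    change m • (f y).1 (P.x ^ n) = bd ((a y).1 (P.x ^ n)) + (a (bd y)).1 (P.x ^ n) at this
    have := congrArg (act k Γ Z (P.ξ ^ n)⁻¹) this
    rw [hf, map_smul, map_add, act_apply, act_apply _ (bd _), ← bd_lmap] at this
    simp only [lmap, lmapDomain_apply, ← mapDomain_comp, List.map_map, Function.comp_def, q1, c_pow,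
      mul_smul, inv_smul_smul] at this
    exact this
  · obtain ⟨F, hF⟩ := loc_T L a a1 N R
    refine ⟨F, fun V => ?_⟩
    obtain ⟨U, u1, u2⟩ := hF V
    exact ⟨U, u1, fun n => u2 _ _ fun g => by rw [q1, c_pow]⟩
  · rcases q3 with e | rfl
    · have hfin : (⋃ y ∈ Y, act k Γ Z (P.c 1) '' Set.range fun h =>
          act k Γ Z (Q.c h)⁻¹ ((a y).1 h)).Finite := hY.biUnion fun y _ => (a y).2.2.image _
      have := hY.to_subtype
      have := hfin.to_subtype
      obtain ⟨n1, n2, b1, b2⟩ := Finite.exists_ne_map_eq_of_infinite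
        fun (n : ℕ) (y : Y) (i : Fin w) => (⟨act k Γ Z (P.ξ ^ (n + i))⁻¹ ((a y).1 (P.x ^ (n + i))),
          Set.mem_iUnion₂.2 ⟨y.1, y.2, _, ⟨P.x ^ (n + i), rfl⟩, by
            have := c_pow P (n + i) 1
            rw [mul_one] at this
            simp only [rho_rho, q1, this, mul_inv_rev, mul_inv_cancel_left]⟩⟩ : (⋃ y ∈ Y,
          act k Γ Z (P.c 1) '' Set.range fun h => act k Γ Z (Q.c h)⁻¹ ((a y).1 h) : Set _))
      have b3 : ∀ y ∈ Y, ∀ i < w, act k Γ Z (P.ξ ^ (n1 + i))⁻¹ ((a y).1 (P.x ^ (n1 + i))) =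
          act k Γ Z (P.ξ ^ (n2 + i))⁻¹ ((a y).1 (P.x ^ (n2 + i))) := fun y hy i hi =>
        congrArg Subtype.val (congrFun (congrFun b2 ⟨y, hy⟩) ⟨i, hi⟩)
      rcases lt_or_gt_of_ne b1 with b | b
      · exact ⟨n1, n2, b.le, Nat.cast_ne_zero.2 (by omega), b3⟩
      · exact ⟨n2, n1, b.le, Nat.cast_ne_zero.2 (by omega), fun y hy i hi => (b3 y hy i hi).symm⟩
    · have key : ∀ n y, act k Γ Z (Q.ξ ^ n)⁻¹ ((a y).1 (Q.x ^ n)) = (a y).1 1 := fun n y => by
        rw [← mul_one (Q.x ^ n), TS_pow]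
        exact (rho_rho (act k Γ Z) _ _ _).trans (by simp)
      exact ⟨0, 1, by omega, by simp, fun y _ i _ => (key _ y).trans (key _ y).symm⟩

end fin

end Pool.Agent.Lib.MP_2fb4be_al.Sol.K
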