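import Pool.Agent.Lib.MP_2fb4be_al.FD.Main
import Pool.Agent.Lib.MP_2fb4be_al.FD.Rel

/-!
A distorted element of a combable group is not seen by finite-dimensional data.
-/

set_option autoImplicit false

noncomputable section

namespace Pool.Agent.Lib.MP_2fb4be_al.Sol

open Filter

variable {G Γ : Type} [Group G] [Group Γ]

lemma len_word' (L : Len G) (S : Finset G) :
    ∃ c, ∀ w : List G, (∀ s ∈ w, s ∈ S) → L.len w.prod ≤ c * w.length := by
  refine ⟨S.sup L.len, fun w hw => ?_⟩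
  induction w with
  | nil => simp [L.one]
  | cons s w ih =>
    have a := ih fun s hs => hw s (List.mem_cons_of_mem _ hs)
    have b : L.len s ≤ S.sup L.len := Finset.le_sup (hw s List.mem_cons_self)
    have e := L.mul s w.prod
    rw [List.prod_cons, List.length_cons, mul_add]
    omega

theorem rel_undistorted (hG : Combable G) (P : K.Dat G Γ) (k : Type) [CommRing k] [IsDomain k]
    (hΓ : RH k Γ {z | ∃ n : ℤ, n ≠ 0 ∧ IsConj (P.ξ ^ n) z}) (S : Finset G)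
    (h : ∀ e : ℕ, ∀ᶠ n in atTop, ∃ w : List G, (∀ s ∈ w, s ∈ S) ∧ w.prod = P.x ^ n ∧
      w.length ^ e ≤ n) : IsOfFinOrder P.ξ := by
  by_contra hx
  obtain ⟨L, p, C, h0, h1, h2, h3⟩ := hG
  obtain ⟨N, K0, hK⟩ := K.key_RH P L p C h0 h1 h2 h3 hx hΓ
  obtain ⟨c, hw⟩ := len_word' L S
  obtain ⟨n0, hn⟩ := eventually_atTop.1 (h ((N + 2) * N + 1))
  obtain ⟨b, hb⟩ : ∃ b, b = c + L.len P.x + 1 := ⟨_, rfl⟩
  obtain ⟨M, hM⟩ : ∃ M, M = K0 * b ^ (N + 1) + n0 + 1 := ⟨_, rfl⟩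
  have hM1 : 1 ≤ M := by omega
  have := hK (M ^ (N + 2)) (b * M) (Nat.mul_pos (by omega) hM1) fun j hj => by
    rcases Nat.eq_zero_or_pos j with rfl | hj0
    · simp only [pow_zero, pow_one]
      exact le_trans (by omega) (Nat.le_mul_of_pos_right b hM1)
    · have e1 : M ≤ (M ^ (N + 2)) ^ j := by
        rw [← pow_mul]
        exact Nat.le_self_pow (by positivity) M
      obtain ⟨w, w1, w2, w3⟩ := hn ((M ^ (N + 2)) ^ j) (le_trans (by omega) e1)
      have e2 : w.length ≤ M := by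
        refine (Nat.pow_le_pow_iff_left (Nat.succ_ne_zero _)).1 (w3.trans ?_)
        rw [← pow_mul]
        exact Nat.pow_le_pow_right hM1 ((Nat.mul_le_mul_left _ hj).trans (Nat.le_succ _))
      rw [← w2]
      exact (hw w w1).trans (Nat.mul_le_mul (by omega) e2)
  rw [mul_pow, ← mul_assoc, pow_succ' M (N + 1)] at this
  have := Nat.le_of_mul_le_mul_right this (pow_pos hM1 _)
  omega

theorem rel_bs (hG : Combable G) (x y : G) (p q : ℤ) (hpq : |p| ≠ |q|)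
    (h : y * x ^ p * y⁻¹ = x ^ q) (ξ : Γ) (c : G → Γ) (h1 : ∀ g, c (x * g) = ξ * c g)
    (h2 : ∀ s, (Set.range fun g => (c g)⁻¹ * c (g * s)).Finite) (k : Type) [CommRing k]
    [IsDomain k] (hΓ : RH k Γ {z | ∃ n : ℤ, n ≠ 0 ∧ IsConj (ξ ^ n) z}) : IsOfFinOrder ξ := by
  have : p.natAbs ≠ q.natAbs := fun e => hpq (by rw [Int.abs_eq_natAbs, e, Int.abs_eq_natAbs])
  rcases lt_or_gt_of_ne this with e | e
  · obtain ⟨S, hS⟩ := bs_short x y p q e h
    exact rel_undistorted hG ⟨x, ξ, c, h1, h2⟩ k hΓ S hS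
  · obtain ⟨S, hS⟩ := bs_short x y⁻¹ q p e (by rw [← h]; group)
    exact rel_undistorted hG ⟨x, ξ, c, h1, h2⟩ k hΓ S hS

/-- The absolute hierarchy is contained in the relative one. -/
theorem RH_of_LH {k : Type} [CommRing k] {K : Type} [Group K] (h : LH k K) :
    ∀ S : Set K, (∀ z ∈ S, ¬ IsOfFinOrder z) → RH k K S := by
  induction h with
  | fin K _ =>
    intro S hS
    rw [Set.eq_empty_of_forall_notMem fun z hz => hS z hz (isOfFinOrder_of_finite z)]
    exact RH.base K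
  | fd K P N h => exact fun S _ => RH.fd K S P N h
  | act K X d ε hd hε h0 h1 h2 N hN _ ih =>
    exact fun S hS => RH.act K S X d ε hd hε h0 h1 h2 N hN fun n x =>
      ih n x _ fun z hz e => hS _ hz ((MulAction.stabilizer K x).subtype.isOfFinOrder e)
  | loc K _ ih =>
    exact fun S hS => RH.loc K S fun H hH =>
      ih H hH _ fun z hz e => hS _ hz (H.subtype.isOfFinOrder e)

lemma not_fin_of_conj {ξ : Γ} (hξ : ¬ IsOfFinOrder ξ) :
    ∀ z ∈ {z | ∃ n : ℤ, n ≠ 0 ∧ IsConj (ξ ^ n) z}, ¬ IsOfFinOrder z := by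
  rintro z ⟨n, hn, e⟩ hz
  obtain ⟨j, hj, e'⟩ := isOfFinOrder_iff_pow_eq_one.1 (e.symm.isOfFinOrder hz)
  rw [← zpow_natCast, ← zpow_mul] at e'
  exact hξ (isOfFinOrder_iff_zpow_eq_one.2 ⟨_, mul_ne_zero hn (by omega), e'⟩)

/-- Homomorphisms from subgroups of finite index: the earlier result is the case of the identity. -/
theorem rel_hom (hG : Combable G) (x y : G) (p q : ℤ) (hpq : |p| ≠ |q|)
    (h : y * x ^ p * y⁻¹ = x ^ q) (H : Subgroup G) [H.FiniteIndex] (φ : H →* Γ) (a : ℕ)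
    (ha : x ^ a ∈ H) (k : Type) [CommRing k] [IsDomain k] (hΓ : LH k Γ) :
    IsOfFinOrder (φ ⟨x ^ a, ha⟩) := by
  by_contra hξ
  have m : ∀ g : G, g * ((g⁻¹ : G) : G ⧸ H).out ∈ H := fun g => by
    simpa using QuotientGroup.eq.1 (QuotientGroup.out_eq' ((g⁻¹ : G) : G ⧸ H)).symm
  refine hξ (rel_bs hG (x ^ a) y p q hpq ?_ _ (fun g => φ ⟨_, m g⟩) (fun g => ?_) (fun s => ?_) k
    (RH_of_LH hΓ _ (not_fin_of_conj hξ)))
  · rw [← zpow_natCast, ← zpow_mul, ← zpow_mul, mul_comm (a : ℤ), mul_comm (a : ℤ), zpow_mul,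
      zpow_mul, ← h, conj_zpow]
  · rw [← map_mul]
    refine congrArg φ (Subtype.ext ?_)
    have : (((x ^ a * g)⁻¹ : G) : G ⧸ H) = (g⁻¹ : G) := QuotientGroup.eq.2 (by simpa using ha)
    simp only [this, Subgroup.coe_mul, mul_assoc]
  · refine ((((Set.finite_univ (α := (G ⧸ H) × (G ⧸ H))).image
      fun z => z.1.out⁻¹ * s * z.2.out).preimage Subtype.val_injective.injOn).image φ).subset ?_
    rintro _ ⟨g, rfl⟩
    refine ⟨⟨_, m g⟩⁻¹ * ⟨_, m (g * s)⟩, ⟨(((g⁻¹ : G) : G ⧸ H), (((g * s)⁻¹ : G) : G ⧸ H)),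
      trivial, ?_⟩, by rw [map_mul, map_inv]⟩
    simp only [Subgroup.coe_mul, Subgroup.coe_inv]
    group

theorem hierarchy_hosts (hG : IsAutomatic G) (k : Type) [CommRing k] [IsDomain k]
    (H : Subgroup G) [H.FiniteIndex] (hH : LH k H) (x y : G) (p q : ℤ) (hpq : |p| ≠ |q|)
    (h : y * x ^ p * y⁻¹ = x ^ q) : IsOfFinOrder x := by
  obtain ⟨a, ha, -, hxa⟩ := Subgroup.exists_pow_mem_of_index_ne_zero
    (Subgroup.FiniteIndex.index_ne_zero (H := H)) x
  exact (H.subtype.isOfFinOrder (rel_hom (combable_of_automatic hG) x y p q hpq h H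
    (MonoidHom.id H) a hxa k hH)).of_pow ha.ne'

end Pool.Agent.Lib.MP_2fb4be_al.Sol
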