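import Pool.Agent.Lib.MP_2fb4be_al.Sol.KMain
import Pool.Agent.Lib.MP_f0c981_al.Resol

/-!
Cubes of commuting elements filled along a combing, and the resulting bound on the distortion of
cyclic subgroups when a nonzero multiple of the identity of the bar complex is null-homotopic.
-/

set_option autoImplicit false

noncomputable section

namespace Pool.Agent.Lib.MP_2fb4be_al.Sol.K

open Finsupp hiding cons
open Filter Pool.Agent.Lib.MP_f0c981_al

variable {k : Type} [CommRing k] {G : Type} [Group G]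

/-- Chains with vertices in `V`. -/
def Sp (k : Type) [CommRing k] {S : Type} (V : Set S) : Submodule k (B k S) :=
  supported k k {l | ∀ x ∈ l, x ∈ V}

section sp

variable {S : Type} {V : Set S}

lemma Sp_cons {a : S} (ha : a ∈ V) {y : B k S} (hy : y ∈ Sp k V) : cons a y ∈ Sp k V := by
  refine sup_map (cons a) _ (fun l hl => ?_) hy
  rw [cons_single]
  refine single_mem_supported k _ fun x hx => ?_
  rcases List.mem_cons.1 hx with rfl | hx
  · exact ha
  · exact hl x hx

lemma Sp_bd {y : B k S} (hy : y ∈ Sp k V) : bd y ∈ Sp k V := by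
  refine sup_map bd _ (fun l hl => ?_) hy
  induction l with
  | nil => simp
  | cons a l ih =>
    have h : ∀ x ∈ l, x ∈ V := fun x hx => hl x (List.mem_cons_of_mem _ hx)
    rw [bd_single_cons]
    exact sub_mem (single_mem_supported k _ h) (Sp_cons (hl a List.mem_cons_self) (ih h))

lemma Sp_Mh (a : S → k) {y : B k S} (hy : y ∈ Sp k V) : Mh a y ∈ Sp k V := by
  refine sup_map (Mh a) _ (fun l hl => ?_) hy
  cases l with
  | nil => simp
  | cons g l =>
    rw [← cons_single, Mh_cons, cons_single]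
    exact Submodule.smul_mem _ _ (single_mem_supported k _ hl)

lemma Sp_mono {V' : Set S} (h : V ⊆ V') {y : B k S} (hy : y ∈ Sp k V) : y ∈ Sp k V' :=
  supported_mono (s := {l | ∀ x ∈ l, x ∈ V}) (fun _ hl x hx => h (hl x hx)) hy

end sp

lemma Sp_act (t : G) {V V' : Set G} (h : ∀ v ∈ V, t * v ∈ V') {y : B k G} (hy : y ∈ Sp k V) :
    act k G G t y ∈ Sp k V' := by
  refine sup_map (act k G G t) _ (fun l hl => ?_) hy
  rw [act_single]
  refine single_mem_supported k _ fun x hx => ?_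
  obtain ⟨a, ha, rfl⟩ := List.mem_map.1 hx
  exact h a (hl a ha)

lemma Mh_act_loc (a : G → k) (t : G) (c : k) {V : Set G} (h : ∀ g ∈ V, a (t * g) = a g + c)
    {y : B k G} (hy : y ∈ Sp k V) :
    Mh a (act k G G t y) = act k G G t (Mh a y) + c • (act k G G t y - single [] (y [])) := by
  have := sup_map (Mh a ∘ₗ act k G G t - (act k G G t ∘ₗ Mh a +
    c • (act k G G t - lsingle [] ∘ₗ lapply []))) ⊥ (fun l hl => ?_) hy
  · exact sub_eq_zero.1 this
  · rw [Submodule.mem_bot, LinearMap.sub_apply, sub_eq_zero]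
    change Mh a (act k G G t (single l 1)) = act k G G t (Mh a (single l 1)) +
      c • (act k G G t (single l 1) - single [] ((single l 1 : B k G) []))
    cases l with
    | nil => simp
    | cons g l =>
      have : (single (g :: l) 1 : B k G) [] = 0 := by simp
      rw [this, ← cons_single, Mh_cons, act_apply, lmap_cons, Mh_cons, map_smul, act_apply,
        lmap_cons, smul_eq_mul, h g (hl g List.mem_cons_self), add_smul]
      simp

/-- Chains of given length and mesh with vertices in `V`. -/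
def WS (k : Type) [CommRing k] (L : Len G) (n R : ℕ) (V : Set G) : Submodule k (B k G) :=
  supported k k {l | l.length = n ∧ (∀ x ∈ l, ∀ y ∈ l, L.len (x⁻¹ * y) ≤ R) ∧ ∀ x ∈ l, x ∈ V}

lemma WS_gr (L : Len G) {n R : ℕ} {V : Set G} {x : B k G} (hx : x ∈ WS k L n R V) :
    x ∈ gr k G n :=
  sup_map LinearMap.id _ (fun _ hl => single_mem_gr hl.1 1) hx

lemma WS_Sp (L : Len G) {n R : ℕ} {V : Set G} {x : B k G} (hx : x ∈ WS k L n R V) :
    x ∈ Sp k V :=
  supported_mono (fun _ hl => hl.2.2) hx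

lemma WS_mono (L : Len G) {n R R' : ℕ} {V V' : Set G} (h1 : R ≤ R') (h2 : V ⊆ V') {x : B k G}
    (hx : x ∈ WS k L n R V) : x ∈ WS k L n R' V' := by
  refine supported_mono (fun _ hl => ?_) hx
  exact ⟨hl.1, fun x hx y hy => (hl.2.1 x hx y hy).trans h1, fun x hx => h2 (hl.2.2 x hx)⟩

lemma WS_act (L : Len G) {n R : ℕ} (t : G) {V V' : Set G} (h : ∀ v ∈ V, t * v ∈ V') {x : B k G}
    (hx : x ∈ WS k L n R V) : act k G G t x ∈ WS k L n R V' := by
  refine sup_map (act k G G t) _ (fun l hl => ?_) hx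
  rw [act_single]
  refine single_mem_supported k _ ⟨by simp [hl.1], fun x hx y hy => ?_, fun x hx => ?_⟩
  · obtain ⟨a, ha, rfl⟩ := List.mem_map.1 hx
    obtain ⟨b, hb, rfl⟩ := List.mem_map.1 hy
    simpa [mul_assoc] using hl.2.1 a ha b hb
  · obtain ⟨a, ha, rfl⟩ := List.mem_map.1 hx
    exact h a (hl.2.2 a ha)

lemma fillS (L : Len G) (p : ℕ → G → G) (C : ℕ) (h0 : ∀ g, p 0 g = 1)
    (h1 : ∀ t g, L.len ((p t g)⁻¹ * p (t + 1) g) ≤ C) (R R1 : ℕ)
    (hR : ∀ t g h, L.len (g⁻¹ * h) ≤ R → L.len ((p t g)⁻¹ * p t h) ≤ R1) (T : ℕ) (V V' : Set G)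
    (v1 : ∀ v ∈ V, p T v = v) (v2 : 1 ∈ V') (v3 : ∀ v ∈ V, ∀ t ≤ T, p t v ∈ V') (n : ℕ)
    (y : B k G) (hy : y ∈ WS k L n R V) (hc : bd y = 0) :
    ∃ x ∈ WS k L (n + 1) (R1 + C) V', bd x = y := by
  have hT : lmap (p T) y = y := by
    have := sup_map (lmap (p T) - LinearMap.id) ⊥ (fun l hl => ?_) hy
    · exact sub_eq_zero.1 this
    · rw [Submodule.mem_bot, LinearMap.sub_apply, sub_eq_zero, lmap_single, LinearMap.id_apply,
        List.map_congr_left (g := id) fun x hx => v1 x (hl.2.2 x hx), List.map_id]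
  have hsum : ∀ T, bd (∑ t ∈ Finset.range T, pr (p t) (p (t + 1)) y) =
      lmap (p T) y - lmap (p 0) y := by
    intro T
    induction T with
    | zero => simp
    | succ T ih =>
      have := bd_pr (p T) (p (T + 1)) y
      rw [hc, map_zero, add_zero] at this
      rw [Finset.sum_range_succ, map_add, ih, this]
      abel
  refine ⟨∑ t ∈ Finset.range T, pr (p t) (p (t + 1)) y + cons 1 (lmap (p 0) y),
    add_mem (sum_mem fun t ht => ?_) ?_, ?_⟩
  · have ht' := Finset.mem_range.1 ht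
    refine sup_map (pr (p t) (p (t + 1))) _ (fun l hl => ?_) hy
    rw [pr_single, one_smul]
    refine supported_mono ?_ (prL_sup (p t) (p (t + 1))
      {z | ∃ x ∈ l, z = p t x ∨ z = p (t + 1) x} l (fun x hx => ⟨x, hx, Or.inl rfl⟩)
      fun x hx => ⟨x, hx, Or.inr rfl⟩)
    rintro l' ⟨e1, e2⟩
    refine ⟨by rw [e1, hl.1], fun x hx y hy => ?_, fun x hx => ?_⟩
    · have key : ∀ a ∈ l, ∀ b ∈ l, L.len ((p t a)⁻¹ * p (t + 1) b) ≤ R1 + C := by
        intro a ha b hb
        have e : (p t a)⁻¹ * p (t + 1) b =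
            ((p t a)⁻¹ * p t b) * ((p t b)⁻¹ * p (t + 1) b) := by group
        rw [e]
        exact (L.mul _ _).trans (add_le_add (hR t a b (hl.2.1 a ha b hb)) (h1 t b))
      obtain ⟨a, ha, rfl | rfl⟩ := e2 x hx <;> obtain ⟨b, hb, rfl | rfl⟩ := e2 y hy
      · exact (hR t a b (hl.2.1 a ha b hb)).trans (Nat.le_add_right _ _)
      · exact key a ha b hb
      · rw [← L.inv, mul_inv_rev, inv_inv]
        exact key b hb a ha
      · exact (hR _ a b (hl.2.1 a ha b hb)).trans (Nat.le_add_right _ _)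
    · obtain ⟨a, ha, rfl | rfl⟩ := e2 x hx
      · exact v3 a (hl.2.2 a ha) _ ht'.le
      · exact v3 a (hl.2.2 a ha) _ ht'
  · refine sup_map (cons 1 ∘ₗ lmap (p 0)) _ (fun l hl => ?_) hy
    rw [LinearMap.comp_apply, lmap_single, cons_single]
    have key : ∀ z ∈ (1 : G) :: l.map (p 0), z = 1 := by
      intro z hz
      rcases List.mem_cons.1 hz with rfl | hz
      · rfl
      · obtain ⟨x, _, rfl⟩ := List.mem_map.1 hz
        exact h0 x
    refine single_mem_supported k _ ⟨by simp [hl.1], fun x hx y hy => ?_, fun x hx => ?_⟩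
    · rw [key x hx, key y hy, inv_one, mul_one, L.one]
      exact Nat.zero_le _
    · rw [key x hx]
      exact v2
  · rw [map_add, hsum, hT, bd_cons, bd_lmap, hc]
    simp

section koszul

variable {ι : Type}

/-- The Koszul boundary of a family of chains indexed by lists. -/
def Dk (T : ι → G) : List ι → (List ι → B k G) → B k G
  | [], _ => 0
  | i :: J, c => act k G G (T i) (c J) - c J - Dk T J fun M => c (i :: M)

lemma Dk_mem (T : ι → G) (W : Submodule k (B k G)) (J : List ι) (c : List ι → B k G)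
    (h : ∀ j ∈ J, ∀ M : List ι, M.length + 1 = J.length → act k G G (T j) (c M) - c M ∈ W) :
    Dk T J c ∈ W := by
  induction J generalizing c with
  | nil => exact zero_mem _
  | cons i J ih =>
    exact sub_mem (h i List.mem_cons_self J rfl)
      (ih _ fun j hj M hM => h j (List.mem_cons_of_mem _ hj) _ (by simp [hM]))

lemma Dk_kill (T : ι → G) (ψ : B k G →ₗ[k] k) (J : List ι) (c : List ι → B k G)
    (h : ∀ j ∈ J, ∀ M : List ι, M.length + 1 = J.length →
      ψ (act k G G (T j) (c M)) = ψ (c M)) : ψ (Dk T J c) = 0 :=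
  Dk_mem T (LinearMap.ker ψ) J c fun j hj M hM => by
    rw [LinearMap.mem_ker, map_sub, h j hj M hM, sub_self]

lemma Dk_sub (T : ι → G) (J : List ι) (c c' : List ι → B k G) :
    Dk T J (fun M => c M - c' M) = Dk T J c - Dk T J c' := by
  induction J generalizing c c' with
  | nil => simp [Dk]
  | cons i J ih =>
    simp only [Dk, ih, map_sub]
    abel

lemma Dk_congr (T : ι → G) (J : List ι) (c c' : List ι → B k G)
    (h : ∀ M : List ι, M.length + 1 = J.length → c M = c' M) : Dk T J c = Dk T J c' := by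
  rw [← sub_eq_zero, ← Dk_sub]
  exact Dk_mem T ⊥ J _ fun j _ M hM => by simp [h M hM]

lemma Dk_map (T : ι → G) (f : B k G →ₗ[k] B k G)
    (hf : ∀ i x, f (act k G G (T i) x) = act k G G (T i) (f x)) (J : List ι)
    (c : List ι → B k G) : f (Dk T J c) = Dk T J fun M => f (c M) := by
  induction J generalizing c with
  | nil => simp [Dk]
  | cons i J ih => simp only [Dk, map_sub, ih, hf]

lemma Dk_Dk (T : ι → G) (hT : ∀ i j, T i * T j = T j * T i) (J : List ι)
    (c : List ι → B k G) : (Dk T J fun M => Dk T M c) = 0 := by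
  induction J generalizing c with
  | nil => rfl
  | cons i J ih =>
    have := Dk_map T (act k G G (T i)) (fun j x => by rw [act_mul, act_mul, hT]) J c
    simp only [Dk, Dk_sub, ih, this]
    abel

lemma len_p (L : Len G) (p : ℕ → G → G) (C : ℕ) (h0 : ∀ g, p 0 g = 1)
    (h1 : ∀ t g, L.len ((p t g)⁻¹ * p (t + 1) g) ≤ C) (t : ℕ) (g : G) :
    L.len (p t g) ≤ C * t := by
  induction t with
  | zero => simp [h0, L.one]
  | succ t ih =>
    have := L.mul (p t g) ((p t g)⁻¹ * p (t + 1) g)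
    rw [mul_inv_cancel_left] at this
    have := h1 t g
    rw [mul_add]
    omega

lemma exists_c [Fintype ι] (L : Len G) (p : ℕ → G → G) (C : ℕ) (h0 : ∀ g, p 0 g = 1)
    (h1 : ∀ t g, L.len ((p t g)⁻¹ * p (t + 1) g) ≤ C)
    (h2 : ∀ R, ∃ R', ∀ t g h, L.len (g⁻¹ * h) ≤ R → L.len ((p t g)⁻¹ * p t h) ≤ R')
    (h3 : ∀ g t, C * (L.len g + 1) ≤ t → p t g = g) (n : ℕ) :
    ∃ R K : ℕ, ∀ (T : ι → G) (D : ℕ), 1 ≤ D → (∀ i j, T i * T j = T j * T i) →
      (∀ i, L.len (T i) ≤ D) → ∃ (c : List ι → B k G) (V : Finset G), V.card ≤ K * D ^ n ∧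
        (∀ v ∈ V, L.len v ≤ K * D) ∧ bd (c []) = single [] 1 ∧
        (∀ J : List ι, J.length ≤ n → c J ∈ WS k L (J.length + 1) R V) ∧
        ∀ J : List ι, J ≠ [] → J.length ≤ n → bd (c J) = Dk T J c := by
  classical
  induction n with
  | zero =>
    refine ⟨0, 1, fun T D _ _ _ => ⟨fun _ => single [1] 1, {1}, by simp, by simp [L.one],
      by simp [bd_single_cons], fun J hJ => ?_, fun J h hJ => ?_⟩⟩
    · exact single_mem_supported k _ ⟨by rw [Nat.le_zero.1 hJ]; rfl, by simp [L.one], by simp⟩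
    · exact absurd (List.length_eq_zero_iff.1 (by omega)) h
  | succ n ih =>
    obtain ⟨R, K, ih⟩ := ih
    obtain ⟨R1, hR⟩ := h2 R
    obtain ⟨a, ha⟩ : ∃ a, a = C * (K + 2) := ⟨_, rfl⟩
    obtain ⟨b, hb⟩ : ∃ b, b = (Fintype.card ι + 1) * K := ⟨_, rfl⟩
    refine ⟨R + (R1 + C), 1 + (a + 1) * b + C * a, fun T D hD hT hl => ?_⟩
    obtain ⟨c, V, v1, v2, c0, c1, c2⟩ := ih T D hD hT hl
    let U : Finset G := V ∪ Finset.univ.biUnion fun i => V.image (T i * ·)
    have u1 : U.card ≤ b * D ^ n := by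
      refine (Finset.card_union_le _ _).trans ?_
      have := Finset.card_biUnion_le_card_mul Finset.univ (fun i => V.image (T i * ·)) V.card
        fun i _ => Finset.card_image_le
      rw [Finset.card_univ] at this
      calc _ ≤ (Fintype.card ι + 1) * V.card := by rw [add_mul, one_mul]; omega
        _ ≤ (Fintype.card ι + 1) * (K * D ^ n) := Nat.mul_le_mul_left _ v1
        _ = _ := by rw [hb, mul_assoc]
    have u2 : ∀ v ∈ U, p (a * D) v = v := fun v hv => by
      refine h3 v _ ?_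
      rw [ha, mul_assoc]
      refine Nat.mul_le_mul_left _ ?_
      rw [add_mul]
      rcases Finset.mem_union.1 hv with hv | hv
      · have := v2 v hv
        omega
      · obtain ⟨i, -, hi⟩ := Finset.mem_biUnion.1 hv
        obtain ⟨w, hw, rfl⟩ := Finset.mem_image.1 hi
        have := v2 w hw
        have := hl i
        have := L.mul (T i) w
        omega
    let V' : Finset G := insert 1 ((Finset.range (a * D + 1) ×ˢ U).image fun z => p z.1 z.2)
    have w1 : ∀ v ∈ U, ∀ t ≤ a * D, p t v ∈ V' := fun v hv t ht =>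
      Finset.mem_insert_of_mem (Finset.mem_image.2 ⟨(t, v), Finset.mem_product.2
        ⟨Finset.mem_range.2 (Nat.lt_succ_of_le ht), hv⟩, rfl⟩)
    have w2 : (V : Set G) ⊆ U := fun v hv => Finset.mem_union_left _ hv
    have w3 : (V : Set G) ⊆ V' := fun v hv => by
      rw [← u2 v (w2 hv)]
      exact w1 v (w2 hv) _ le_rfl
    have hex : ∀ J : List ι, ∃ x, J.length = n + 1 →
        x ∈ WS k L (n + 2) (R1 + C) V' ∧ bd x = Dk T J c := fun J => by
      by_cases hJ : J.length = n + 1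
      · obtain ⟨x, x1, x2⟩ := fillS L p C h0 h1 R R1 hR (a * D) U V' u2
          (Finset.mem_insert_self _ _) w1 (n + 1) (Dk T J c)
          (Dk_mem T _ J c fun j _ M hM => by
            have hM' : M.length = n := by omega
            have := c1 M hM'.le
            rw [hM'] at this
            exact sub_mem (WS_act L _ (fun v hv => Finset.mem_union_right _
              (Finset.mem_biUnion.2 ⟨j, Finset.mem_univ _, Finset.mem_image_of_mem _ hv⟩)) this)
              (WS_mono L le_rfl w2 this))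
          (by
            rw [Dk_map T bd (fun i x => bd_act _ x)]
            rcases Nat.eq_zero_or_pos n with rfl | hn
            · obtain ⟨i, rfl⟩ := List.length_eq_one_iff.1 hJ
              simp [Dk, c0]
            · rw [Dk_congr T J _ (fun M => Dk T M c) fun M hM =>
                c2 M (List.length_pos_iff.1 (by omega)) (by omega), Dk_Dk T hT])
        exact ⟨x, fun _ => ⟨x1, x2⟩⟩
      · exact ⟨0, fun h => absurd h hJ⟩
    choose x hx using hex
    refine ⟨fun J => if J.length = n + 1 then x J else c J, V', ?_, fun v hv => ?_,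
      by simpa using c0, fun J hJ => ?_, fun J h hJ => ?_⟩
    · refine (Finset.card_insert_le _ _).trans ?_
      have e1 := Finset.card_image_le (s := Finset.range (a * D + 1) ×ˢ U)
        (f := fun z => p z.1 z.2)
      rw [Finset.card_product, Finset.card_range] at e1
      have e2 : (a * D + 1) * U.card ≤ ((a + 1) * D) * (b * D ^ n) :=
        Nat.mul_le_mul (by rw [add_mul]; omega) u1
      have e3 : 1 ≤ D ^ (n + 1) := Nat.one_le_pow _ _ hD
      have e4 : ((a + 1) * D) * (b * D ^ n) = (a + 1) * b * D ^ (n + 1) := by ring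
      rw [add_mul, add_mul]
      omega
    · rcases Finset.mem_insert.1 hv with rfl | hv
      · simp [L.one]
      · obtain ⟨⟨t, w⟩, hw, rfl⟩ := Finset.mem_image.1 hv
        have e1 : t ≤ a * D := Nat.le_of_lt_succ (Finset.mem_range.1 (Finset.mem_product.1 hw).1)
        have e2 := (len_p L p C h0 h1 t w).trans (Nat.mul_le_mul_left C e1)
        rw [add_mul, mul_assoc C]
        exact e2.trans (Nat.le_add_left _ _)
    · beta_reduce
      split_ifs with e
      · rw [e]
        exact WS_mono L (Nat.le_add_left _ _) subset_rfl (hx J e).1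
      · exact WS_mono L (Nat.le_add_right _ _) w3 (c1 J (by omega))
    · rw [Dk_congr T J _ c fun M hM => if_neg (by omega)]
      beta_reduce
      split_ifs with e
      · exact (hx J e).2
      · exact c2 J h (by omega)

/-- The cocycles dual to the cubes. -/
def Ph (a : ι → G → k) : List ι → B k G →ₗ[k] k
  | [] => lapply [] ∘ₗ bd
  | i :: J => Ph a J ∘ₗ Mh (a i) ∘ₗ bd

omit [Group G] in
lemma Ph_nil (a : ι → G → k) (y : B k G) : Ph a [] y = bd y [] := rfl

omit [Group G] in
lemma Ph_cons (a : ι → G → k) (i : ι) (J : List ι) (y : B k G) :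
    Ph a (i :: J) y = Ph a J (Mh (a i) (bd y)) := rfl

omit [Group G] in
lemma Ph_bd (a : ι → G → k) (J : List ι) (y : B k G) : Ph a J (bd y) = 0 := by
  cases J <;> simp [Ph_nil, Ph_cons, bd_bd]

omit [Group G] in
lemma Ph_single (a : ι → G → k) (J : List ι) (r : k) : Ph a J (single [] r) = 0 := by
  cases J <;> simp [Ph_nil, Ph_cons]

lemma Ph_act (a : ι → G → k) (t : G) {U : Set G}
    (h : ∀ i, ∃ c, ∀ g ∈ U, a i (t * g) = a i g + c) (J : List ι) {y : B k G}
    (hy : y ∈ Sp k U) : Ph a J (act k G G t y) = Ph a J y := by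
  induction J generalizing y with
  | nil => rw [Ph_nil, Ph_nil, bd_act, act_nil]
  | cons i J ih =>
    obtain ⟨c, hc⟩ := h i
    rw [Ph_cons, Ph_cons, bd_act, Mh_act_loc _ t c hc (Sp_bd hy), map_add,
      ih (Sp_Mh _ (Sp_bd hy)), map_smul, map_sub, ← bd_act, Ph_bd, Ph_single]
    simp

lemma Ph_c [DecidableEq ι] (a : ι → G → k) (T : ι → G) {U : Set G}
    (h : ∀ i j, ∀ g ∈ U, a i (T j * g) = a i g + if i = j then 1 else 0) (c : List ι → B k G)
    (n : ℕ) (c0 : bd (c []) = single [] 1) (c1 : ∀ J : List ι, J.length ≤ n → c J ∈ Sp k U)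
    (c2 : ∀ J : List ι, J ≠ [] → J.length ≤ n → bd (c J) = Dk T J c) (J : List ι)
    (hJ : J.length ≤ n) (hn : J.Nodup) : Ph a J (c J) = 1 := by
  have inv : ∀ j (J : List ι), ∀ y ∈ Sp k U, Ph a J (act k G G (T j) y) = Ph a J y :=
    fun j J y hy => Ph_act a (T j) (fun i => ⟨_, h i j⟩) J hy
  induction J with
  | nil => simp [Ph_nil, c0]
  | cons i J ih =>
    rw [List.length_cons] at hJ
    rw [List.nodup_cons] at hn
    have e1 := c1 J (by omega)
    have e2 : Ph a J (Mh (a i) (Dk T J fun M => c (i :: M))) = 0 :=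
      Dk_kill T (Ph a J ∘ₗ Mh (a i)) J _ fun j hj M hM => by
        have e := c1 (i :: M) (by simp only [List.length_cons]; omega)
        rw [LinearMap.comp_apply, LinearMap.comp_apply, Mh_act_loc _ _ _ (h i j) e,
          if_neg (fun e : i = j => hn.1 (e ▸ hj)), zero_smul, add_zero, inv j J _ (Sp_Mh _ e)]
    rw [Ph_cons, c2 _ (List.cons_ne_nil _ _) hJ, Dk, map_sub, map_sub, map_sub, map_sub, e2,
      Mh_act_loc _ _ _ (h i i) e1, if_pos rfl, one_smul, map_add, map_sub, Ph_single,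
      inv i J _ (Sp_Mh _ e1), inv i J _ e1, ih (by omega) hn.2]
    simp

end koszul

lemma loc_map (L : Len G) (A : B k G →ₗ[k] B k G) (a1 : Eqv (act k G G) A) (n R : ℕ) :
    ∃ F : Finset G, ∀ (V U : Set G), (∀ v ∈ V, ∀ f ∈ F, v * f ∈ U) →
      ∀ y ∈ WS k L (n + 1) R V, A y ∈ Sp k U := by
  classical
  have hf := finite_lists (L.fin R) (n + 1)
  refine ⟨hf.toFinset.biUnion fun l => (A (single l 1)).support.biUnion List.toFinset,
    fun V U h y hy => sup_map A _ (fun l hl => ?_) hy⟩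
  obtain ⟨g, l', e⟩ := List.exists_cons_of_length_eq_add_one hl.1
  have hg : g ∈ l := by simp [e]
  have e1 : (single l 1 : B k G) = act k G G g (single (l.map (g⁻¹ • ·)) 1) := by
    simp [Function.comp_def]
  rw [e1, a1]
  refine Sp_act g (h g (hl.2.2 g hg)) fun l1 h1 x hx => ?_
  refine Finset.mem_biUnion.2 ⟨l.map (g⁻¹ • ·), hf.mem_toFinset.2 ⟨by simp [hl.1],
    fun x hx => ?_⟩, Finset.mem_biUnion.2 ⟨l1, h1, List.mem_toFinset.2 hx⟩⟩
  obtain ⟨y, hy, rfl⟩ := List.mem_map.1 hx
  exact hl.2.1 g hg y hy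

section digits

lemma dig_low (W s d : ℤ) (hW : 0 < W) {i j : ℕ} (h : i < j) :
    (s + d * W ^ j) / W ^ i % W = s / W ^ i % W := by
  obtain ⟨m, rfl⟩ := Nat.exists_eq_add_of_lt h
  have e : d * W ^ (i + m + 1) = (W * (d * W ^ m)) * W ^ i := by ring
  rw [e, Int.add_mul_ediv_right _ _ (pow_pos hW i).ne', Int.add_mul_emod_self_left]

lemma dig_add (W s : ℤ) (hW : 0 < W) (i j : ℕ) (h : s / W ^ j % W ≠ W - 1) :
    (W ^ j + s) / W ^ i % W = s / W ^ i % W + if i = j then 1 else 0 := by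
  have e0 : (W ^ j + s) / W ^ j = s / W ^ j + 1 := by
    rw [add_comm, ← Int.add_mul_ediv_right _ _ (pow_pos hW j).ne', one_mul]
  have e1 := Int.emod_nonneg (s / W ^ j) hW.ne'
  have e2 := Int.emod_lt_of_pos (s / W ^ j) hW
  have e3 := (Int.ediv_emod_unique (a := s / W ^ j + 1) (r := s / W ^ j % W + 1)
    (q := s / W ^ j / W) hW).2 ⟨by
      have := Int.emod_add_mul_ediv (s / W ^ j) W
      omega, by omega, by omega⟩
  rcases lt_trichotomy i j with h | rfl | h
  · rw [if_neg h.ne, add_zero, add_comm, ← dig_low W s 1 hW h, one_mul]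
  · rw [if_pos rfl, e0, e3.2]
  · obtain ⟨m, rfl⟩ := Nat.exists_eq_add_of_lt h
    have e4 : ∀ z : ℤ, z / W ^ (j + m + 1) = z / W ^ j / W / W ^ m := fun z => by
      rw [Int.ediv_ediv_of_nonneg (pow_pos hW j).le, Int.ediv_ediv_of_nonneg (by positivity)]
      congr 1
      ring
    rw [if_neg h.ne', add_zero, e4, e4, e0, e3.1]

lemma dig_shift (W : ℕ) (S : Finset ℤ) (hS : S.card < W) (n : ℕ) :
    ∃ c : ℤ, ∀ s ∈ S, ∀ j < n, (s + c) / (W : ℤ) ^ j % W ≠ W - 1 := by
  have hW : (0 : ℤ) < W := by omega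
  induction n with
  | zero => exact ⟨0, by simp⟩
  | succ n ih =>
    obtain ⟨c, hc⟩ := ih
    obtain ⟨d, d1, d2⟩ := Finset.exists_mem_notMem_of_card_lt_card
      (s := S.image fun s => (W - 1 - (s + c) / (W : ℤ) ^ n) % W) (t := Finset.Ico (0 : ℤ) W)
      (lt_of_le_of_lt Finset.card_image_le (by simpa using hS))
    rw [Finset.mem_Ico] at d1
    refine ⟨c + d * W ^ n, fun s hs j hj => ?_⟩
    rw [← add_assoc]
    rcases (Nat.lt_succ_iff.1 hj).lt_or_eq with hj | rfl
    · rw [dig_low _ _ _ hW hj]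
      exact hc s hs j hj
    · rw [Int.add_mul_ediv_right _ _ (pow_pos hW j).ne']
      intro e
      refine d2 (Finset.mem_image.2 ⟨s, hs, ?_⟩)
      rw [← e, Int.sub_emod, Int.emod_emod, ← Int.sub_emod, add_sub_cancel_left,
        Int.emod_eq_of_lt d1.1 d1.2]

end digits

theorem core (L : Len G) (p : ℕ → G → G) (C : ℕ) (h0 : ∀ g, p 0 g = 1)
    (h1 : ∀ t g, L.len ((p t g)⁻¹ * p (t + 1) g) ≤ C)
    (h2 : ∀ R, ∃ R', ∀ t g h, L.len (g⁻¹ * h) ≤ R → L.len ((p t g)⁻¹ * p t h) ≤ R')
    (h3 : ∀ g t, C * (L.len g + 1) ≤ t → p t g = g) (m : k) (hm : m ≠ 0)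
    (A : B k G →ₗ[k] B k G) (a1 : Eqv (act k G G) A) (N : ℕ)
    (a2 : ∀ x ∈ gr k G (N + 2), m • x = bd (A x) + A (bd x)) :
    ∃ K : ℕ, ∀ x : G, ¬ IsOfFinOrder x → ∀ W D : ℕ, 1 ≤ D →
      (∀ j ≤ N, L.len (x ^ W ^ j) ≤ D) → W ≤ K * D ^ (N + 1) := by
  classical
  obtain ⟨R, K, hc⟩ := exists_c (k := k) (ι := Fin (N + 1)) L p C h0 h1 h2 h3 (N + 1)
  obtain ⟨F, hF⟩ := loc_map L A a1 N R
  refine ⟨(1 + F.card) * K, fun x hx W D hD hl => ?_⟩
  by_contra hW
  obtain ⟨c, V, v1, -, c0, c1, c2⟩ := hc (fun i => x ^ W ^ (i : ℕ)) D hD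
    (fun i j => (Commute.pow_pow_self x _ _).eq) fun i => hl i (Nat.le_of_lt_succ i.2)
  obtain ⟨r, hr⟩ := exists_r (zpowersHom G x) (injective_zpow_iff_not_isOfFinOrder.2 hx)
  let U : Finset G := V ∪ Finset.image₂ (· * ·) V F
  have u1 : U.card < W := by
    have e1 := Finset.card_union_le V (Finset.image₂ (· * ·) V F)
    have e2 := Finset.card_image₂_le (fun x y : G => x * y) V F
    have e3 : (1 + F.card) * V.card ≤ (1 + F.card) * (K * D ^ (N + 1)) := Nat.mul_le_mul_left _ v1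
    rw [mul_assoc] at hW
    rw [add_mul, one_mul, mul_comm] at e3
    change U.card ≤ _ at e1
    omega
  obtain ⟨s, hs⟩ := dig_shift W (U.image fun g => (r g).toAdd)
    (lt_of_le_of_lt Finset.card_image_le u1) (N + 1)
  let a : Fin (N + 1) → G → k := fun i g =>
    ((((r g).toAdd + s) / (W : ℤ) ^ (i : ℕ) % W : ℤ) : k)
  have ha : ∀ i j : Fin (N + 1), ∀ g ∈ (U : Set G),
      a i (x ^ W ^ (j : ℕ) * g) = a i g + if i = j then 1 else 0 := fun i j g hg => by
    have e1 := hr (Multiplicative.ofAdd ((W : ℤ) ^ (j : ℕ))) g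
    rw [zpowersHom_apply, toAdd_ofAdd, ← Nat.cast_pow, zpow_natCast] at e1
    have e2 := dig_add W _ (by omega) i j (hs _ (Finset.mem_image_of_mem _ hg) j j.2)
    simp only [a, e1, toAdd_mul, toAdd_ofAdd, Nat.cast_pow, add_assoc, e2, Fin.ext_iff]
    simp
  have hJ : (List.finRange (N + 1)).length = N + 1 := List.length_finRange
  have e1 := Ph_c a _ ha c (N + 1) c0
    (fun J h => Sp_mono (fun v hv => Finset.mem_union_left _ hv) (WS_Sp L (c1 J h))) c2 _ hJ.le
    (List.nodup_finRange _)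
  have e2 := c1 _ hJ.le
  rw [hJ] at e2
  have e3 := congrArg (Ph a (List.finRange (N + 1))) (a2 _ (WS_gr L e2))
  have e4 := Dk_kill (fun i : Fin (N + 1) => x ^ W ^ (i : ℕ))
    (Ph a (List.finRange (N + 1)) ∘ₗ A) (List.finRange (N + 1)) c fun j _ M hM => by
      have hM' : M.length = N := by omega
      have := c1 M (by omega)
      rw [hM'] at this
      rw [LinearMap.comp_apply, LinearMap.comp_apply, a1]
      exact Ph_act a _ (fun i => ⟨_, ha i j⟩) _ (hF V U (fun v hv f hf =>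
        Finset.mem_union_right _ (Finset.mem_image₂_of_mem hv hf)) _ this)
  rw [LinearMap.comp_apply] at e4
  rw [map_smul, e1, map_add, Ph_bd, c2 _ (List.length_pos_iff.1 (by omega)) hJ.le, e4] at e3
  simp [hm] at e3

lemma htpy_of_FD {N : ℕ} (h : FD k G G N) : ∃ A : B k G →ₗ[k] B k G, Eqv (act k G G) A ∧
    (∀ n, ∀ x ∈ gr k G n, A x ∈ gr k G (n + 1)) ∧
    ∀ x ∈ gr k G (N + 2), x = bd (A x) + A (bd x) := by
  obtain ⟨r, r1, r6, r5, r2, r3⟩ := h
  obtain ⟨σ, s1, s2, s3, s4⟩ := extend (barD k G) (fun n => gr k G (n + 1))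
    (fun n γ y hy => act_gr γ hy) (fun n y hy hc => bar_exact (k := k) (G := G) 1 _ y hy hc)
    (-1) 0 (LinearMap.id - r) 0
    (fun γ x => by
      simp only [LinearMap.sub_apply, LinearMap.id_apply, map_sub, r1 γ x]
      rfl)
    (fun n _ x hx => sub_mem hx (r5 _ x hx))
    (fun n _ x hx => by
      change bd (x - r x) + (-1 : k) • (bd x - r (bd x)) = 0
      rw [map_sub, r6 x]
      simp)
    (fun _ _ => by simp) (fun _ _ => zero_mem _)
    (fun x hx => by
      change bd (x - r x + (-1 : k) • 0) = 0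
      rw [smul_zero, add_zero, map_sub, r6 x, gr_ext r LinearMap.id
        (fun l hl => by rw [List.length_eq_zero_iff.1 hl, r2]; rfl) (bd_gr hx)]
      simp)
  refine ⟨σ, s1, fun n => s3 n (Nat.zero_le _), fun x hx => ?_⟩
  have : bd (σ x) = x - r x + (-1 : k) • σ (bd x) := s4 _ (Nat.zero_le _) x hx
  rw [this, r3 _ (by omega) x hx]
  simp

end Pool.Agent.Lib.MP_2fb4be_al.Sol.K
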