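import Mathlib

/-!
A hierarchy of groups in the style of Kropholler, with coefficients in a commutative ring.
-/

set_option autoImplicit false

namespace Pool.Agent.Lib.MP_2fb4be_al

open CategoryTheory

/-- `LH k` is the smallest class of groups that contains every finite group whose order is nonzero
in `k` and every group of finite cohomological dimension over `k`, contains `G` whenever the
trivial module `k` has a resolution of finite length by permutation modules of `G` whose point
stabilisers lie in the class, and contains `G` whenever all finitely generated subgroups of `G` lie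
in the class. -/
inductive LH (k : Type) [CommRing k] : (G : Type) → [Group G] → Prop
  | fin (G : Type) [Group G] [Finite G] (h : (Nat.card G : k) ≠ 0) : LH k G
  | fd (G : Type) [Group G] (P : ProjectiveResolution (Rep.trivial k G k)) (N : ℕ)
      (h : ∀ n, N < n → Limits.IsZero (P.complex.X n)) : LH k G
  | act (G : Type) [Group G] (X : ℕ → Type) [∀ n, MulAction G (X n)]
      (d : ∀ n, (X (n + 1) →₀ k) →ₗ[k] (X n →₀ k)) (ε : (X 0 →₀ k) →ₗ[k] k)
      (hd : ∀ n (g : G) c, d n (c.mapDomain (g • ·)) = (d n c).mapDomain (g • ·))
      (hε : ∀ (g : G) c, ε (c.mapDomain (g • ·)) = ε c)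
      (h0 : Function.Surjective ε) (h1 : Function.Exact (d 0) ε)
      (h2 : ∀ n, Function.Exact (d (n + 1)) (d n))
      (N : ℕ) (hN : ∀ n, N < n → IsEmpty (X n))
      (hs : ∀ n (x : X n), LH k (MulAction.stabilizer G x)) : LH k G
  | loc (G : Type) [Group G] (h : ∀ K : Subgroup G, K.FG → LH k K) : LH k G

end Pool.Agent.Lib.MP_2fb4be_al
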