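import Pool.Agent.Lib.MP_2fb4be_al.FD.Cube
import Pool.Agent.Lib.MP_2fb4be_al.FD.Defs

/-!
Vanishing of complete cohomology up to torsion along the hierarchy `LH`.
-/

set_option autoImplicit false

noncomputable section

namespace Pool.Agent.Lib.MP_2fb4be_al.Sol.K

open Finsupp hiding cons
open Filter Pool.Agent.Lib.MP_f0c981_al

variable {k : Type} [CommRing k] {G : Type} [Group G]
variable {D D' D1 D2 : Type} [AddCommGroup D] [Module k D] [AddCommGroup D'] [Module k D']
  [AddCommGroup D1] [Module k D1] [AddCommGroup D2] [Module k D2]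

/-- The quotient of a differential module by the image of a morphism. -/
def DM.quot (E : DM k G D) (E' : DM k G D') (f : D' →ₗ[k] D) (hf : Mor E' E f) :
    DM k G (D ⧸ LinearMap.range f) where
  ρ := E.ρ.quotient _ fun γ => by
    rintro _ ⟨x, rfl⟩
    exact ⟨_, hf.ρ γ x⟩
  d := Submodule.mapQ _ _ E.d (by
    rintro _ ⟨x, rfl⟩
    exact ⟨_, hf.d x⟩)
  ρ_d := fun γ x => by
    induction x using Submodule.Quotient.induction_on with
    | H x => exact congrArg Submodule.Quotient.mk (E.ρ_d γ x)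
  dd := fun x => by
    induction x using Submodule.Quotient.induction_on with
    | H x => exact congrArg Submodule.Quotient.mk (E.dd x)

section tens

variable {Q X X' X'' : Type}

/-- The tensor product of a chain and a vector, placed over `q`. -/
def emb (q : Q) : (X →₀ k) →ₗ[k] D →ₗ[k] (Q × X →₀ D) :=
  linearCombination k fun x => lsingle (q, x)

@[simp] lemma emb_single (q : Q) (x : X) (c : k) (b : D) :
    emb q (single x c) b = single (q, x) (c • b) := by simp [emb]

/-- A map of chains, tensored with the identity. -/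
def tens (f : (X →₀ k) →ₗ[k] (X' →₀ k)) : (Q × X →₀ D) →ₗ[k] (Q × X' →₀ D) :=
  lsum k fun z => emb z.1 (f (single z.2 1))

lemma tens_single (f : (X →₀ k) →ₗ[k] (X' →₀ k)) (q : Q) (x : X) (b : D) :
    tens f (single (q, x) b) = emb q (f (single x 1)) b := by simp [tens]

lemma tens_emb (f : (X →₀ k) →ₗ[k] (X' →₀ k)) (q : Q) (y : X →₀ k) (b : D) :
    tens f (emb q y b) = emb q (f y) b := by
  induction y using Finsupp.induction_linear with
  | zero => simp
  | add x y h1 h2 => simp only [map_add, LinearMap.add_apply, h1, h2]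
  | single x c =>
    rw [emb_single, tens_single, ← smul_single_one x c, map_smul, map_smul, map_smul]
    rfl

lemma tens_exact (f : (X →₀ k) →ₗ[k] (X' →₀ k)) (g : (X' →₀ k) →ₗ[k] (X'' →₀ k))
    (h : (X' →₀ k) →ₗ[k] (X →₀ k)) (h' : (X'' →₀ k) →ₗ[k] (X' →₀ k))
    (e1 : ∀ y, g (f y) = 0) (e2 : ∀ y, f (h y) + h' (g y) = y) :
    Function.Exact (tens (Q := Q) (D := D) f) (tens g) := by
  have a1 : ∀ z : Q × X →₀ D, tens g (tens f z) = 0 := fun z => by
    induction z using Finsupp.induction_linear with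
    | zero => simp
    | add x y h1 h2 => simp only [map_add, h1, h2, add_zero]
    | single z b => rw [tens_single, tens_emb, e1]; simp
  have a2 : ∀ z : Q × X' →₀ D, tens f (tens h z) + tens h' (tens g z) = z := fun z => by
    induction z using Finsupp.induction_linear with
    | zero => simp
    | add x y h1 h2 => simp only [map_add]; rw [add_add_add_comm, h1, h2]
    | single z b =>
      rw [tens_single, tens_single, tens_emb, tens_emb, ← LinearMap.add_apply, ← map_add, e2]
      simp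
  intro z
  refine ⟨fun hz => ⟨tens h z, ?_⟩, ?_⟩
  · have := a2 z
    rwa [hz, map_zero, add_zero] at this
  · rintro ⟨w, rfl⟩
    exact a1 w

lemma split_step {A C : Type} [AddCommGroup A] [Module k A] [AddCommGroup C] [Module k C]
    (f : A →ₗ[k] (X →₀ k)) (g : (X →₀ k) →ₗ[k] C) (e : Function.Exact f g)
    (h' : C →ₗ[k] (X →₀ k)) (e' : ∀ y, g (h' (g y)) = g y) :
    ∃ h : (X →₀ k) →ₗ[k] A, ∀ y, f (h y) + h' (g y) = y := by
  have : ∀ x : X, ∃ a, f a = single x 1 - h' (g (single x 1)) := fun x =>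
    (e _).1 (by rw [map_sub, e', sub_self])
  choose a ha using this
  refine ⟨linearCombination k a, fun y => ?_⟩
  induction y using Finsupp.induction_linear with
  | zero => simp
  | add x y h1 h2 => simp only [map_add]; rw [add_add_add_comm, h1, h2]
  | single x c =>
    rw [linearCombination_single, map_smul, ha, ← smul_single_one x c, map_smul, map_smul,
      ← smul_add, sub_add_cancel]

variable {K : Type} [Group K] [MulAction G Q] [MulAction K X] [MulAction K X']

/-- The induced action given by a cocycle. -/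
@[reducible] def indAct (κ : G → Q → K) (h1 : ∀ q, κ 1 q = 1)
    (h2 : ∀ γ δ q, κ (γ * δ) q = κ γ (δ • q) * κ δ q) (X : Type) [MulAction K X] :
    MulAction G (Q × X) where
  smul γ z := (γ • z.1, κ γ z.1 • z.2)
  one_smul z := by
    change ((1 : G) • z.1, κ 1 z.1 • z.2) = z
    rw [h1, one_smul, one_smul]
  mul_smul γ δ z := by
    change ((γ * δ) • z.1, κ (γ * δ) z.1 • z.2) = (γ • δ • z.1, κ γ (δ • z.1) • κ δ z.1 • z.2)
    rw [h2, mul_smul, mul_smul]

lemma tens_mor (E : DM k G D) (κ : G → Q → K) [MulAction G (Q × X)] [MulAction G (Q × X')]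
    (h1 : ∀ (γ : G) (q : Q) (x : X), γ • (q, x) = (γ • q, κ γ q • x))
    (h2 : ∀ (γ : G) (q : Q) (x : X'), γ • (q, x) = (γ • q, κ γ q • x))
    (f : (X →₀ k) →ₗ[k] (X' →₀ k))
    (hf : ∀ (g : K) c, f (c.mapDomain (g • ·)) = (f c).mapDomain (g • ·)) :
    Mor (DY E (Q × X)) (DY E (Q × X')) (tens f) := by
  refine mor_of_single E _ (fun γ z b => ?_) fun z b => ?_
  · obtain ⟨q, x⟩ := z
    rw [h1, tens_single, tens_single, ← mapDomain_single (f := (κ γ q • ·)), hf]
    generalize f (single x 1) = y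
    induction y using Finsupp.induction_linear with
    | zero => simp
    | add x y a1 a2 => simp only [mapDomain_add, map_add, LinearMap.add_apply, a1, a2]
    | single x c => simp [h2]
  · obtain ⟨q, x⟩ := z
    rw [tens_single, tens_single]
    generalize f (single x 1) = y
    induction y using Finsupp.induction_linear with
    | zero => simp
    | add x y a1 a2 => simp only [map_add, LinearMap.add_apply, a1, a2]
    | single x c => simp

end tens

variable [IsDomain k]

lemma null_two (E : DM k G D) (E1 : DM k G D1) (E2 : DM k G D2) (p1 : D →ₗ[k] D1)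
    (p2 : D →ₗ[k] D2) (i1 : D1 →ₗ[k] D) (i2 : D2 →ₗ[k] D) (hp1 : Mor E E1 p1) (hp2 : Mor E E2 p2)
    (hi1 : Mor E1 E i1) (hi2 : Mor E2 E i2) (j : k) (hj : j ≠ 0)
    (h : ∀ x, i1 (p1 x) + i2 (p2 x) = j • x) (n1 : Null E1) (n2 : Null E2) : Null E := by
  intro u hu f f1 f2
  obtain ⟨m, hm, a, a1, a2⟩ := n1 u hu (p1 ∘ₗ f) (fun γ x => by simp [f1 γ x, hp1.ρ]) (by
    filter_upwards [f2] with n e x hx
    simp [← hp1.d, e x hx])
  obtain ⟨m', hm', b, b1, b2⟩ := n2 u hu (p2 ∘ₗ f) (fun γ x => by simp [f1 γ x, hp2.ρ]) (by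
    filter_upwards [f2] with n e x hx
    simp [← hp2.d, e x hx])
  refine ⟨m * m' * j, mul_ne_zero (mul_ne_zero hm hm') hj, m' • i1 ∘ₗ a + m • i2 ∘ₗ b,
    fun γ x => by simp [a1 γ x, b1 γ x, hi1.ρ, hi2.ρ], ?_⟩
  filter_upwards [a2, b2] with n e e' x hx
  have e1 := congrArg i1 (e x hx)
  have e2 := congrArg i2 (e' x hx)
  have e3 := h (f x)
  simp only [LinearMap.add_apply, LinearMap.smul_apply, LinearMap.comp_apply, map_add, map_smul,
    hi1.d, hi2.d] at e1 e2 ⊢
  linear_combination (norm := module) m' • e1 + m • e2 - (m * m') • e3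

lemma null_retract (E : DM k G D) (E1 : DM k G D1) (p : D →ₗ[k] D1) (i : D1 →ₗ[k] D)
    (hp : Mor E E1 p) (hi : Mor E1 E i) (j : k) (hj : j ≠ 0) (h : ∀ x, i (p x) = j • x)
    (n1 : Null E1) : Null E :=
  null_two E E1 E1 p p i 0 hp hp hi ⟨by simp, by simp⟩ j hj (by simp [h]) n1 n1

lemma null_coker (E1 : DM k G D1) (E : DM k G D) (E' : DM k G D') (π : D →ₗ[k] D')
    (ι : D1 →ₗ[k] D) (hπ : Mor E E' π) (hι : Mor E1 E ι) (hs : Function.Surjective π)
    (hi : Function.Injective ι) (h1 : ∀ x, π (ι x) = 0)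
    (h2 : ∀ x, π x = 0 → x ∈ LinearMap.range ι) (hE1 : Null E1) (hE : Null E) : Null E' := by
  intro u hu f f1 f2
  obtain ⟨g, g1, g2⟩ := lift_surj E.ρ E'.ρ π hπ.ρ hs f f1
  have g3 : Ev fun x => π (g x) = f x := Ev.of_succ 0 fun n _ => g2 n
  obtain ⟨θ, t1, t2⟩ := lift_map E1.ρ E.ρ ι hι.ρ (E.d ∘ₗ g - u • g ∘ₗ bd) fun γ x => by
    simp [g1 γ x, bd_act, g1 γ, E.ρ_d]
  have t3 : Ev fun x => ι (θ x) = E.d (g x) - u • g (bd x) := by
    have : Ev fun x => π (E.d (g x) - u • g (bd x)) = 0 := by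
      filter_upwards [g3, g3.bd, f2] with n a b c x hx
      rw [map_sub, map_smul, hπ.d, a x hx, b x hx, c x hx, sub_self]
    obtain ⟨n0, h⟩ := eventually_atTop.1 this
    exact Ev.of_succ n0 fun n hn => t2 n fun x hx => h2 _ (h _ (by omega) x hx)
  obtain ⟨m, hm, h, a1, a2⟩ := hE1 (-u) (neg_ne_zero.2 hu) θ t1 (by
    filter_upwards [t3, t3.bd] with n a b x hx
    apply hi
    rw [hι.d, map_smul, a x hx, b x hx, map_sub, E.dd, map_smul, bd_bd, map_zero, smul_zero,
      sub_zero, zero_sub, neg_smul])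
  obtain ⟨m', hm', h', b1, b2⟩ := hE u hu (m • g - ι ∘ₗ h)
    (fun γ x => by simp [g1 γ x, a1 γ x, hι.ρ]) (by
      filter_upwards [t3, a2] with n a b x hx
      have e := congrArg ι (b x hx)
      rw [map_smul, a x hx, map_add, map_smul, hι.d] at e
      simp only [LinearMap.sub_apply, LinearMap.smul_apply, LinearMap.comp_apply, map_sub,
        map_smul]
      linear_combination (norm := module) e)
  refine ⟨m' * m, mul_ne_zero hm' hm, π ∘ₗ h', fun γ x => by simp [b1 γ x, hπ.ρ], ?_⟩
  filter_upwards [b2, g3] with n a b x hx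
  have e := congrArg π (a x hx)
  simp only [LinearMap.sub_apply, LinearMap.smul_apply, LinearMap.comp_apply, map_sub,
    map_smul, map_add, h1, sub_zero, b x hx, hπ.d] at e
  rw [mul_smul, e]
  rfl

lemma null_res (N : ℕ) : ∀ (M : ℕ → Type) [∀ n, AddCommGroup (M n)] [∀ n, Module k (M n)]
    (E : ∀ n, DM k G (M n)) (d : ∀ n, M (n + 1) →ₗ[k] M n) (D' : Type) [AddCommGroup D']
    [Module k D'] (E' : DM k G D') (π : M 0 →ₗ[k] D'), (∀ n, Mor (E (n + 1)) (E n) (d n)) →
    Mor (E 0) E' π → Function.Surjective π → Function.Exact (d 0) π →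
    (∀ n, Function.Exact (d (n + 1)) (d n)) → (∀ n, Null (E n)) →
    (∃ s : M N →ₗ[k] M (N + 1), Mor (E N) (E (N + 1)) s ∧ ∀ y, d N (s (d N y)) = d N y) →
    Null E' := by
  induction N with
  | zero =>
    intro M _ _ E d D' _ _ E' π h1 h2 h3 h4 _ h6 ⟨s, s1, s2⟩
    obtain ⟨p, hp⟩ : ∃ p : D' →ₗ[k] M 0, ∀ y, p (π y) = y - d 0 (s y) :=
      ⟨(LinearMap.ker π).liftQ (LinearMap.id - d 0 ∘ₗ s) (fun y hy => by
          obtain ⟨z, rfl⟩ := (h4 y).1 hy
          simp [s2]) ∘ₗ (π.quotKerEquivOfSurjective h3).symm.toLinearMap, fun y => by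
        have : (π.quotKerEquivOfSurjective h3).symm (π y) = Submodule.Quotient.mk y :=
          (LinearEquiv.symm_apply_eq _).2 rfl
        simp [this]⟩
    refine null_retract E' (E 0) p π ⟨fun γ x => ?_, fun x => ?_⟩ h2 1 one_ne_zero
      (fun x => ?_) (h6 0)
    · obtain ⟨y, rfl⟩ := h3 x
      rw [← h2.ρ, hp, hp, map_sub, s1.ρ, (h1 0).ρ]
    · obtain ⟨y, rfl⟩ := h3 x
      rw [← h2.d, hp, hp, map_sub, s1.d, (h1 0).d]
    · obtain ⟨y, rfl⟩ := h3 x
      rw [hp, map_sub, h4.apply_apply_eq_zero, sub_zero, one_smul]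
  | succ N ih =>
    intro M _ _ E d D' _ _ E' π h1 h2 h3 h4 h5 h6 h7
    have hz := ih (fun n => M (n + 1)) (fun n => E (n + 1)) (fun n => d (n + 1)) _
      ((E 1).quot (E 2) (d 1) (h1 1)) (Submodule.mkQ _) (fun n => h1 (n + 1))
      ⟨fun _ _ => rfl, fun _ => rfl⟩ (Submodule.mkQ_surjective _)
      (LinearMap.exact_map_mkQ_range _) (fun n => h5 (n + 1)) (fun n => h6 (n + 1)) h7
    have hk := (h5 0).linearMap_ker_eq
    refine null_coker _ (E 0) E' π (Submodule.liftQ _ (d 0) hk.ge) h2 ⟨fun γ x => ?_, fun x => ?_⟩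
      h3 (LinearMap.ker_eq_bot.1 (Submodule.ker_liftQ_eq_bot _ _ _ hk.le)) (fun x => ?_)
      (fun x hx => ?_) hz (h6 0)
    · induction x using Submodule.Quotient.induction_on with
      | H x => exact (h1 0).ρ γ x
    · induction x using Submodule.Quotient.induction_on with
      | H x => exact (h1 0).d x
    · induction x using Submodule.Quotient.induction_on with
      | H x => exact h4.apply_apply_eq_zero x
    · obtain ⟨y, rfl⟩ := (h4 x).1 hx
      exact ⟨Submodule.Quotient.mk y, rfl⟩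

lemma null_sum (E : DM k G D) (Y Y' : Type) [MulAction G Y] [MulAction G Y']
    (h : Null (DY E Y)) (h' : Null (DY E Y')) : Null (DY E (Y ⊕ Y')) := by
  refine null_two _ _ _ (lsum k (Sum.elim lsingle 0)) (lsum k (Sum.elim 0 lsingle))
    (lmapDomain _ k Sum.inl) (lmapDomain _ k Sum.inr)
    (mor_of_single E _ (fun γ y b => ?_) fun y b => ?_)
    (mor_of_single E _ (fun γ y b => ?_) fun y b => ?_)
    (mor_map E _ fun _ _ => rfl) (mor_map E _ fun _ _ => rfl) 1 one_ne_zero (fun x => ?_) h h'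
  · cases y <;> simp
  · cases y <;> simp
  · cases y <;> simp
  · cases y <;> simp
  · induction x using Finsupp.induction_linear with
    | zero => simp
    | add x y a b => simp only [map_add]; rw [add_add_add_comm, a, b, smul_add]
    | single y b => cases y <;> simp

lemma null_bar_free (Y : Type) [MulAction G Y] (φ : Y → G) (h : ∀ (γ : G) y, φ (γ • y) = γ • φ y) :
    Null (DY (barD k G) Y) :=
  null_DY_free _ cons bd_cons (fun _ g x => (lmap_cons _ g x).symm) φ h

lemma null_of_stab (hG : FinType k G) (Y : Type) [MulAction G Y]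
    (h : ∀ y : Y, Null (DY (barD k G) (G ⧸ MulAction.stabilizer G y))) :
    Null (DY (barD k G) Y) := by
  classical
  have key : ∀ S : Finset Y, ∃ (Z : Type) (_ : MulAction G Z) (p : G × Y → Z) (q : Z → Y),
      (∀ (γ : G) z, p (γ • z) = γ • p z) ∧ (∀ (γ : G) z, q (γ • z) = γ • q z) ∧
      (∀ z, q (p z) = z.2) ∧ Null (DY (barD k G) Z) ∧ ∀ y ∈ S, ∀ g, p (g, y) = p (1, y) := by
    intro S
    induction S using Finset.induction_on with
    | empty =>
      exact ⟨G × Y, inferInstance, id, Prod.snd, fun _ _ => rfl, fun _ _ => rfl, fun _ => rfl,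
        null_bar_free _ Prod.fst fun _ _ => rfl, by simp⟩
    | insert y S _ ih =>
      obtain ⟨Z, _, p, q, p1, q1, pq, hZ, hS⟩ := ih
      let o := MulAction.ofQuotientStabilizer G y
      have o1 : ∀ (γ : G) w, o (γ • w) = γ • o w := MulAction.ofQuotientStabilizer_smul G y
      have o2 : Function.Injective o := MulAction.injective_ofQuotientStabilizer G y
      refine ⟨(G ⧸ MulAction.stabilizer G y) ⊕ Z, inferInstance,
        fun z => if h : ∃ w, o w = z.2 then Sum.inl h.choose else Sum.inr (p z),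
        Sum.elim o q, fun γ z => ?_, fun γ z => ?_, fun z => ?_, null_sum _ _ _ (h y) hZ,
        fun y' hy' g => ?_⟩
      · beta_reduce
        by_cases e : ∃ w, o w = z.2
        · have e' : ∃ w, o w = (γ • z).2 := ⟨γ • e.choose, by rw [o1, e.choose_spec]; rfl⟩
          rw [dif_pos e, dif_pos e', Sum.smul_inl]
          congr 1
          apply o2
          rw [e'.choose_spec, o1, e.choose_spec]
          rfl
        · have e' : ¬ ∃ w, o w = (γ • z).2 := fun ⟨w, hw⟩ =>
            e ⟨γ⁻¹ • w, by rw [o1, hw, Prod.smul_snd, inv_smul_smul]⟩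
          rw [dif_neg e, dif_neg e', Sum.smul_inr, p1]
      · cases z with
        | inl w => exact o1 γ w
        | inr w => exact q1 γ w
      · beta_reduce
        split_ifs with e
        · exact e.choose_spec
        · exact pq z
      · beta_reduce
        split_ifs with e
        · rfl
        · rcases Finset.mem_insert.1 hy' with rfl | hy'
          · exact absurd ⟨((1 : G) : G ⧸ MulAction.stabilizer G y'), one_smul G y'⟩ e
          · rw [hS y' hy']
  choose Z hZ p q p1 q1 pq hN hS using key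
  refine null_colim hG (DY (barD k G) (G × Y)) _ (lmapDomain _ k Prod.snd)
    (mor_map _ _ fun _ _ => rfl) (mapDomain_surjective Prod.snd_surjective)
    (DY_ex _ (cons 1) (bd_cons 1)) (fun S => Z S →₀ B k G) (fun S => DY (barD k G) (Z S))
    (fun S => lmapDomain _ k (p S)) (fun S => lmapDomain _ k (q S))
    (fun S => mor_map _ _ (p1 S)) (fun S => mor_map _ _ (q1 S))
    (fun S x => mapDomain_comp.symm.trans (congrArg (mapDomain · x) (funext (pq S))))
    (fun _ => DY_ex _ (cons 1) (bd_cons 1)) hN fun X hX h0 => ?_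
  refine ⟨(hX.toFinset.biUnion fun x => x.support).image Prod.snd, fun x hx => ?_⟩
  refine mapDomain_sec _ (fun y => p _ (1, y)) _ x (h0 x hx) fun z hz => hS _ _ ?_ z.1
  exact Finset.mem_image_of_mem _ (Finset.mem_biUnion.2 ⟨x, hX.mem_toFinset.2 hx, hz⟩)

lemma null_fin (H : Subgroup G) [Finite H] (h : (Nat.card H : k) ≠ 0) :
    Null (DY (barD k G) (G ⧸ H)) := by
  have := Fintype.ofFinite H
  refine null_retract _ (DY (barD k G) G)
    (lsum k fun q : G ⧸ H => ∑ s : H, lsingle (q.out * s)) (lmapDomain _ k fun g : G => (g : G ⧸ H))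
    (mor_of_single _ _ (fun γ y b => ?_) fun y b => ?_) (mor_map _ _ fun _ _ => rfl) _ h
    (fun x => ?_) (null_bar_free G id fun _ _ => rfl)
  · obtain ⟨s, hs⟩ := QuotientGroup.mk_out_eq_mul H (γ * y.out)
    have e : γ • y = ((γ * y.out : G) : G ⧸ H) := by
      conv_lhs => rw [← QuotientGroup.out_eq' y]
      rfl
    simp only [lsum_single, LinearMap.sum_apply, lsingle_apply, map_sum, DY_ρ, e, hs]
    refine Fintype.sum_equiv (Equiv.mulLeft s) _ _ fun t => ?_
    simp [mul_assoc]
  · simp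
  · induction x using Finsupp.induction_linear with
    | zero => simp
    | add x y a b => simp only [map_add, a, b, smul_add]
    | single y b => simp [Nat.cast_smul_eq_nsmul]

lemma null_loc (hG : FinType k G) (K : Subgroup G)
    (h : ∀ S : Finset G, (S : Set G) ⊆ K → ∃ H ≤ K, (S : Set G) ⊆ H ∧
      Null (DY (barD k G) (G ⧸ H))) : Null (DY (barD k G) (G ⧸ K)) := by
  classical
  refine null_colim hG (DY (barD k G) G) _ (lmapDomain _ k fun g : G => (g : G ⧸ K))
    (mor_map _ _ fun _ _ => rfl) (mapDomain_surjective QuotientGroup.mk_surjective)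
    (DY_ex _ (cons 1) (bd_cons 1))
    (I := {H : Subgroup G // H ≤ K ∧ Null (DY (barD k G) (G ⧸ H))}) (fun H => G ⧸ H.1 →₀ B k G)
    (fun H => DY (barD k G) (G ⧸ H.1)) (fun H => lmapDomain _ k fun g : G => (g : G ⧸ H.1))
    (fun H => lmapDomain _ k (Subgroup.quotientMapOfLE H.2.1)) (fun H => mor_map _ _ fun _ _ => rfl)
    (fun H => mor_map _ _ (qmap_smul H.2.1)) (fun H x => mapDomain_comp.symm)
    (fun _ => DY_ex _ (cons 1) (bd_cons 1)) (fun H => H.2.2) fun X hX h0 => ?_
  let S : Finset G := (hX.toFinset.biUnion fun x => x.support).image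
    fun g : G => g⁻¹ * (g : G ⧸ K).out
  have hS : (S : Set G) ⊆ K := by
    intro a ha
    obtain ⟨g, -, rfl⟩ := Finset.mem_image.1 ha
    exact QuotientGroup.eq.1 (Quotient.out_eq _).symm
  obtain ⟨H, h1, h2, h3⟩ := h S hS
  refine ⟨⟨H, h1, h3⟩, fun x hx => ?_⟩
  refine mapDomain_sec _ (fun z : G ⧸ K => (z.out : G ⧸ H)) _ x (h0 x hx) fun g hg => ?_
  refine QuotientGroup.eq.2 (h2 ?_)
  exact Finset.mem_image.2 ⟨g, Finset.mem_biUnion.2 ⟨x, hX.mem_toFinset.2 hx, hg⟩, rfl⟩

lemma null_act (hG : FinType k G) {K : Type} [Group K] (X : ℕ → Type) [∀ n, MulAction K (X n)]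
    (d : ∀ n, (X (n + 1) →₀ k) →ₗ[k] (X n →₀ k)) (ε : (X 0 →₀ k) →ₗ[k] k)
    (hd : ∀ n (g : K) c, d n (c.mapDomain (g • ·)) = (d n c).mapDomain (g • ·))
    (hε : ∀ (g : K) c, ε (c.mapDomain (g • ·)) = ε c)
    (h0 : Function.Surjective ε) (h1 : Function.Exact (d 0) ε)
    (h2 : ∀ n, Function.Exact (d (n + 1)) (d n)) (N : ℕ)
    (s1 : (X N →₀ k) →ₗ[k] (X (N + 1) →₀ k))
    (s2 : ∀ (g : K) c, s1 (c.mapDomain (g • ·)) = (s1 c).mapDomain (g • ·))
    (s3 : ∀ y, d N (s1 (d N y)) = d N y)
    (ih : ∀ n (x : X n) (ψ : MulAction.stabilizer K x →* G), Function.Injective ψ →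
      Null (DY (barD k G) (G ⧸ ψ.range))) (φ : K →* G) (hφ : Function.Injective φ) :
    Null (DY (barD k G) (G ⧸ φ.range)) := by
  have hκ : ∀ (γ : G) (q : G ⧸ φ.range), ∃ a, φ a = (γ • q).out⁻¹ * (γ * q.out) :=
    fun γ q => (QuotientGroup.eq (s := φ.range)).1 (by
      rw [QuotientGroup.out_eq']
      conv_lhs => rw [← QuotientGroup.out_eq' q]
      rfl)
  choose κ hκ using hκ
  have k1 : ∀ q, κ 1 q = 1 := fun q => hφ (by simp [hκ])
  have k2 : ∀ γ δ q, κ (γ * δ) q = κ γ (δ • q) * κ δ q := fun γ δ q =>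
    hφ (by simp [hκ, mul_smul, mul_assoc])
  let := fun n => indAct κ k1 k2 (X n)
  let := indAct κ k1 k2 Unit
  obtain ⟨y0, hy0⟩ := h0 1
  let ε' : (X 0 →₀ k) →ₗ[k] (Unit →₀ k) := lsingle () ∘ₗ ε
  let σ : (Unit →₀ k) →ₗ[k] (X 0 →₀ k) := linearCombination k fun _ => y0
  have e0 : ∀ y, ε' (σ y) = y := fun y => by
    rw [Finsupp.unique_single y]
    simp [ε', σ, hy0]
  have e1 : Function.Exact (d 0) ε' := fun y => by
    rw [← h1 y]
    simp [ε']
  obtain ⟨s0, hs0⟩ := split_step _ _ e1 σ fun y => e0 _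
  have e2 : ∀ n, ∃ s : (X n →₀ k) →ₗ[k] (X (n + 1) →₀ k), ∀ y, d n (s (d n y)) = d n y := by
    intro n
    induction n with
    | zero =>
      refine ⟨s0, fun y => ?_⟩
      have := hs0 (d 0 y)
      rwa [e1.apply_apply_eq_zero, map_zero, add_zero] at this
    | succ n ih =>
      obtain ⟨s, hs⟩ := ih
      obtain ⟨s', hs'⟩ := split_step _ _ (h2 n) s hs
      refine ⟨s', fun y => ?_⟩
      have := hs' (d (n + 1) y)
      rwa [(h2 n).apply_apply_eq_zero, map_zero, add_zero] at this
  have main := null_res N (fun n => (G ⧸ φ.range) × X n →₀ B k G)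
    (fun n => DY (barD k G) ((G ⧸ φ.range) × X n)) (fun n => tens (d n)) _
    (DY (barD k G) ((G ⧸ φ.range) × Unit)) (tens ε')
    (fun n => tens_mor _ κ (fun _ _ _ => rfl) (fun _ _ _ => rfl) _ (hd n))
    (tens_mor _ κ (fun _ _ _ => rfl) (fun _ _ _ => rfl) _ fun g c => by simp [ε', hε])
    (fun z => ⟨tens σ z, by
      induction z using Finsupp.induction_linear with
      | zero => simp
      | add x y a b => simp only [map_add, a, b]
      | single z b => rw [tens_single, tens_emb, e0]; simp⟩)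
    (tens_exact _ _ s0 σ e1.apply_apply_eq_zero hs0)
    (fun n => by
      obtain ⟨s, hs⟩ := e2 n
      obtain ⟨s', hs'⟩ := split_step _ _ (h2 n) s hs
      exact tens_exact _ _ s' s (h2 n).apply_apply_eq_zero hs')
    (fun n => null_of_stab hG _ fun z => ?_)
    ⟨tens s1, tens_mor _ κ (fun _ _ _ => rfl) (fun _ _ _ => rfl) _ s2, fun z => by
      induction z using Finsupp.induction_linear with
      | zero => simp
      | add x y a b => simp only [map_add, a, b]
      | single z b => rw [tens_single, tens_emb, tens_emb, s3]⟩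
  · refine null_retract _ _ (lmapDomain _ k fun q => (q, ())) (lmapDomain _ k Prod.fst)
      (mor_map _ _ fun _ _ => rfl) (mor_map _ _ fun _ _ => rfl) 1 one_ne_zero (fun x => ?_) main
    rw [one_smul]
    exact mapDomain_comp.symm.trans mapDomain_id
  · obtain ⟨q, x⟩ := z
    have := ih n x (((MulAut.conj q.out).toMonoidHom.comp φ).comp
      (MulAction.stabilizer K x).subtype)
      ((MulAut.conj q.out).injective.comp (hφ.comp Subtype.val_injective))
    have e : MulAction.stabilizer G (q, x) = (((MulAut.conj q.out).toMonoidHom.comp φ).comp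
        (MulAction.stabilizer K x).subtype).range := by
      ext γ
      constructor
      · intro h
        have h' : (γ • q, κ γ q • x) = (q, x) := h
        refine ⟨⟨κ γ q, (Prod.ext_iff.1 h').2⟩, ?_⟩
        have e : γ • q = q := (Prod.ext_iff.1 h').1
        simp [hκ, e]
      · rintro ⟨a, rfl⟩
        have e : (q.out * φ a * q.out⁻¹) • q = q := by
          conv_rhs => rw [← QuotientGroup.out_eq' q]
          have : (q.out * φ a * q.out⁻¹) • q =
              ((q.out * φ a * q.out⁻¹ * q.out : G) : G ⧸ φ.range) := by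
            conv_lhs => arg 2; rw [← QuotientGroup.out_eq' q]
            rfl
          rw [this, QuotientGroup.eq]
          exact ⟨a⁻¹, by simp⟩
        have e' : κ (q.out * φ a * q.out⁻¹) q = a := hφ (by rw [hκ, e]; group)
        change ((q.out * φ a * q.out⁻¹) • q, κ (q.out * φ a * q.out⁻¹) q • x) = (q, x)
        rw [e, e', a.2]
    rwa [e]

lemma null_fd (hG : FinType k G) {K : Type} [Group K] {N : ℕ} (hK : FD k K K N) (φ : K →* G)
    (hφ : Function.Injective φ) : Null (DY (barD k G) (G ⧸ φ.range)) := by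
  obtain ⟨A, a1, a3, a2⟩ := htpy_of_FD hK
  let X : ℕ → Type := fun n => {l : List K // l.length = n + 1}
  let _ : ∀ n, MulAction K (X n) := fun n =>
    { smul := fun g l => ⟨l.1.map (g • ·), by rw [List.length_map, l.2]⟩
      one_smul := fun l => Subtype.ext (by change l.1.map _ = l.1; simp)
      mul_smul := fun a b l => Subtype.ext (by
        change l.1.map _ = (l.1.map _).map _
        simp [mul_assoc, Function.comp_def]) }
  let i : ∀ n, (X n →₀ k) →ₗ[k] B k K := fun n => lmapDomain k k Subtype.val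
  let r : ∀ n, B k K →ₗ[k] (X n →₀ k) := fun n => lcomapDomain _ Subtype.val_injective
  have i0 : ∀ n, Function.Injective (i n) := fun n => mapDomain_injective Subtype.val_injective
  have i1 : ∀ n y, i n y ∈ gr k K (n + 1) := fun n y => by
    induction y using Finsupp.induction_linear with
    | zero => simp
    | add x y a b => rw [map_add]; exact add_mem a b
    | single l c => simpa [i] using single_mem_gr l.2 c
  have i2 : ∀ n (g : K) y, i n (y.mapDomain (g • ·)) = act k K K g (i n y) := fun n g y => by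
    induction y using Finsupp.induction_linear with
    | zero => simp
    | add x y a b => simp only [mapDomain_add, map_add, a, b]
    | single l c =>
      simp only [i, mapDomain_single, lmapDomain_apply, act_single]
      rfl
  have i3 : ∀ n, ∀ y ∈ gr k K (n + 1), i n (r n y) = y := fun n y hy =>
    gr_ext (i n ∘ₗ r n) LinearMap.id (fun l hl => by
      have : r n (single l 1) = single ⟨l, hl⟩ 1 :=
        comapDomain_single (Subtype.val : X n → List K) ⟨l, hl⟩ 1 _
      simp [this, i]) hy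
  let d : ∀ n, (X (n + 1) →₀ k) →ₗ[k] (X n →₀ k) := fun n => r n ∘ₗ bd ∘ₗ i (n + 1)
  have d1 : ∀ n y, i n (d n y) = bd (i (n + 1) y) := fun n y => i3 n _ (bd_gr (i1 _ y))
  have ex : ∀ n y, bd (i n y) = 0 ↔ y ∈ Set.range (d n) := fun n y =>
    ⟨fun h => ⟨r _ (cons 1 (i n y)), i0 n (by
      rw [d1, i3 _ _ (cons_gr 1 (i1 n y)), bd_cons, h, map_zero, sub_zero])⟩, by
      rintro ⟨z, rfl⟩
      rw [d1, bd_bd]⟩
  have s1 : ∀ y, i (N + 1) (r (N + 1) (A (i N y))) = A (i N y) := fun y =>
    i3 _ _ (a3 _ _ (i1 N y))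
  refine null_act hG X d (lapply [] ∘ₗ bd ∘ₗ i 0) (fun n g c => i0 n ?_) (fun g c => ?_)
    (fun c => ⟨single ⟨[1], rfl⟩ c, by simp [i, bd_single_cons]⟩) (fun y => ?_) (fun n y => ?_)
    N (r (N + 1) ∘ₗ A ∘ₗ i N) (fun g c => i0 _ ?_) (fun y => i0 _ ?_) (fun n x ψ hψ => ?_) φ hφ
  · rw [d1, i2, i2, d1, bd_act]
  · simp only [LinearMap.comp_apply, i2, bd_act, lapply_apply, act_nil]
  · rw [← ex]
    have := gr_ext (lsingle [] ∘ₗ lapply []) LinearMap.id
      (fun l hl => by rw [List.length_eq_zero_iff.1 hl]; simp) (bd_gr (i1 0 y))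
    refine ⟨fun h => ?_, fun h => by simp [h]⟩
    have h' : bd (i 0 y) [] = 0 := h
    simpa [h'] using this.symm
  · rw [← ex, ← d1, map_eq_zero_iff _ (i0 n)]
  · rw [i2]
    simp only [LinearMap.comp_apply, s1]
    rw [i2, a1]
  · have := congrArg bd (a2 _ (i1 (N + 1) y))
    rw [map_add, bd_bd, zero_add] at this
    rw [d1]
    simp only [LinearMap.comp_apply, s1]
    rw [d1]
    exact this.symm
  · have : Subsingleton (MulAction.stabilizer K x) := ⟨fun a b => Subtype.ext (by
      obtain ⟨l, hl⟩ := x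
      obtain ⟨g, l, rfl⟩ := List.exists_cons_of_length_eq_add_one hl
      have e1 : a.1 * g = g := (List.cons.inj (congrArg Subtype.val a.2)).1
      have e2 : b.1 * g = g := (List.cons.inj (congrArg Subtype.val b.2)).1
      exact mul_right_cancel (e1.trans e2.symm))⟩
    have e := (MonoidHom.ofInjective hψ).toEquiv
    have := Finite.of_equiv _ e
    exact null_fin _ (by rw [← Nat.card_congr e, Nat.card_unique]; simp)

lemma null_LH (hG : FinType k G) {K : Type} [Group K] (hK : LH k K) :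
    ∀ φ : K →* G, Function.Injective φ → Null (DY (barD k G) (G ⧸ φ.range)) := by
  induction hK with
  | fin K h =>
    intro φ hφ
    have := Finite.of_equiv _ (MonoidHom.ofInjective hφ).toEquiv
    exact null_fin _ (by rwa [← Nat.card_congr (MonoidHom.ofInjective hφ).toEquiv])
  | loc K _ ih =>
    intro φ hφ
    refine null_loc hG _ fun S hS => ?_
    let K' := Subgroup.closure (φ ⁻¹' (S : Set G))
    refine ⟨(φ.comp K'.subtype).range, ?_, fun s hs => ?_, ih K' ((Subgroup.fg_iff _).2
      ⟨_, rfl, S.finite_toSet.preimage hφ.injOn⟩) _ (hφ.comp K'.subtype_injective)⟩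
    · rintro _ ⟨x, rfl⟩
      exact ⟨x, rfl⟩
    · obtain ⟨x, rfl⟩ := hS hs
      exact ⟨⟨x, Subgroup.subset_closure hs⟩, rfl⟩
  | fd K P N h => exact null_fd hG (FD_of_resolution P N h)
  | act K X d ε hd hε h0 h1 h2 N hN _ ih =>
    refine null_act hG X d ε hd hε h0 h1 h2 N 0 (by simp) (fun y => ?_) ih
    have := hN (N + 1) (Nat.lt_succ_self N)
    rw [Subsingleton.elim y 0]
    simp

theorem key_LH (hG : Combable G) (h : LH k G) :
    ∃ m : k, m ≠ 0 ∧ ∃ a : B k G →ₗ[k] B k G, Eqv (act k G G) a ∧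
      Ev fun x => m • x = bd (a x) + a (bd x) :=
  of_null_DY (barD k G) ((1 : G) : G ⧸ (MonoidHom.id G).range)
    (fun _ => QuotientGroup.eq.2 ⟨_, rfl⟩) (null_LH (finType hG) h _ Function.injective_id)
    LinearMap.id (fun _ _ => rfl) fun _ => rfl

end Pool.Agent.Lib.MP_2fb4be_al.Sol.K
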