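import Pool.Agent.Lib.MP_2fb4be_al.FD.Hier
import Pool.Agent.Lib.MP_2fb4be_al.Sol.Sub

/-!
Cyclic subgroups of combable groups that are virtually in the hierarchy `LH` are not too distorted.
-/

set_option autoImplicit false

noncomputable section

namespace Pool.Agent.Lib.MP_2fb4be_al.Sol

open Filter

variable {G : Type} [Group G]

lemma len_word (H : Subgroup G) [H.FiniteIndex] (L : Len H) (S : Finset G) :
    ∃ c, ∀ w : List G, (∀ s ∈ w, s ∈ S) → ∀ h : H, w.prod = h → L.len h ≤ c * w.length := by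
  let T : Set G := insert 1 (Set.range fun q : G ⧸ H => q.out)
  have hT : T.Finite := (Set.finite_range _).insert 1
  have hσ : ∀ g : G, ∃ s : H, g⁻¹ * s ∈ T ∧ (g ∈ H → s = g) := by
    intro g
    by_cases hg : g ∈ H
    · exact ⟨⟨g, hg⟩, Or.inl (by simp), fun _ => rfl⟩
    · obtain ⟨s, hs⟩ := QuotientGroup.mk_out_eq_mul H g⁻¹
      exact ⟨s, Or.inr ⟨_, hs⟩, fun h => absurd h hg⟩
  choose σ h1 h2 using hσ
  obtain ⟨c, hc⟩ := L.bdd (((hT.prod (S.finite_toSet.prod hT)).image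
    fun z => z.1⁻¹ * z.2.1 * z.2.2).preimage Subtype.val_injective.injOn)
  have key : ∀ w : List G, (∀ s ∈ w, s ∈ S) → ∀ g,
      L.len ((σ g)⁻¹ * σ (g * w.prod)) ≤ c * w.length := by
    intro w
    induction w with
    | nil => simp [L.one]
    | cons s w ih =>
      intro hw g
      have a := ih (fun s hs => hw s (List.mem_cons_of_mem _ hs)) (g * s)
      have b := hc ((σ g)⁻¹ * σ (g * s)) ⟨(_, s, _), ⟨h1 g, hw s List.mem_cons_self, h1 (g * s)⟩, by
        simp only [Subgroup.coe_mul, Subgroup.coe_inv]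
        group⟩
      have e := L.mul ((σ g)⁻¹ * σ (g * s)) ((σ (g * s))⁻¹ * σ (g * s * w.prod))
      rw [mul_assoc, mul_inv_cancel_left] at e
      rw [List.prod_cons, List.length_cons, ← mul_assoc, mul_add]
      omega
  refine ⟨c, fun w hw h e => ?_⟩
  have := key w hw 1
  rwa [one_mul, e, show σ 1 = 1 from Subtype.ext (h2 1 H.one_mem),
    show σ h = h from Subtype.ext (h2 h h.2), inv_one, one_mul] at this

theorem undistorted (hG : Combable G) (H : Subgroup G) [H.FiniteIndex] (k : Type) [CommRing k]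
    [IsDomain k] (hH : LH k H) (x : G) (S : Finset G)
    (h : ∀ e : ℕ, ∀ᶠ n in atTop, ∃ w : List G, (∀ s ∈ w, s ∈ S) ∧ w.prod = x ^ n ∧
      w.length ^ e ≤ n) : IsOfFinOrder x := by
  by_contra hx
  have hc := hG.subgroup H
  obtain ⟨m, hm, A, a1, a2⟩ := K.key_LH hc hH
  obtain ⟨N, a2⟩ := eventually_atTop.1 a2
  obtain ⟨L, p, C, h0, h1, h2, h3⟩ := hc
  obtain ⟨K0, hK⟩ := K.core L p C h0 h1 h2 h3 m hm A a1 N (a2 _ (by omega))
  obtain ⟨a, ha, -, hxa⟩ := Subgroup.exists_pow_mem_of_index_ne_zero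
    (Subgroup.FiniteIndex.index_ne_zero (H := H)) x
  obtain ⟨c, hw⟩ := len_word H L S
  obtain ⟨n0, hn⟩ := eventually_atTop.1 (h ((N + 2) * N + 1))
  let x' : H := ⟨x ^ a, hxa⟩
  obtain ⟨b, hb⟩ : ∃ b, b = c + L.len x' + 1 := ⟨_, rfl⟩
  obtain ⟨M, hM⟩ : ∃ M, M = K0 * b ^ (N + 1) + a + n0 + 1 := ⟨_, rfl⟩
  have hM1 : 1 ≤ M := by omega
  have := hK x' (fun e => hx ((H.subtype.isOfFinOrder e).of_pow ha.ne')) (M ^ (N + 2)) (b * M)
    (Nat.mul_pos (by omega) hM1) fun j hj => by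
      rcases Nat.eq_zero_or_pos j with rfl | hj0
      · simp only [pow_zero, pow_one]
        exact le_trans (by omega) (Nat.le_mul_of_pos_right b hM1)
      · have e1 : M ≤ (M ^ (N + 2)) ^ j := by
          rw [← pow_mul]
          exact Nat.le_self_pow (by positivity) M
        obtain ⟨w, w1, w2, w3⟩ := hn (a * (M ^ (N + 2)) ^ j)
          (le_trans (by omega) (Nat.le_mul_of_pos_left _ ha))
        have e2 : w.length ≤ M := by
          refine (Nat.pow_le_pow_iff_left (Nat.succ_ne_zero _)).1 (w3.trans ?_)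
          rw [← pow_mul, pow_succ' M ((N + 2) * N)]
          exact Nat.mul_le_mul (by omega) (Nat.pow_le_pow_right hM1 (Nat.mul_le_mul_left _ hj))
        refine (hw w w1 _ (by rw [w2, pow_mul]; rfl)).trans (Nat.mul_le_mul (by omega) e2)
  rw [mul_pow, ← mul_assoc, pow_succ' M (N + 1)] at this
  have := Nat.le_of_mul_le_mul_right this (pow_pos hM1 _)
  omega

lemma bs_word (x y : G) (p q : ℤ) (hpq : p.natAbs < q.natAbs) (h : y * x ^ p * y⁻¹ = x ^ q)
    (S : Finset G) (h1 : y ∈ S) (h2 : y⁻¹ ∈ S) (h3 : ∀ r : ℤ, r.natAbs ≤ q.natAbs → x ^ r ∈ S)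
    (t : ℕ) : ∀ j : ℤ, j.natAbs * p.natAbs ^ t ≤ q.natAbs ^ t →
      ∃ w : List G, (∀ s ∈ w, s ∈ S) ∧ w.prod = x ^ j ∧ w.length ≤ 3 * t + 1 := by
  induction t with
  | zero =>
    intro j hj
    exact ⟨[x ^ j], by simpa using h3 j (by simp at hj; omega), by simp, by simp⟩
  | succ t ih =>
    intro j hj
    obtain ⟨w, w1, w2, w3⟩ := ih (p * j.tdiv q) (by
      refine Nat.le_of_mul_le_mul_left ?_ (show 0 < q.natAbs by omega)
      rw [← pow_succ', Int.natAbs_mul, Int.natAbs_tdiv]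
      refine le_trans ?_ hj
      have := Nat.mul_le_mul_right (p.natAbs ^ (t + 1)) (Nat.mul_div_le j.natAbs q.natAbs)
      refine le_trans (le_of_eq ?_) this
      change _ * (_ * (j.natAbs / q.natAbs) * _) = _
      ring)
    refine ⟨y :: w ++ [y⁻¹, x ^ j.tmod q], fun s hs => ?_, ?_, by simp; omega⟩
    · simp only [List.cons_append, List.mem_cons, List.mem_append, List.not_mem_nil,
        or_false] at hs
      rcases hs with rfl | hs | rfl | rfl
      · exact h1
      · exact w1 s hs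
      · exact h2
      · refine h3 _ ?_
        rw [Int.natAbs_tmod]
        exact (Nat.mod_lt _ (by omega)).le
    · simp only [List.cons_append, List.prod_cons, List.prod_append, List.prod_nil, mul_one, w2]
      rw [← mul_assoc, ← mul_assoc, zpow_mul, ← conj_zpow, h, ← zpow_mul, ← zpow_add,
        Int.mul_tdiv_add_tmod]

lemma two_mul_pow_le (P : ℕ) : 2 * P ^ (P + 1) ≤ (P + 1) ^ (P + 1) := by
  have := pow_add_mul_le_add_pow (a := P) (b := 1) (Nat.zero_le _) (Nat.zero_le _) (P + 1)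
  simp only [Nat.cast_id, Nat.add_sub_cancel, mul_one] at this
  refine le_trans ?_ this
  rw [pow_succ, add_mul, mul_comm P]
  omega

lemma bs_short (x y : G) (p q : ℤ) (hpq : p.natAbs < q.natAbs) (h : y * x ^ p * y⁻¹ = x ^ q) :
    ∃ S : Finset G, ∀ e : ℕ, ∀ᶠ n in atTop, ∃ w : List G, (∀ s ∈ w, s ∈ S) ∧ w.prod = x ^ n ∧
      w.length ^ e ≤ n := by
  classical
  refine ⟨insert y (insert y⁻¹ ((Finset.Icc (-q.natAbs : ℤ) q.natAbs).image (x ^ ·))), fun e => ?_⟩
  obtain ⟨P, hP⟩ : ∃ P, P = p.natAbs := ⟨_, rfl⟩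
  obtain ⟨c, hc⟩ : ∃ c, c = 6 * (P + 1) + 1 := ⟨_, rfl⟩
  have t1 : ∀ᶠ b : ℕ in atTop, (c * b) ^ e ≤ 2 ^ b := by
    have := (tendsto_pow_const_div_const_pow_of_one_lt e (one_lt_two (α := ℝ))).const_mul
      ((c : ℝ) ^ e)
    rw [mul_zero] at this
    filter_upwards [this.eventually_le_const one_pos] with b hb
    rw [← mul_div_assoc, div_le_one (by positivity), ← mul_pow] at hb
    exact_mod_cast hb
  obtain ⟨b0, hb⟩ := eventually_atTop.1 t1
  filter_upwards [eventually_ge_atTop (2 ^ (b0 + 1))] with n hn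
  have hn0 : n ≠ 0 := by
    have : 0 < 2 ^ (b0 + 1) := by positivity
    omega
  have l1 : b0 + 1 ≤ Nat.log 2 n := Nat.le_log_of_pow_le one_lt_two hn
  have l2 := Nat.pow_log_le_self 2 hn0
  have l3 := Nat.lt_pow_succ_log_self one_lt_two n
  generalize Nat.log 2 n = b at l1 l2 l3
  obtain ⟨w, w1, w2, w3⟩ := bs_word x y p q hpq h
    (insert y (insert y⁻¹ ((Finset.Icc (-q.natAbs : ℤ) q.natAbs).image (x ^ ·))))
    (Finset.mem_insert_self _ _)
    (Finset.mem_insert_of_mem (Finset.mem_insert_self _ _))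
    (fun r hr => Finset.mem_insert_of_mem (Finset.mem_insert_of_mem
      (Finset.mem_image_of_mem (x ^ ·) (Finset.mem_Icc.2 ⟨by omega, by omega⟩))))
    ((P + 1) * (b + 1)) n (by
      rw [← hP, Int.natAbs_natCast, pow_mul, pow_mul]
      refine (Nat.mul_le_mul_right _ l3.le).trans ?_
      rw [← mul_pow]
      exact Nat.pow_le_pow_left ((two_mul_pow_le P).trans (Nat.pow_le_pow_left (by omega) _)) _)
  refine ⟨w, w1, by rw [w2, zpow_natCast], le_trans ?_ ((hb b (by omega)).trans l2)⟩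
  refine Nat.pow_le_pow_left (w3.trans ?_) _
  rw [hc]
  nlinarith

theorem finOrder_of_bs (hG : Combable G) (H : Subgroup G) [H.FiniteIndex] (k : Type) [CommRing k]
    [IsDomain k] (hH : LH k H) (x y : G) (p q : ℤ) (hpq : |p| ≠ |q|)
    (h : y * x ^ p * y⁻¹ = x ^ q) : IsOfFinOrder x := by
  have : p.natAbs ≠ q.natAbs := fun e => hpq (by rw [Int.abs_eq_natAbs, e, Int.abs_eq_natAbs])
  rcases lt_or_gt_of_ne this with e | e
  · obtain ⟨S, hS⟩ := bs_short x y p q e h
    exact undistorted hG H k hH x S hS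
  · obtain ⟨S, hS⟩ := bs_short x y⁻¹ q p e (by rw [← h]; group)
    exact undistorted hG H k hH x S hS

theorem no_bs_LH (G : Type) [Group G] (hG : IsAutomatic G) (H : Subgroup G) [H.FiniteIndex]
    (k : Type) [CommRing k] [IsDomain k] (hH : LH k H) (φ : PresentedGroup
      ({FreeGroup.of (1 : Fin 2) * FreeGroup.of 0 * (FreeGroup.of 1)⁻¹ * (FreeGroup.of 0 ^ 2)⁻¹} :
        Set (FreeGroup (Fin 2))) →* G) : ¬ Function.Injective φ := by
  intro hφ
  have h1 := finOrder_of_bs (combable_of_automatic hG) H k hH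
    (φ (PresentedGroup.of 0)) (φ (PresentedGroup.of 1)) 1 2 (by decide) (by
      rw [zpow_one, zpow_ofNat, ← mul_inv_eq_one, ← map_inv, ← map_pow, ← map_inv, ← map_mul,
        ← map_mul, ← map_mul]
      exact (congrArg φ (PresentedGroup.one_of_mem rfl)).trans (map_one φ))
  rw [hφ.isOfFinOrder_iff] at h1
  let f : Fin 2 → Equiv.Perm ℚ := ![Equiv.addRight 1, Equiv.mulLeft₀ 2 two_ne_zero]
  obtain ⟨n, hn, h2⟩ := isOfFinOrder_iff_pow_eq_one.1 ((PresentedGroup.toGroup (f := f) (by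
    rintro _ rfl
    ext z
    simp [f, pow_two]
    ring)).isOfFinOrder h1)
  have := congrArg (fun e : Equiv.Perm ℚ => e 0) h2
  simp [f, hn.ne'] at this

end Pool.Agent.Lib.MP_2fb4be_al.Sol
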