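import Mathlib
import Pool.Agent.Lib.MP_2fb4be_al.FD.Main

/-!
An automatic group that is virtually in the hierarchy `LH` (in particular one of finite virtual
cohomological dimension) has no unbalanced Baumslag-Solitar relation on an element of infinite
order.
-/

set_option autoImplicit false

namespace Pool.Agent.Lib.MP_2fb4be_al.HierarchyRetired

open Pool.Agent.Lib.MP_2fb4be_al

theorem result (G : Type) [Group G] (hG : IsAutomatic G) (k : Type) [CommRing k] [IsDomain k]
    (H : Subgroup G) [H.FiniteIndex] (hH : LH k H) (x y : G) (p q : ℤ) (hpq : |p| ≠ |q|)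
    (h : y * x ^ p * y⁻¹ = x ^ q) : IsOfFinOrder x :=
  Sol.finOrder_of_bs (Sol.combable_of_automatic hG) H k hH x y p q hpq h

end Pool.Agent.Lib.MP_2fb4be_al.HierarchyRetired
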